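import Mathlib

/-!
# Sets of finite perimeter and isoperimetric regions in a Riemannian manifold `(ℝ^ι, g)`

The manifold is `ℝ^ι` (`ι` a finite index set of coordinates) with a smooth Riemannian metric `g`,
given by its matrix of coefficients in the standard coordinates.
-/

set_option autoImplicit false

open Set MeasureTheory
open scoped ContDiff ENNReal Matrix

namespace Pool.Agent.W551.Iso

variable {ι : Type} [Fintype ι] [DecidableEq ι]

/-- `g` is a smooth Riemannian metric on `ℝ^ι`: `g x` is the matrix of the inner product of the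
tangent space at `x` in the standard coordinates. -/
structure IsMetric (g : (ι → ℝ) → Matrix ι ι ℝ) : Prop where
  smooth : ∀ i j, ContDiff ℝ ∞ (fun x => g x i j)
  posDef : ∀ x, (g x).PosDef

/-- The inner product `g_x(v, w)` of two tangent vectors at `x`. -/
def inn (g : (ι → ℝ) → Matrix ι ι ℝ) (x v w : ι → ℝ) : ℝ := v ⬝ᵥ (g x *ᵥ w)

/-- The Riemannian volume density `√(det g)`. -/
noncomputable def dens (g : (ι → ℝ) → Matrix ι ι ℝ) (x : ι → ℝ) : ℝ := Real.sqrt (g x).det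

/-- The Riemannian volume measure `√(det g) dx`. -/
noncomputable def vol (g : (ι → ℝ) → Matrix ι ι ℝ) : Measure (ι → ℝ) :=
  (volume : Measure (ι → ℝ)).withDensity (fun x => ENNReal.ofReal (dens g x))

/-- The Euclidean divergence `∑ ∂ᵢ Zⁱ` of a vector field `Z`. -/
noncomputable def eucDiv (Z : (ι → ℝ) → (ι → ℝ)) (x : ι → ℝ) : ℝ :=
  ∑ i, fderiv ℝ (fun y => Z y i) x (Pi.single i 1)

/-- The Riemannian divergence `(1 / √(det g)) ∑ ∂ᵢ (√(det g) Xⁱ)` of a vector field `X`. -/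
noncomputable def riemDiv (g : (ι → ℝ) → Matrix ι ι ℝ) (X : (ι → ℝ) → (ι → ℝ)) (x : ι → ℝ) : ℝ :=
  (dens g x)⁻¹ * eucDiv (fun y => dens g y • X y) x

/-- `X` is a smooth vector field with compact support and `|X|_g ≤ 1` everywhere. -/
structure IsTestField (g : (ι → ℝ) → Matrix ι ι ℝ) (X : (ι → ℝ) → (ι → ℝ)) : Prop where
  smooth : ContDiff ℝ ∞ X
  compact : HasCompactSupport X
  norm_le : ∀ x, inn g x (X x) (X x) ≤ 1

/-- The perimeter of the set `E` in `(ℝ^ι, g)` (De Giorgi): the supremum of `∫_E div_g X dvol_g`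
over all smooth vector fields `X` with compact support and `|X|_g ≤ 1`. -/
noncomputable def perimeter (g : (ι → ℝ) → Matrix ι ι ℝ) (E : Set (ι → ℝ)) : ℝ≥0∞ :=
  ⨆ (X : (ι → ℝ) → (ι → ℝ)) (_ : IsTestField g X), ENNReal.ofReal (∫ x in E, riemDiv g X x ∂(vol g))

/-- `Ω` is an isoperimetric region of `(ℝ^ι, g)`: a set of finite perimeter with
`0 < |Ω| < |ℝ^ι|`, whose perimeter is at most that of every set of finite perimeter with the same
volume. -/
structure IsIsoperimetricRegion (g : (ι → ℝ) → Matrix ι ι ℝ) (Ω : Set (ι → ℝ)) : Prop where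
  measurable : MeasurableSet Ω
  vol_pos : 0 < vol g Ω
  vol_lt : vol g Ω < vol g univ
  perimeter_lt : perimeter g Ω < ⊤
  minimal : ∀ E : Set (ι → ℝ), MeasurableSet E → perimeter g E < ⊤ → vol g E = vol g Ω →
    perimeter g Ω ≤ perimeter g E

/-- `p` is a regular point of the boundary of `Ω`: near `p` the boundary is a smooth embedded
hypersurface `{F = 0}`, `dF ≠ 0`. -/
def IsRegularPoint (Ω : Set (ι → ℝ)) (p : ι → ℝ) : Prop :=
  p ∈ frontier Ω ∧ ∃ (V : Set (ι → ℝ)) (F : (ι → ℝ) → ℝ), IsOpen V ∧ p ∈ V ∧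
    ContDiffOn ℝ ∞ F V ∧ (∀ q ∈ V, fderiv ℝ F q ≠ 0) ∧ frontier Ω ∩ V = {q ∈ V | F q = 0}

/-- `p` is a singular point of the boundary of `Ω`: a boundary point which is not regular. -/
def IsSingularPoint (Ω : Set (ι → ℝ)) (p : ι → ℝ) : Prop :=
  p ∈ frontier Ω ∧ ¬ IsRegularPoint Ω p

/-- Near the boundary point `p` the set `Ω` is `{F < 0}` with boundary `{F = 0}`, `F` smooth with
`dF ≠ 0`, and the mean curvature of the boundary, with respect to the outer unit normal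
`ν = ∇_g F / |∇_g F|_g`, is the constant `H`: it is the Riemannian divergence of `ν`, which is
defined on all of the neighbourhood `V` of `p` by `|ν|_g = 1` and `g(ν, ·) = c dF` with `c > 0`. -/
def HasMeanCurvature (g : (ι → ℝ) → Matrix ι ι ℝ) (Ω : Set (ι → ℝ)) (p : ι → ℝ) (H : ℝ) : Prop :=
  ∃ (V : Set (ι → ℝ)) (F : (ι → ℝ) → ℝ) (ν : (ι → ℝ) → (ι → ℝ)), IsOpen V ∧ p ∈ V ∧
    ContDiffOn ℝ ∞ F V ∧ (∀ q ∈ V, fderiv ℝ F q ≠ 0) ∧
    Ω ∩ V = {q ∈ V | F q < 0} ∧ frontier Ω ∩ V = {q ∈ V | F q = 0} ∧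
    ContDiffOn ℝ ∞ ν V ∧ (∀ q ∈ V, inn g q (ν q) (ν q) = 1) ∧
    (∀ q ∈ V, ∃ c : ℝ, 0 < c ∧ ∀ w, inn g q (ν q) w = c * fderiv ℝ F q w) ∧
    ∀ q ∈ frontier Ω ∩ V, riemDiv g ν q = H

/-- The length of the part `0 ≤ t ≤ T` of the curve `γ`. -/
noncomputable def curveLength (g : (ι → ℝ) → Matrix ι ι ℝ) (γ : ℝ → (ι → ℝ)) (T : ℝ) : ℝ :=
  ∫ t in (0 : ℝ)..T, Real.sqrt (inn g (γ t) (deriv γ t) (deriv γ t))

/-- `(ℝ^ι, g)` is complete: every `C¹` curve `[0, ∞) → ℝ^ι` of finite length stays in a bounded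
set (by the Hopf–Rinow theorem this is equivalent to the completeness of the Riemannian
distance). -/
def IsCompleteMetric (g : (ι → ℝ) → Matrix ι ι ℝ) : Prop :=
  ∀ γ : ℝ → (ι → ℝ), ContDiff ℝ 1 γ → (∃ L : ℝ, ∀ T : ℝ, 0 ≤ T → curveLength g γ T ≤ L) →
    Bornology.IsBounded (γ '' Ici 0)

end Pool.Agent.W551.Iso
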