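import Pool.Agent.W551.Iso.Complete

/-!
# Scaling of the metric
-/

set_option autoImplicit false
set_option linter.unusedSectionVars false

open Set Filter Topology MeasureTheory
open scoped ContDiff ENNReal

namespace Pool.Agent.W551.Iso

variable {ι : Type} [Fintype ι] [DecidableEq ι]

/-- the metric `κ² g` -/
def sc (κ : ℝ) (g : (ι → ℝ) → Matrix ι ι ℝ) : (ι → ℝ) → Matrix ι ι ℝ := fun x => κ ^ 2 • g x

theorem sc_inv {κ : ℝ} (hκ : 0 < κ) (g : (ι → ℝ) → Matrix ι ι ℝ) : sc κ⁻¹ (sc κ g) = g := by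
  funext x
  rw [sc, sc, smul_smul, inv_pow, inv_mul_cancel₀ (by positivity), one_smul]

theorem isMetric_sc {g : (ι → ℝ) → Matrix ι ι ℝ} (hg : IsMetric g) {κ : ℝ} (hκ : 0 < κ) :
    IsMetric (sc κ g) := by
  constructor
  · intro i j
    exact contDiff_const.mul (hg.smooth i j)
  · intro x
    exact (hg.posDef x).smul (by positivity)

theorem inn_sc (κ : ℝ) (g : (ι → ℝ) → Matrix ι ι ℝ) (x v w : ι → ℝ) :
    inn (sc κ g) x v w = κ ^ 2 * inn g x v w := by
  rw [inn, inn, sc, Matrix.smul_mulVec, dotProduct_smul, smul_eq_mul]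

theorem inn_smul_smul (g : (ι → ℝ) → Matrix ι ι ℝ) (x v w : ι → ℝ) (a b : ℝ) :
    inn g x (a • v) (b • w) = a * b * inn g x v w := by
  rw [inn, inn, Matrix.mulVec_smul, smul_dotProduct, dotProduct_smul, smul_eq_mul, smul_eq_mul]
  ring

theorem dens_sc {κ : ℝ} (hκ : 0 < κ) (g : (ι → ℝ) → Matrix ι ι ℝ) (x : ι → ℝ) :
    dens (sc κ g) x = κ ^ Fintype.card ι * dens g x := by
  rw [dens, dens, sc, Matrix.det_smul, ← pow_mul, mul_comm 2, pow_mul,
    Real.sqrt_mul (by positivity), Real.sqrt_sq (by positivity)]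

theorem vol_sc {κ : ℝ} (hκ : 0 < κ) (g : (ι → ℝ) → Matrix ι ι ℝ) :
    vol (sc κ g) = ENNReal.ofReal (κ ^ Fintype.card ι) • vol g := by
  rw [vol, vol, ← withDensity_smul' _ _ ENNReal.ofReal_ne_top]
  congr 1
  funext x
  rw [dens_sc hκ, Pi.smul_apply, smul_eq_mul, ENNReal.ofReal_mul (by positivity)]

theorem eucDiv_const_smul (c : ℝ) (Z : (ι → ℝ) → (ι → ℝ)) (x : ι → ℝ) :
    eucDiv (fun y => c • Z y) x = c * eucDiv Z x := by
  unfold eucDiv
  rw [Finset.mul_sum]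
  refine Finset.sum_congr rfl (fun i _ => ?_)
  have h1 : (fun y => (c • Z y) i) = c • (fun y => Z y i) := rfl
  have h2 := congrFun (fderiv_const_smul_field (𝕜 := ℝ) (f := fun y => Z y i) c) x
  rw [h1, h2]
  rfl

theorem riemDiv_sc {κ : ℝ} (hκ : 0 < κ) (g : (ι → ℝ) → Matrix ι ι ℝ) (X : (ι → ℝ) → (ι → ℝ))
    (x : ι → ℝ) : riemDiv (sc κ g) X x = riemDiv g X x := by
  have h1 : (fun y => dens (sc κ g) y • X y) =
      fun y => (κ ^ Fintype.card ι) • (dens g y • X y) := by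
    funext y
    rw [dens_sc hκ, smul_smul]
  have h2 : (0 : ℝ) < κ ^ Fintype.card ι := by positivity
  rw [riemDiv, riemDiv, h1, eucDiv_const_smul, dens_sc hκ, mul_inv]
  field_simp

theorem riemDiv_const_smul (g : (ι → ℝ) → Matrix ι ι ℝ) (c : ℝ) (X : (ι → ℝ) → (ι → ℝ))
    (x : ι → ℝ) : riemDiv g (fun y => c • X y) x = c * riemDiv g X x := by
  have h1 : (fun y => dens g y • (c • X y)) = fun y => c • (dens g y • X y) := by
    funext y
    rw [smul_comm]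
  rw [riemDiv, riemDiv, h1, eucDiv_const_smul]
  ring

theorem isTestField_sc {κ : ℝ} {g : (ι → ℝ) → Matrix ι ι ℝ}
    {X : (ι → ℝ) → (ι → ℝ)} (hX : IsTestField (sc κ g) X) :
    IsTestField g (fun y => κ • X y) := by
  refine ⟨hX.smooth.const_smul κ, ?_, fun x => ?_⟩
  · apply HasCompactSupport.mono hX.compact
    intro x hx h
    apply hx
    show κ • X x = 0
    rw [show X x = 0 from h, smul_zero]
  · have := hX.norm_le x
    rw [inn_sc] at this
    rw [inn_smul_smul, ← sq]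
    exact this

theorem perimeter_sc_le {κ : ℝ} (hκ : 0 < κ) (g : (ι → ℝ) → Matrix ι ι ℝ) (A : Set (ι → ℝ)) :
    perimeter (sc κ g) A ≤ ENNReal.ofReal (κ ^ Fintype.card ι * κ⁻¹) * perimeter g A := by
  refine iSup₂_le (fun X hX => ?_)
  have h1 : ∫ x in A, riemDiv (sc κ g) X x ∂(vol (sc κ g)) = (κ ^ Fintype.card ι * κ⁻¹) *
      ∫ x in A, riemDiv g (fun y => κ • X y) x ∂(vol g) := by
    rw [vol_sc hκ, Measure.restrict_smul, integral_smul_measure, ← integral_const_mul,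
      ENNReal.toReal_ofReal (by positivity), smul_eq_mul, ← integral_const_mul]
    congr 1
    funext x
    rw [riemDiv_sc hκ, riemDiv_const_smul]
    field_simp
  rw [h1, ENNReal.ofReal_mul (by positivity)]
  exact mul_le_mul_right (le_iSup₂ (f := fun (X : (ι → ℝ) → (ι → ℝ)) (_ : IsTestField g X) =>
    ENNReal.ofReal (∫ x in A, riemDiv g X x ∂(vol g))) _ (isTestField_sc hX)) _

theorem le_perimeter_sc {κ : ℝ} (hκ : 0 < κ) (g : (ι → ℝ) → Matrix ι ι ℝ) (A : Set (ι → ℝ)) :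
    ENNReal.ofReal (κ ^ Fintype.card ι * κ⁻¹) * perimeter g A ≤ perimeter (sc κ g) A := by
  have h1 := perimeter_sc_le (inv_pos.mpr hκ) (sc κ g) A
  rw [sc_inv hκ] at h1
  calc _ ≤ ENNReal.ofReal (κ ^ Fintype.card ι * κ⁻¹) *
        (ENNReal.ofReal (κ⁻¹ ^ Fintype.card ι * κ⁻¹⁻¹) * perimeter (sc κ g) A) :=
        mul_le_mul_right h1 _
    _ = _ := by
      rw [← mul_assoc, ← ENNReal.ofReal_mul (by positivity)]
      have : κ ^ Fintype.card ι * κ⁻¹ * (κ⁻¹ ^ Fintype.card ι * κ⁻¹⁻¹) = 1 := by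
        rw [inv_pow, inv_inv]
        field_simp
      rw [this, ENNReal.ofReal_one, one_mul]

theorem perimeter_sc {κ : ℝ} (hκ : 0 < κ) (g : (ι → ℝ) → Matrix ι ι ℝ) (A : Set (ι → ℝ)) :
    perimeter (sc κ g) A = ENNReal.ofReal (κ ^ Fintype.card ι * κ⁻¹) * perimeter g A :=
  le_antisymm (perimeter_sc_le hκ g A) (le_perimeter_sc hκ g A)

theorem isIsoperimetricRegion_sc {κ : ℝ} (hκ : 0 < κ) {g : (ι → ℝ) → Matrix ι ι ℝ}
    {Ω : Set (ι → ℝ)} (h : IsIsoperimetricRegion g Ω) : IsIsoperimetricRegion (sc κ g) Ω := by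
  have hc : ENNReal.ofReal (κ ^ Fintype.card ι) ≠ 0 :=
    (ENNReal.ofReal_pos.mpr (by positivity)).ne'
  have hc' : ENNReal.ofReal (κ ^ Fintype.card ι) ≠ ⊤ := ENNReal.ofReal_ne_top
  have ha : ENNReal.ofReal (κ ^ Fintype.card ι * κ⁻¹) ≠ 0 :=
    (ENNReal.ofReal_pos.mpr (by positivity)).ne'
  have ha' : ENNReal.ofReal (κ ^ Fintype.card ι * κ⁻¹) ≠ ⊤ := ENNReal.ofReal_ne_top
  refine ⟨h.measurable, ?_, ?_, ?_, ?_⟩
  · rw [vol_sc hκ, Measure.smul_apply, smul_eq_mul]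
    exact ENNReal.mul_pos hc h.vol_pos.ne'
  · rw [vol_sc hκ, Measure.smul_apply, Measure.smul_apply, smul_eq_mul, smul_eq_mul]
    exact (ENNReal.mul_lt_mul_iff_right hc hc').mpr h.vol_lt
  · rw [perimeter_sc hκ]
    exact ENNReal.mul_lt_top ha'.lt_top h.perimeter_lt
  · intro A hA hP hv
    rw [perimeter_sc hκ] at hP ⊢
    rw [perimeter_sc hκ]
    rw [vol_sc hκ, Measure.smul_apply, Measure.smul_apply, smul_eq_mul, smul_eq_mul] at hv
    have hv' : vol g A = vol g Ω := (ENNReal.mul_right_inj hc hc').mp hv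
    have hP' : perimeter g A < ⊤ := by
      rcases ENNReal.mul_lt_top_iff.mp hP with h1 | h1 | h1
      · exact h1.2
      · exact absurd h1 ha
      · rw [h1]; exact ENNReal.zero_lt_top
    exact mul_le_mul_right (h.minimal A hA hP' hv') _

theorem hasMeanCurvature_sc {κ : ℝ} (hκ : 0 < κ) {g : (ι → ℝ) → Matrix ι ι ℝ}
    {Ω : Set (ι → ℝ)} {p : ι → ℝ} {H : ℝ} (h : HasMeanCurvature g Ω p H) :
    HasMeanCurvature (sc κ g) Ω p (κ⁻¹ * H) := by
  obtain ⟨V, F, ν, h1, h2, h3, h4, h5, h6, h7, h8, h9, h10⟩ := h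
  refine ⟨V, F, fun x => κ⁻¹ • ν x, h1, h2, h3, h4, h5, h6, h7.const_smul κ⁻¹, ?_, ?_, ?_⟩
  · intro q hq
    rw [inn_sc, inn_smul_smul, h8 q hq]
    field_simp
  · intro q hq
    obtain ⟨c, hc, hcw⟩ := h9 q hq
    refine ⟨κ * c, by positivity, fun w => ?_⟩
    have := inn_smul_smul g q (ν q) w κ⁻¹ 1
    rw [one_smul] at this
    rw [inn_sc, this, hcw]
    field_simp
  · intro q hq
    rw [riemDiv_sc hκ, riemDiv_const_smul, h10 q hq]

theorem isComplete_sc {κ : ℝ} (hκ : 0 < κ) {g : (ι → ℝ) → Matrix ι ι ℝ}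
    (h : IsCompleteMetric g) : IsCompleteMetric (sc κ g) := by
  rintro γ hγ ⟨L, hL⟩
  apply h γ hγ
  refine ⟨κ⁻¹ * L, fun T hT => ?_⟩
  have h1 : curveLength (sc κ g) γ T = κ * curveLength g γ T := by
    rw [curveLength, curveLength, ← intervalIntegral.integral_const_mul]
    congr 1
    funext t
    rw [inn_sc, Real.sqrt_mul (by positivity), Real.sqrt_sq hκ.le]
  have h2 := hL T hT
  rw [h1] at h2
  calc curveLength g γ T = κ⁻¹ * (κ * curveLength g γ T) := by field_simp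
    _ ≤ κ⁻¹ * L := mul_le_mul_of_nonneg_left h2 (by positivity)

end Pool.Agent.W551.Iso
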