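import Pool.Agent.W551.Iso.Div

/-!
# Integrals of divergences
-/

set_option autoImplicit false
set_option linter.unusedSectionVars false

open Set Filter Topology MeasureTheory
open scoped ContDiff ENNReal

namespace Pool.Agent.W551.Iso

variable {ι : Type} [Fintype ι] [DecidableEq ι]

theorem integral_fderiv_eq_zero {h : (ι → ℝ) → ℝ} (hh : ContDiff ℝ 1 h) (hc : HasCompactSupport h)
    (v : ι → ℝ) : ∫ x, fderiv ℝ h x v = 0 := by
  have h1 := integral_mul_fderiv_eq_neg_fderiv_mul_of_integrable (μ := (volume : Measure (ι → ℝ)))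
    (f := fun _ : ι → ℝ => (1 : ℝ)) (g := h) (v := v)
  have hcont : Continuous (fun x => fderiv ℝ h x v) :=
    (hh.continuous_fderiv (by simp)).clm_apply continuous_const
  have hcs : HasCompactSupport (fun x => fderiv ℝ h x v) := by
    apply HasCompactSupport.of_support_subset_isCompact hc
    intro x hx
    by_contra hn
    apply hx
    have : h =ᶠ[𝓝 x] fun _ => 0 := notMem_tsupport_iff_eventuallyEq.mp hn
    show fderiv ℝ h x v = 0
    rw [this.fderiv_eq]; simp
  simp only [fderiv_fun_const, Pi.zero_apply, zero_apply, zero_mul, one_mul,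
    integral_zero, neg_zero] at h1
  exact h1 (integrable_zero _ _ _) (hcont.integrable_of_hasCompactSupport hcs)
    (hh.continuous.integrable_of_hasCompactSupport hc)
    (fun x _ => differentiableAt_const _) (fun x _ => (hh.differentiable (by simp)) x)

theorem continuous_eucDiv {W : (ι → ℝ) → (ι → ℝ)} (hW : ContDiff ℝ 1 W) :
    Continuous (eucDiv W) := by
  unfold eucDiv
  refine continuous_finsetSum _ (fun i _ => ?_)
  have h1 : ContDiff ℝ 1 (fun y => W y i) := (contDiff_apply ℝ ℝ i).comp hW
  exact (h1.continuous_fderiv (by simp)).clm_apply continuous_const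

theorem hasCompactSupport_eucDiv {W : (ι → ℝ) → (ι → ℝ)} (hc : HasCompactSupport W) :
    HasCompactSupport (eucDiv W) := by
  apply HasCompactSupport.of_support_subset_isCompact hc
  intro x hx
  by_contra hn
  apply hx
  have : W =ᶠ[𝓝 x] fun _ => 0 := notMem_tsupport_iff_eventuallyEq.mp hn
  rw [eucDiv_congr this, eucDiv_zero]

theorem integral_eucDiv {W : (ι → ℝ) → (ι → ℝ)} (hW : ContDiff ℝ 1 W) (hc : HasCompactSupport W) :
    ∫ x, eucDiv W x = 0 := by
  unfold eucDiv
  rw [integral_finsetSum]
  · refine Finset.sum_eq_zero (fun i _ => ?_)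
    apply integral_fderiv_eq_zero ((contDiff_apply ℝ ℝ i).comp hW)
    exact hc.comp_left (g := fun v : ι → ℝ => v i) rfl
  · intro i _
    have h1 : ContDiff ℝ 1 (fun y => W y i) := (contDiff_apply ℝ ℝ i).comp hW
    have h2 : HasCompactSupport (fun y => W y i) := hc.comp_left (g := fun v : ι → ℝ => v i) rfl
    have hcont : Continuous (fun x => fderiv ℝ (fun y => W y i) x (Pi.single i 1)) :=
      (h1.continuous_fderiv (by simp)).clm_apply continuous_const
    refine hcont.integrable_of_hasCompactSupport ?_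
    apply HasCompactSupport.of_support_subset_isCompact h2
    intro x hx
    by_contra hn
    apply hx
    have : (fun y => W y i) =ᶠ[𝓝 x] fun _ => 0 := notMem_tsupport_iff_eventuallyEq.mp hn
    show fderiv ℝ (fun y => W y i) x _ = 0
    rw [this.fderiv_eq]; simp

theorem integrable_eucDiv {W : (ι → ℝ) → (ι → ℝ)} (hW : ContDiff ℝ 1 W)
    (hc : HasCompactSupport W) : Integrable (eucDiv W) :=
  (continuous_eucDiv hW).integrable_of_hasCompactSupport (hasCompactSupport_eucDiv hc)

/-- Cauchy–Schwarz for a metric -/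
theorem inn_sq_le {g : (ι → ℝ) → Matrix ι ι ℝ} (hg : IsMetric g) (x v w : ι → ℝ) :
    inn g x v w ^ 2 ≤ inn g x v v * inn g x w w := by
  have hpos : ∀ u : ι → ℝ, 0 ≤ inn g x u u := by
    intro u
    rcases eq_or_ne u 0 with h | h
    · rw [h]; simp [inn]
    · have := (hg.posDef x).dotProduct_mulVec_pos h
      rw [star_trivial] at this
      exact this.le
  have hsymm : inn g x w v = inn g x v w := by
    have h1 : (g x).IsHermitian := (hg.posDef x).isHermitian
    have h2 : (g x).transpose = g x := by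
      have := h1.eq
      rwa [Matrix.conjTranspose_eq_transpose_of_trivial] at this
    rw [inn, inn, Matrix.dotProduct_mulVec, ← Matrix.mulVec_transpose, h2, dotProduct_comm]
  have key : ∀ t : ℝ, 0 ≤ inn g x w w * (t * t) + (2 * inn g x v w) * t + inn g x v v := by
    intro t
    have h1 := hpos (v + t • w)
    have h2 : inn g x (v + t • w) (v + t • w) =
        inn g x w w * (t * t) + (inn g x v w + inn g x w v) * t + inn g x v v := by
      simp only [inn, Matrix.mulVec_add, Matrix.mulVec_smul, add_dotProduct, dotProduct_add,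
        smul_dotProduct, dotProduct_smul, smul_eq_mul]
      ring
    rw [h2, hsymm] at h1
    linarith
  have := discrim_le_zero key
  rw [discrim] at this
  nlinarith

theorem continuous_dens {g : (ι → ℝ) → Matrix ι ι ℝ} (hg : IsMetric g) : Continuous (dens g) := by
  unfold dens
  apply Continuous.sqrt
  have : Continuous g := continuous_matrix (fun i j => (hg.smooth i j).continuous)
  exact this.matrix_det

theorem dens_pos {g : (ι → ℝ) → Matrix ι ι ℝ} (hg : IsMetric g) (x : ι → ℝ) : 0 < dens g x :=
  Real.sqrt_pos.mpr (hg.posDef x).det_pos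

theorem vol_apply (g : (ι → ℝ) → Matrix ι ι ℝ) {A : Set (ι → ℝ)} (hA : MeasurableSet A) :
    vol g A = ∫⁻ x in A, ENNReal.ofReal (dens g x) := by
  rw [vol, withDensity_apply _ hA]

theorem integrableOn_of_vol_lt {g : (ι → ℝ) → Matrix ι ι ℝ} (hg : IsMetric g) {A : Set (ι → ℝ)}
    (hA : MeasurableSet A) (h : vol g A ≠ ⊤) : IntegrableOn (dens g) A := by
  refine ⟨(continuous_dens hg).aestronglyMeasurable, ?_⟩
  rw [hasFiniteIntegral_iff_ofReal (ae_of_all _ (fun x => (dens_pos hg x).le))]
  rw [← vol_apply g hA]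
  exact lt_top_iff_ne_top.mpr h

theorem vol_eq_ofReal {g : (ι → ℝ) → Matrix ι ι ℝ} (hg : IsMetric g) {A : Set (ι → ℝ)}
    (hA : MeasurableSet A) (h : vol g A ≠ ⊤) : vol g A = ENNReal.ofReal (∫ x in A, dens g x) := by
  rw [vol_apply g hA, ofReal_integral_eq_lintegral_ofReal (integrableOn_of_vol_lt hg hA h)
    (ae_of_all _ (fun x => (dens_pos hg x).le))]

theorem setIntegral_riemDiv {g : (ι → ℝ) → Matrix ι ι ℝ} (hg : IsMetric g) {A : Set (ι → ℝ)}
    (hA : MeasurableSet A) (X : (ι → ℝ) → (ι → ℝ)) :
    ∫ x in A, riemDiv g X x ∂(vol g) = ∫ x in A, eucDiv (fun y => dens g y • X y) x := by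
  rw [vol, setIntegral_withDensity_eq_setIntegral_toReal_smul₀
    (continuous_dens hg).measurable.ennreal_ofReal.aemeasurable
    (ae_of_all _ (fun x => ENNReal.ofReal_lt_top)) _ hA]
  refine setIntegral_congr_fun hA (fun x _ => ?_)
  have h := dens_pos hg x
  rw [ENNReal.toReal_ofReal h.le, riemDiv, smul_eq_mul, ← mul_assoc, mul_inv_cancel₀ h.ne',
    one_mul]

end Pool.Agent.W551.Iso
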