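import Pool.Agent.W551.Iso.Metric
import Pool.Agent.W551.Iso.Integ

/-!
# Comparison of fluxes out of `Ω`
-/

set_option autoImplicit false

open Set Filter Topology MeasureTheory
open scoped ContDiff ENNReal

namespace Pool.Agent.W551.Iso

/-- the region `{G < 0}` -/
def Om : Set E := {x | fG x < 0}

theorem isOpen_Om : IsOpen Om := isOpen_lt continuous_fG continuous_const
theorem measurableSet_Om : MeasurableSet Om := isOpen_Om.measurableSet

theorem monotone_st : Monotone st := Real.smoothTransition.monotone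

theorem deriv_st_nonneg (t : ℝ) : 0 ≤ deriv st t := monotone_st.deriv_nonneg

theorem deriv_st_left {t : ℝ} (h : t < 0) : deriv st t = 0 := by
  have : st =ᶠ[𝓝 t] fun _ => 0 := by
    filter_upwards [Iio_mem_nhds h] with s hs
    exact st_zero (le_of_lt hs)
  rw [this.deriv_eq]; simp

theorem deriv_st_right {t : ℝ} (h : 1 < t) : deriv st t = 0 := by
  have : st =ᶠ[𝓝 t] fun _ => 1 := by
    filter_upwards [Ioi_mem_nhds h] with s hs
    exact st_one (le_of_lt hs)
  rw [this.deriv_eq]; simp

theorem exists_bound_deriv_st : ∃ C, 0 < C ∧ ∀ t, |deriv st t| ≤ C := by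
  have hcont : Continuous (deriv st) := contDiff_st.continuous_deriv (by simp)
  obtain ⟨C, hC⟩ := (isCompact_Icc (a := (0 : ℝ)) (b := 1)).exists_bound_of_continuousOn
    hcont.continuousOn
  refine ⟨max C 1, lt_of_lt_of_le one_pos (le_max_right _ _), fun t => ?_⟩
  by_cases h0 : t < 0
  · rw [deriv_st_left h0, abs_zero]; exact le_trans zero_le_one (le_max_right _ _)
  by_cases h1 : 1 < t
  · rw [deriv_st_right h1, abs_zero]; exact le_trans zero_le_one (le_max_right _ _)
  · exact (hC t ⟨not_lt.mp h0, not_lt.mp h1⟩).trans (le_max_left _ _)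

theorem fR_pos_of_mem {W : E → E} (h0 : (0 : E) ∉ tsupport W) {x : E} (hx : x ∈ tsupport W) :
    0 < fR x := by
  rw [fR_pos_iff]
  rintro rfl
  exact h0 hx

theorem fiber_smul_eventually {W : E → E} {x : E} (hx : x ∉ tsupport W) (ψ : E → ℝ) :
    (fun y => ψ y • W y) =ᶠ[𝓝 x] fun _ => 0 := by
  have := notMem_tsupport_iff_eventuallyEq.mp hx
  filter_upwards [this] with y hy
  rw [hy]; simp


/-- the cutoff `χ_j(G)` -/
noncomputable def psi (a : ℝ) (x : E) : ℝ := st (-a * fG x)

theorem hasFDerivAt_psi (a : ℝ) {x : E} (hx : 0 < fR x) :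
    HasFDerivAt (psi a) ((deriv st (-a * fG x) * (-a)) • fderiv ℝ fG x) x := by
  have h1 : HasFDerivAt fG (fderiv ℝ fG x) x :=
    (hasFDerivAt_fG hx).differentiableAt.hasFDerivAt
  have h2 : HasDerivAt st (deriv st (-a * fG x)) (-a * fG x) :=
    (contDiff_st.differentiable (by simp) _).hasDerivAt
  have h3 := h2.comp_hasFDerivAt x (h1.const_mul (-a))
  refine hfd_congr h3 (fun y => rfl) (fun v => ?_)
  simp only [smul_apply, smul_eq_mul]
  ring

theorem contDiff_psi_smul (a : ℝ) {W : E → E} (hW : ContDiff ℝ ∞ W) (h0 : (0 : E) ∉ tsupport W) :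
    ContDiff ℝ 1 (fun x => psi a x • W x) := by
  rw [contDiff_iff_contDiffAt]
  intro x
  by_cases hx : x ∈ tsupport W
  · have hx' := fR_pos_of_mem h0 hx
    have h1 : ContDiffAt ℝ ∞ (psi a) x :=
      contDiff_st.contDiffAt.comp x (contDiffAt_const.mul (contDiffAt_fG hx'))
    exact (h1.smul hW.contDiffAt).of_le (by simp)
  · exact contDiffAt_const.congr_of_eventuallyEq (fiber_smul_eventually hx _)

theorem eucDiv_psi_le {a : ℝ} (ha : 100 ≤ a) {W : E → E} (hW : ContDiff ℝ ∞ W)
    (h0 : (0 : E) ∉ tsupport W)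
    (hpos : ∀ x, 0 < fR x → -(1 / 100) ≤ fG x → fG x ≤ 0 → 0 ≤ fderiv ℝ fG x (W x)) (x : E) :
    eucDiv (fun x => psi a x • W x) x ≤ psi a x * eucDiv W x := by
  by_cases hx : x ∈ tsupport W
  · have hx' := fR_pos_of_mem h0 hx
    rw [eucDiv_smul (hasFDerivAt_psi a hx').differentiableAt (hW.differentiable (by simp) x),
      (hasFDerivAt_psi a hx').fderiv, smul_apply, smul_eq_mul]
    have : deriv st (-a * fG x) * (-a) * fderiv ℝ fG x (W x) ≤ 0 := by
      by_cases h1 : -(1 / 100) ≤ fG x ∧ fG x ≤ 0
      · have h2 := hpos x hx' h1.1 h1.2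
        have h3 := deriv_st_nonneg (-a * fG x)
        have : 0 ≤ deriv st (-a * fG x) * a * fderiv ℝ fG x (W x) := by positivity
        linarith
      · have h4 : deriv st (-a * fG x) = 0 := by
          by_cases h5 : fG x ≤ 0
          · have h6 : fG x < -(1 / 100) := by
              by_contra hc
              exact h1 ⟨not_lt.mp hc, h5⟩
            apply deriv_st_right
            nlinarith
          · apply deriv_st_left
            nlinarith
        rw [h4]; simp
    linarith
  · rw [eucDiv_congr (fiber_smul_eventually hx _), eucDiv_zero]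
    have : W =ᶠ[𝓝 x] fun _ => 0 := notMem_tsupport_iff_eventuallyEq.mp hx
    rw [eucDiv_congr this, eucDiv_zero, mul_zero]

theorem continuous_psi (a : ℝ) : Continuous (psi a) :=
  contDiff_st.continuous.comp (continuous_const.mul continuous_fG)

theorem psi_le (a : ℝ) (x : E) : ‖psi a x‖ ≤ 1 := by
  rw [Real.norm_eq_abs, psi, abs_of_nonneg (st_nonneg _)]
  exact st_le_one _

theorem hcs_smul (φ : E → ℝ) {W : E → E} (hc : HasCompactSupport W) :
    HasCompactSupport (fun x => φ x • W x) := by
  apply HasCompactSupport.mono hc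
  intro x hx hW
  apply hx
  show φ x • W x = 0
  rw [show W x = 0 from hW, smul_zero]

theorem int_Om_nonneg {W : E → E} (hW : ContDiff ℝ ∞ W) (hc : HasCompactSupport W)
    (h0 : (0 : E) ∉ tsupport W)
    (hpos : ∀ x, 0 < fR x → -(1 / 100) ≤ fG x → fG x ≤ 0 → 0 ≤ fderiv ℝ fG x (W x)) :
    0 ≤ ∫ x in Om, eucDiv W x := by
  have hW1 : ContDiff ℝ 1 W := hW.of_le (by simp)
  have hint1 : ∀ a, Integrable (fun x => psi a x * eucDiv W x) := fun a =>
    ((continuous_psi a).mul (continuous_eucDiv hW1)).integrable_of_hasCompactSupport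
      (hasCompactSupport_eucDiv hc).mul_left
  have hnn : ∀ j : ℕ, 0 ≤ ∫ x, psi ((j : ℝ) + 100) x * eucDiv W x := by
    intro j
    have hj : (100 : ℝ) ≤ (j : ℝ) + 100 := by
      have : (0 : ℝ) ≤ (j : ℝ) := Nat.cast_nonneg j
      linarith
    rw [← integral_eucDiv (contDiff_psi_smul ((j : ℝ) + 100) hW h0) (hcs_smul _ hc)]
    exact integral_mono (integrable_eucDiv (contDiff_psi_smul _ hW h0) (hcs_smul _ hc))
      (hint1 _) (eucDiv_psi_le hj hW h0 hpos)
  have hlim : Tendsto (fun j : ℕ => ∫ x, psi ((j : ℝ) + 100) x * eucDiv W x) atTop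
      (𝓝 (∫ x, Om.indicator (eucDiv W) x)) := by
    apply tendsto_integral_of_dominated_convergence (fun x => ‖eucDiv W x‖)
    · exact fun j => (hint1 _).aestronglyMeasurable
    · exact (integrable_eucDiv hW1 hc).norm
    · intro j
      refine ae_of_all _ (fun x => ?_)
      rw [norm_mul]
      exact mul_le_of_le_one_left (norm_nonneg _) (psi_le _ _)
    · refine ae_of_all _ (fun x => ?_)
      by_cases hx : x ∈ Om
      · rw [indicator_of_mem hx]
        have hx' : fG x < 0 := hx
        obtain ⟨N, hN⟩ := exists_nat_ge (1 / (-fG x))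
        refine tendsto_const_nhds.congr' ?_
        filter_upwards [eventually_ge_atTop N] with j hj
        have h1 : psi ((j : ℝ) + 100) x = 1 := by
          apply st_one
          have h2 : (N : ℝ) ≤ (j : ℝ) := by exact_mod_cast hj
          have h3 : 1 / (-fG x) ≤ (j : ℝ) + 100 := by linarith
          rw [div_le_iff₀ (by linarith)] at h3
          linarith
        rw [h1, one_mul]
      · rw [indicator_of_notMem hx]
        have hx' : 0 ≤ fG x := not_lt.mp hx
        refine tendsto_const_nhds.congr' ?_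
        filter_upwards with j
        have h1 : psi ((j : ℝ) + 100) x = 0 := by
          apply st_zero
          have hj : (0 : ℝ) ≤ (j : ℝ) + 100 := by positivity
          have := mul_nonneg hj hx'
          linarith
        rw [h1, zero_mul]
  rw [integral_indicator measurableSet_Om] at hlim
  exact ge_of_tendsto' hlim hnn

end Pool.Agent.W551.Iso
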