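import Pool.Agent.W551.Iso.CalibA

/-!
# Cutoffs
-/

set_option autoImplicit false

open Set Filter Topology MeasureTheory
open scoped ContDiff ENNReal

namespace Pool.Agent.W551.Iso

/-- cutoff: `1` for `2 / s² ≤ R ≤ s²` and `0` for `R ≤ 1 / s²` and for `R ≥ 2 s²` -/
noncomputable def eta (s : ℝ) (x : E) : ℝ := st (s ^ 2 * fR x - 1) * st (2 - fR x / s ^ 2)

/-- coefficient of the derivative of the cutoff -/
noncomputable def etc (s : ℝ) (x : E) : ℝ :=
  deriv st (s ^ 2 * fR x - 1) * s ^ 2 * st (2 - fR x / s ^ 2) -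
    st (s ^ 2 * fR x - 1) * (deriv st (2 - fR x / s ^ 2) / s ^ 2)

theorem hasFDerivAt_fR (x : E) : HasFDerivAt fR (dU x + dV x) x :=
  (hasFDerivAt_fU x).add (hasFDerivAt_fV x)

theorem hasFDerivAt_eta (s : ℝ) (x : E) :
    HasFDerivAt (eta s) (etc s x • (dU x + dV x)) x := by
  have hst : ∀ t, HasDerivAt st (deriv st t) t := fun t =>
    (contDiff_st.differentiable (by simp) _).hasDerivAt
  have h1 := (hst (s ^ 2 * fR x - 1)).comp_hasFDerivAt x
    (((hasFDerivAt_fR x).const_mul (s ^ 2)).sub_const 1)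
  have h2 := (hst (2 - fR x * (s ^ 2)⁻¹)).comp_hasFDerivAt x
    (((hasFDerivAt_fR x).mul_const (s ^ 2)⁻¹).const_sub 2)
  refine hfd_congr (h1.mul h2) (fun y => ?_) (fun v => ?_)
  · simp only [Pi.mul_apply, Function.comp_apply, eta, div_eq_mul_inv]
  · simp only [etc, add_apply, smul_apply, neg_apply, smul_eq_mul, Function.comp_apply,
      div_eq_mul_inv]
    ring

theorem contDiff_eta (s : ℝ) : ContDiff ℝ ∞ (eta s) := by
  have h1 : ContDiff ℝ ∞ (fun x => s ^ 2 * fR x - 1) :=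
    (contDiff_const.mul contDiff_fR).sub contDiff_const
  have h2 : ContDiff ℝ ∞ (fun x => 2 - fR x / s ^ 2) :=
    contDiff_const.sub (contDiff_fR.div_const _)
  exact (contDiff_st.comp h1).mul (contDiff_st.comp h2)

theorem eta_zero_in {s : ℝ} {x : E} (h : s ^ 2 * fR x ≤ 1) : eta s x = 0 := by
  rw [eta, st_zero (by linarith), zero_mul]

theorem eta_zero_out {s : ℝ} (hs : 0 < s) {x : E} (h : 2 * s ^ 2 ≤ fR x) : eta s x = 0 := by
  have : 2 ≤ fR x / s ^ 2 := by rw [le_div_iff₀ (by positivity)]; exact h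
  rw [eta, st_zero (t := 2 - fR x / s ^ 2) (by linarith), mul_zero]

theorem eta_one {s : ℝ} (hs : 0 < s) {x : E} (h1 : 2 ≤ s ^ 2 * fR x) (h2 : fR x ≤ s ^ 2) :
    eta s x = 1 := by
  have : fR x / s ^ 2 ≤ 1 := by rw [div_le_iff₀ (by positivity)]; linarith
  rw [eta, st_one (by linarith), st_one (by linarith), mul_one]

theorem eta_nonneg (s : ℝ) (x : E) : 0 ≤ eta s x := mul_nonneg (st_nonneg _) (st_nonneg _)
theorem eta_le_one (s : ℝ) (x : E) : eta s x ≤ 1 :=
  mul_le_one₀ (st_le_one _) (st_nonneg _) (st_le_one _)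

theorem eta_near_zero {s : ℝ} : eta s =ᶠ[𝓝 (0 : E)] fun _ => 0 := by
  have h : s ^ 2 * fR (0 : E) < 1 := by rw [fR_zero]; norm_num
  have hc : ContinuousAt (fun x : E => s ^ 2 * fR x) 0 :=
    (continuous_const.mul continuous_fR).continuousAt
  filter_upwards [hc.eventually_lt continuousAt_const h] with y hy
  exact eta_zero_in (le_of_lt hy)

/-! ### The bound of the derivative -/

theorem dUV_apply (x v : E) : (dU x + dV x) v = 2 * (x ⬝ᵥ v) := by
  rw [add_apply, dU_apply, dV_apply, dotProduct, Fintype.sum_sum_type, mul_add, Finset.mul_sum,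
    Finset.mul_sum]
  congr 1 <;> refine Finset.sum_congr rfl (fun i _ => ?_) <;> ring

theorem dot_self (x : E) : x ⬝ᵥ x = fR x := by
  rw [fR_eq_sum, dotProduct]
  exact Finset.sum_congr rfl (fun i _ => by ring)

theorem abs_dot_le (x v : E) : |x ⬝ᵥ v| ≤ fr x * Real.sqrt (v ⬝ᵥ v) := by
  rw [fr, ← Real.sqrt_mul (fR_nonneg x)]
  apply Real.abs_le_sqrt
  rw [← dot_self]
  have := Finset.sum_mul_sq_le_sq_mul_sq Finset.univ x v
  simpa [dotProduct, sq] using this

/-- the error density -/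
noncomputable def er (M s : ℝ) (x : E) : ℝ :=
  s * {x : E | s ^ 2 * fR x ≤ 2}.indicator (fun _ => 1) x +
    75 * {x : E | s ^ 2 ≤ fR x}.indicator (ff M) x

theorem etc_le {M : ℝ} (hM : Good M) {C : ℝ} (hC : 0 < C) (hst : ∀ t, |deriv st t| ≤ C) {s : ℝ}
    (hs : 1 ≤ s) (x : E) : |etc s x| * fr x ≤ 3 / 2 * C * er M s x := by
  have hs0 : 0 < s := by linarith
  have hr := fr_nonneg x
  have hr2 := fr_sq x
  -- first term
  have h1 : |deriv st (s ^ 2 * fR x - 1) * s ^ 2 * st (2 - fR x / s ^ 2)| * fr x ≤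
      3 / 2 * C * (s * {x : E | s ^ 2 * fR x ≤ 2}.indicator (fun _ => 1) x) := by
    by_cases h : s ^ 2 * fR x ≤ 2
    · have hmem : x ∈ {x : E | s ^ 2 * fR x ≤ 2} := h
      rw [indicator_of_mem hmem]
      rw [abs_mul, abs_mul, abs_of_nonneg (st_nonneg _), abs_of_nonneg (sq_nonneg s)]
      have e1 := hst (s ^ 2 * fR x - 1)
      have e2 : s * fr x ≤ 3 / 2 := by
        have : (s * fr x) ^ 2 ≤ 2 := by rw [mul_pow, hr2]; exact h
        have h0 : 0 ≤ s * fr x := by positivity
        nlinarith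
      have e3 : |deriv st (s ^ 2 * fR x - 1)| * s ^ 2 * st (2 - fR x / s ^ 2) ≤ C * s ^ 2 := by
        have : |deriv st (s ^ 2 * fR x - 1)| * s ^ 2 ≤ C * s ^ 2 :=
          mul_le_mul_of_nonneg_right e1 (by positivity)
        have h5 := mul_le_mul this (st_le_one (2 - fR x / s ^ 2)) (st_nonneg _) (by positivity)
        linarith
      calc _ ≤ C * s ^ 2 * fr x := mul_le_mul_of_nonneg_right e3 hr
        _ = C * s * (s * fr x) := by ring
        _ ≤ C * s * (3 / 2) := mul_le_mul_of_nonneg_left e2 (by positivity)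
        _ = _ := by ring
    · have : deriv st (s ^ 2 * fR x - 1) = 0 := deriv_st_right (by linarith)
      rw [this]
      simp only [zero_mul, abs_zero]
      apply mul_nonneg (by positivity)
      exact mul_nonneg hs0.le (indicator_nonneg (fun _ _ => zero_le_one) _)
  -- second term
  have h2 : |st (s ^ 2 * fR x - 1) * (deriv st (2 - fR x / s ^ 2) / s ^ 2)| * fr x ≤
      3 / 2 * C * (75 * {x : E | s ^ 2 ≤ fR x}.indicator (ff M) x) := by
    by_cases h : s ^ 2 ≤ fR x ∧ fR x ≤ 2 * s ^ 2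
    · have hmem : x ∈ {x : E | s ^ 2 ≤ fR x} := h.1
      rw [indicator_of_mem hmem]
      rw [abs_mul, abs_of_nonneg (st_nonneg _), abs_div, abs_of_nonneg (sq_nonneg s)]
      have e1 := hst (2 - fR x / s ^ 2)
      have e2 : fr x ≤ 3 / 2 * s := by
        have h9 : fr x ^ 2 ≤ 2 * s ^ 2 := by rw [hr2]; exact h.2
        nlinarith
      have e3 : st (s ^ 2 * fR x - 1) * (|deriv st (2 - fR x / s ^ 2)| / s ^ 2) ≤ C / s ^ 2 := by
        have h5 : |deriv st (2 - fR x / s ^ 2)| / s ^ 2 ≤ C / s ^ 2 :=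
          div_le_div_of_nonneg_right e1 (by positivity)
        have h6 := mul_le_mul (st_le_one (s ^ 2 * fR x - 1)) h5 (by positivity) zero_le_one
        linarith
      have e4 := ff_lower hM x
      have e5 : 1 / s ≤ 75 * ff M x := by
        have h7 : 1 / (25 * (1 + 3 / 2 * s)) ≤ ff M x := by
          refine le_trans ?_ e4
          apply one_div_le_one_div_of_le (by positivity)
          linarith
        have h8 : 1 / (75 * s) ≤ 1 / (25 * (1 + 3 / 2 * s)) := by
          apply one_div_le_one_div_of_le (by positivity)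
          nlinarith
        have h9 : 1 / s = 75 * (1 / (75 * s)) := by field_simp
        rw [h9]
        linarith
      calc _ ≤ C / s ^ 2 * fr x := mul_le_mul_of_nonneg_right e3 hr
        _ ≤ C / s ^ 2 * (3 / 2 * s) := mul_le_mul_of_nonneg_left e2 (by positivity)
        _ = 3 / 2 * C * (1 / s) := by field_simp
        _ ≤ _ := mul_le_mul_of_nonneg_left e5 (by positivity)
    · have : deriv st (2 - fR x / s ^ 2) = 0 := by
        by_cases h3 : s ^ 2 ≤ fR x
        · have h4 : 2 * s ^ 2 < fR x := by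
            by_contra hc
            exact h ⟨h3, not_lt.mp hc⟩
          apply deriv_st_left
          have : 2 < fR x / s ^ 2 := by rw [lt_div_iff₀ (by positivity)]; exact h4
          linarith
        · apply deriv_st_right
          have : fR x / s ^ 2 < 1 := by rw [div_lt_iff₀ (by positivity)]; linarith
          linarith
      rw [this]
      simp only [zero_div, mul_zero, abs_zero, zero_mul]
      apply mul_nonneg (by positivity)
      exact mul_nonneg (by norm_num) (indicator_nonneg (fun x _ => (ff_pos hM x).le) _)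
  have h3 : |etc s x| ≤ |deriv st (s ^ 2 * fR x - 1) * s ^ 2 * st (2 - fR x / s ^ 2)| +
      |st (s ^ 2 * fR x - 1) * (deriv st (2 - fR x / s ^ 2) / s ^ 2)| := abs_sub _ _
  have h4 := mul_le_mul_of_nonneg_right h3 hr
  rw [er]
  linarith

theorem exists_eta_bound {M : ℝ} (hM : Good M) : ∃ C : ℝ, 0 < C ∧ ∀ s : ℝ, 1 ≤ s → ∀ x v : E,
    |fderiv ℝ (eta s) x v| ≤ C * er M s x * Real.sqrt (v ⬝ᵥ v) := by
  obtain ⟨C, hC, hst⟩ := exists_bound_deriv_st
  refine ⟨3 * C, by positivity, fun s hs x v => ?_⟩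
  rw [(hasFDerivAt_eta s x).fderiv, smul_apply, dUV_apply, smul_eq_mul, abs_mul, abs_mul, abs_two]
  have h1 := abs_dot_le x v
  have h2 := etc_le hM hC hst hs x
  have h3 := Real.sqrt_nonneg (v ⬝ᵥ v)
  calc |etc s x| * (2 * |x ⬝ᵥ v|) ≤ |etc s x| * (2 * (fr x * Real.sqrt (v ⬝ᵥ v))) := by gcongr
    _ = 2 * (|etc s x| * fr x) * Real.sqrt (v ⬝ᵥ v) := by ring
    _ ≤ 2 * (3 / 2 * C * er M s x) * Real.sqrt (v ⬝ᵥ v) := by gcongr
    _ = _ := by ring

end Pool.Agent.W551.Iso
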