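import Pool.Agent.W551.Iso.CalibB

/-!
# Limits
-/

set_option autoImplicit false

open Set Filter Topology MeasureTheory
open scoped ContDiff ENNReal

namespace Pool.Agent.W551.Iso

theorem isClosed_B (s : ℝ) : IsClosed {x : E | s ^ 2 * fR x ≤ 2} :=
  isClosed_le (continuous_const.mul continuous_fR) continuous_const

theorem isClosed_F (s : ℝ) : IsClosed {x : E | s ^ 2 ≤ fR x} :=
  isClosed_le continuous_const continuous_fR

theorem B_subset {s : ℝ} (hs : 0 < s) :
    {x : E | s ^ 2 * fR x ≤ 2} ⊆ Metric.closedBall 0 (3 / 2 / s) := by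
  intro x hx
  have hx' : s ^ 2 * fR x ≤ 2 := hx
  rw [mem_closedBall_zero_iff]
  refine (norm_le_fr x).trans ?_
  have hr := fr_nonneg x
  have e2 : s * fr x ≤ 3 / 2 := by
    have : (s * fr x) ^ 2 ≤ 2 := by rw [mul_pow, fr_sq]; exact hx'
    have h0 : 0 ≤ s * fr x := by positivity
    nlinarith
  rw [le_div_iff₀ hs]
  linarith

theorem volume_B_le {s : ℝ} (hs : 0 < s) :
    volume {x : E | s ^ 2 * fR x ≤ 2} ≤ ENNReal.ofReal ((3 / s) ^ 10) := by
  refine (measure_mono (B_subset hs)).trans ?_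
  rw [Real.volume_pi_closedBall 0 (by positivity)]
  apply ENNReal.ofReal_le_ofReal
  have : Fintype.card I = 10 := by simp
  rw [this]
  have : 2 * (3 / 2 / s) = 3 / s := by ring
  rw [this]

theorem integrable_indB {s : ℝ} (hs : 0 < s) :
    Integrable ({x : E | s ^ 2 * fR x ≤ 2}.indicator (fun _ => (1 : ℝ))) := by
  rw [integrable_indicator_iff (isClosed_B s).measurableSet]
  exact integrableOn_const (ne_top_of_le_ne_top ENNReal.ofReal_ne_top (volume_B_le hs))

theorem integral_indB_le {s : ℝ} (hs : 0 < s) (A : Set E) :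
    ∫ x in A, {x : E | s ^ 2 * fR x ≤ 2}.indicator (fun _ => (1 : ℝ)) x ≤ (3 / s) ^ 10 := by
  have h1 : ∫ x in A, {x : E | s ^ 2 * fR x ≤ 2}.indicator (fun _ => (1 : ℝ)) x ≤
      ∫ x, {x : E | s ^ 2 * fR x ≤ 2}.indicator (fun _ => (1 : ℝ)) x :=
    setIntegral_le_integral (integrable_indB hs)
      (ae_of_all _ (fun x => indicator_nonneg (fun _ _ => zero_le_one) _))
  refine h1.trans ?_
  rw [integral_indicator (isClosed_B s).measurableSet, setIntegral_const, smul_eq_mul, mul_one]
  rw [Measure.real]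
  exact ENNReal.toReal_le_of_le_ofReal (by positivity) (volume_B_le hs)

theorem integrableOn_er {M : ℝ} {A : Set E} (hf : IntegrableOn (ff M) A)
    {s : ℝ} (hs : 0 < s) : IntegrableOn (er M s) A := by
  unfold er
  exact ((integrable_indB hs).integrableOn.const_mul s).add
    ((hf.indicator (isClosed_F s).measurableSet).const_mul 75)

theorem er_nonneg {M : ℝ} (hM : Good M) {s : ℝ} (hs : 0 < s) (x : E) : 0 ≤ er M s x := by
  unfold er
  apply add_nonneg
  · exact mul_nonneg hs.le (indicator_nonneg (fun _ _ => zero_le_one) _)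
  · exact mul_nonneg (by norm_num) (indicator_nonneg (fun x _ => (ff_pos hM x).le) _)

theorem tendsto_er {M : ℝ} (hM : Good M) {A : Set E} (hf : IntegrableOn (ff M) A) :
    Tendsto (fun k : ℕ => ∫ x in A, er M ((k : ℝ) + 1) x) atTop (𝓝 0) := by
  have hs : ∀ k : ℕ, (0 : ℝ) < (k : ℝ) + 1 := fun k => by positivity
  have hs1 : ∀ k : ℕ, (1 : ℝ) ≤ (k : ℝ) + 1 := fun k => by
    have : (0 : ℝ) ≤ (k : ℝ) := Nat.cast_nonneg k
    linarith
  have h1 : Tendsto (fun k : ℕ => ∫ x in A, ((k : ℝ) + 1) *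
      {x : E | ((k : ℝ) + 1) ^ 2 * fR x ≤ 2}.indicator (fun _ => (1 : ℝ)) x) atTop (𝓝 0) := by
    have hub : Tendsto (fun k : ℕ => 3 ^ 10 * (1 / ((k : ℝ) + 1))) atTop (𝓝 0) := by
      have := (tendsto_one_div_add_atTop_nhds_zero_nat (𝕜 := ℝ)).const_mul (3 ^ 10)
      simpa using this
    refine tendsto_of_tendsto_of_tendsto_of_le_of_le tendsto_const_nhds hub (fun k => ?_)
      (fun k => ?_)
    · apply integral_nonneg
      intro x
      exact mul_nonneg (hs k).le (indicator_nonneg (fun _ _ => zero_le_one) _)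
    · simp only
      rw [integral_const_mul]
      have h2 := mul_le_mul_of_nonneg_left (integral_indB_le (hs k) A) (hs k).le
      refine h2.trans ?_
      rw [div_pow]
      have h3 : ((k : ℝ) + 1) * (3 ^ 10 / ((k : ℝ) + 1) ^ 10) =
        3 ^ 10 * (1 / ((k : ℝ) + 1) ^ 9) := by
        have := (hs k).ne'
        field_simp
      rw [h3]
      apply mul_le_mul_of_nonneg_left _ (by norm_num)
      apply one_div_le_one_div_of_le (hs k)
      exact le_self_pow₀ (hs1 k) (by norm_num)
  have h2 : Tendsto (fun k : ℕ => ∫ x in A, 75 *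
      {x : E | ((k : ℝ) + 1) ^ 2 ≤ fR x}.indicator (ff M) x) atTop (𝓝 0) := by
    have h0 : (0 : ℝ) = ∫ _ in A, (0 : ℝ) := by simp
    rw [h0]
    apply tendsto_integral_of_dominated_convergence (fun x => 75 * ff M x)
    · exact fun k => ((hf.indicator (isClosed_F _).measurableSet).const_mul 75).aestronglyMeasurable
    · exact hf.const_mul 75
    · intro k
      refine ae_of_all _ (fun x => ?_)
      rw [norm_mul, Real.norm_eq_abs, Real.norm_eq_abs, abs_of_nonneg (by norm_num : (0:ℝ) ≤ 75)]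
      apply mul_le_mul_of_nonneg_left _ (by norm_num)
      rw [abs_of_nonneg (indicator_nonneg (fun x _ => (ff_pos hM x).le) _)]
      exact indicator_le_self' (fun _ _ => (ff_pos hM _).le) _
    · refine ae_of_all _ (fun x => ?_)
      obtain ⟨N, hN⟩ := exists_nat_ge (fR x)
      refine tendsto_const_nhds.congr' ?_
      filter_upwards [eventually_ge_atTop N] with j hj
      have h2 : (N : ℝ) ≤ (j : ℝ) := by exact_mod_cast hj
      have h3 : x ∉ {x : E | ((j : ℝ) + 1) ^ 2 ≤ fR x} := by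
        intro h4
        have h4' : ((j : ℝ) + 1) ^ 2 ≤ fR x := h4
        have h5 := hs1 j
        nlinarith
      rw [indicator_of_notMem h3, mul_zero]
  have h3 := h1.add h2
  rw [add_zero] at h3
  refine h3.congr (fun k => ?_)
  unfold er
  rw [integral_add]
  · exact (integrable_indB (hs k)).integrableOn.const_mul _
  · exact (hf.indicator (isClosed_F _).measurableSet).const_mul 75

theorem ae_fR_pos (A : Set E) : ∀ᵐ x ∂(volume.restrict A), 0 < fR x := by
  have h : ∀ᵐ x : E, x ≠ 0 := by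
    rw [ae_iff]
    simp
  have h2 := ae_restrict_of_ae (s := A) h
  filter_upwards [h2] with x hx
  exact fR_pos_iff.mpr hx

theorem eta_eventually_one {x : E} (hx : 0 < fR x) :
    ∀ᶠ k : ℕ in atTop, eta ((k : ℝ) + 1) x = 1 := by
  obtain ⟨N, hN⟩ := exists_nat_ge (fR x)
  obtain ⟨N', hN'⟩ := exists_nat_ge (2 / fR x)
  filter_upwards [eventually_ge_atTop N, eventually_ge_atTop N'] with j hj hj'
  have h2 : (N : ℝ) ≤ (j : ℝ) := by exact_mod_cast hj
  have h3 : (N' : ℝ) ≤ (j : ℝ) := by exact_mod_cast hj'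
  have hs : (0 : ℝ) < (j : ℝ) + 1 := by positivity
  have h4 : (j : ℝ) + 1 ≤ ((j : ℝ) + 1) ^ 2 := by
    have : (0 : ℝ) ≤ (j : ℝ) := Nat.cast_nonneg j
    nlinarith
  apply eta_one hs
  · rw [div_le_iff₀ hx] at hN'
    have : (N' : ℝ) * fR x ≤ ((j : ℝ) + 1) ^ 2 * fR x :=
      mul_le_mul_of_nonneg_right (by linarith) hx.le
    linarith
  · linarith

theorem tendsto_eta_int {A : Set E} {h : E → ℝ} (hh : IntegrableOn h A) :
    Tendsto (fun k : ℕ => ∫ x in A, eta ((k : ℝ) + 1) x * h x) atTop (𝓝 (∫ x in A, h x)) := by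
  apply tendsto_integral_of_dominated_convergence (fun x => ‖h x‖)
  · exact fun k => (contDiff_eta _).continuous.aestronglyMeasurable.mul hh.aestronglyMeasurable
  · exact hh.norm
  · intro k
    refine ae_of_all _ (fun x => ?_)
    rw [norm_mul]
    apply mul_le_of_le_one_left (norm_nonneg _)
    rw [Real.norm_eq_abs, abs_of_nonneg (eta_nonneg _ _)]
    exact eta_le_one _ _
  · filter_upwards [ae_fR_pos A] with x hx
    refine tendsto_const_nhds.congr' ?_
    filter_upwards [eta_eventually_one hx] with k hk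
    rw [hk, one_mul]

end Pool.Agent.W551.Iso
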