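import Pool.Agent.W551.Iso.CalibC

/-!
# The main comparison
-/

set_option autoImplicit false

open Set Filter Topology MeasureTheory
open scoped ContDiff ENNReal

namespace Pool.Agent.W551.Iso

/-! ### The field `X` -/

theorem fX_dot_aux (x : E) : fX x ⬝ᵥ fX x = cA x ^ 2 * fU x + cB x ^ 2 * fV x := by
  rw [dotProduct, Fintype.sum_sum_type, fU, fV, Finset.mul_sum, Finset.mul_sum]
  congr 1 <;> refine Finset.sum_congr rfl (fun i _ => ?_)
  · rw [fX, fld_inl]; ring
  · rw [fX, fld_inr]; ring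

theorem fX_dot {x : E} (hx : 0 < fR x) (hP : 0 < fP x) : fX x ⬝ᵥ fX x = 1 := by
  have hQ : 0 < fQ x := mul_pos hx hP
  have h := fQ_eq x
  rw [fX_dot_aux, cA, cB, div_pow, div_pow, Real.sq_sqrt hQ.le]
  field_simp
  linarith

theorem fX_dot_le (x : E) : fX x ⬝ᵥ fX x ≤ 1 := by
  have hQ0 : 0 ≤ fQ x := mul_nonneg (fR_nonneg x) (fP_nonneg x)
  rcases hQ0.eq_or_lt with h | h
  · rw [fX_dot_aux, cA, cB, ← h]; simp
  · have h2 := fQ_eq x
    rw [fX_dot_aux, cA, cB, div_pow, div_pow, Real.sq_sqrt h.le]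
    apply le_of_eq
    field_simp
    linarith

theorem dot_nonneg (v : E) : 0 ≤ v ⬝ᵥ v := Finset.sum_nonneg (fun _ _ => mul_self_nonneg _)

theorem smul_dot_self (a : ℝ) (v : E) : (a • v) ⬝ᵥ (a • v) = a ^ 2 * (v ⬝ᵥ v) := by
  rw [smul_dotProduct, dotProduct_smul, smul_eq_mul, smul_eq_mul]; ring

theorem fY_dot_le (x : E) : fY x ⬝ᵥ fY x ≤ 1 := by
  rw [fY, smul_dot_self]
  have h1 : ze (fG x) ^ 2 ≤ 1 := pow_le_one₀ (ze_mem _).1 (ze_mem _).2
  exact mul_le_one₀ h1 (dot_nonneg _) (fX_dot_le x)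

theorem fderiv_fG_eq {x : E} (hx : 0 < fR x) (hP : 0 < fP x) (v : E) :
    fderiv ℝ fG x v = Real.sqrt (fQ x) * (fX x ⬝ᵥ v) := by
  have hQ : 0 < fQ x := mul_pos hx hP
  have hs := Real.sqrt_pos.mpr hQ
  rw [(hasFDerivAt_fG hx).fderiv]
  simp only [add_apply, smul_apply, smul_eq_mul, dU_apply, dV_apply]
  rw [dotProduct, Fintype.sum_sum_type, mul_add, Finset.mul_sum, Finset.mul_sum, Finset.mul_sum,
    Finset.mul_sum]
  congr 1 <;> refine Finset.sum_congr rfl (fun i _ => ?_)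
  · rw [fX, fld_inl, cA]; field_simp
  · rw [fX, fld_inr, cB]; field_simp

theorem inn_fX {M : ℝ} (hM : Good M) (x w : E) :
    inn (gg M) x (fX x) w = ff M x ^ 2 * (fX x ⬝ᵥ w) := inn_fld hM cA cB x w

theorem fderiv_fG_test {M : ℝ} (hM : Good M) {X : E → E} (hX : IsTestField (gg M) X) {x : E}
    (hx : 0 < fR x) (hP : 0 < fP x) : fderiv ℝ fG x (ff M x • X x) ≤ Real.sqrt (fQ x) := by
  have hf := ff_pos hM x
  rw [fderiv_fG_eq hx hP, dotProduct_smul, smul_eq_mul]
  have h1 := inn_sq_le (isMetric_gg hM) x (fX x) (X x)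
  rw [inn_fX hM, inn_fX hM, fX_dot hx hP] at h1
  have h2 := hX.norm_le x
  have h3 : (ff M x ^ 2 * (fX x ⬝ᵥ X x)) ^ 2 ≤ ff M x ^ 2 * 1 :=
    h1.trans (by
      rw [mul_one]
      calc ff M x ^ 2 * inn (gg M) x (X x) (X x) ≤ ff M x ^ 2 * 1 := by gcongr
        _ = _ := mul_one _)
  have h4 : (ff M x * (fX x ⬝ᵥ X x)) ^ 2 ≤ 1 := by
    have h5 : (ff M x ^ 2 * (fX x ⬝ᵥ X x)) ^ 2 = ff M x ^ 2 * (ff M x * (fX x ⬝ᵥ X x)) ^ 2 := by
      ring
    rw [h5] at h3
    exact le_of_mul_le_mul_left h3 (by positivity)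
  have h6 : ff M x * (fX x ⬝ᵥ X x) ≤ 1 := by nlinarith
  calc Real.sqrt (fQ x) * (ff M x * (fX x ⬝ᵥ X x)) ≤ Real.sqrt (fQ x) * 1 := by gcongr
    _ = _ := mul_one _

/-! ### Cut off fields -/

theorem isCompact_fR_le (c : ℝ) : IsCompact {x : E | fR x ≤ c} := by
  apply (isCompact_closedBall (0 : E) (Real.sqrt c)).of_isClosed_subset
    (isClosed_le continuous_fR continuous_const)
  intro x hx
  rw [mem_closedBall_zero_iff]
  exact (norm_le_fr x).trans (Real.sqrt_le_sqrt hx)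

theorem hcs_eta {s : ℝ} (hs : 0 < s) : HasCompactSupport (eta s) := by
  apply HasCompactSupport.of_support_subset_isCompact (isCompact_fR_le (2 * s ^ 2))
  intro x hx
  by_contra hc
  exact hx (eta_zero_out hs (not_le.mp hc).le)

theorem hcs_eta_smul {s : ℝ} (hs : 0 < s) (W : E → E) :
    HasCompactSupport (fun x => eta s x • W x) := by
  apply HasCompactSupport.mono (hcs_eta hs)
  intro x hx h
  apply hx
  show eta s x • W x = 0
  rw [show eta s x = 0 from h, zero_smul]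

theorem eta_smul_near_zero (s : ℝ) (W : E → E) :
    (fun x => eta s x • W x) =ᶠ[𝓝 (0 : E)] fun _ => 0 := by
  filter_upwards [eta_near_zero (s := s)] with y hy
  rw [hy, zero_smul]

theorem contDiff_eta_smul (s : ℝ) {W : E → E} (hW : ∀ x, 0 < fR x → ContDiffAt ℝ ∞ W x) :
    ContDiff ℝ ∞ (fun x => eta s x • W x) := by
  rw [contDiff_iff_contDiffAt]
  intro x
  rcases eq_or_ne x 0 with rfl | hx
  · exact contDiffAt_const.congr_of_eventuallyEq (eta_smul_near_zero s W)
  · exact (contDiff_eta s).contDiffAt.smul (hW x (fR_pos_iff.mpr hx))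

theorem zero_notMem_tsupport (s : ℝ) (W : E → E) :
    (0 : E) ∉ tsupport (fun x => eta s x • W x) :=
  notMem_tsupport_iff_eventuallyEq.mpr (eta_smul_near_zero s W)

/-- divergence of the cut off field -/
theorem eucDiv_etaY (s : ℝ) (x : E) : eucDiv (fun x => eta s x • fY x) x =
    eta s x * fPhi x + fderiv ℝ (eta s) x (fY x) := by
  rcases eq_or_ne x 0 with rfl | hx
  · rw [eucDiv_congr (eta_smul_near_zero s fY), eucDiv_zero, eta_near_zero.fderiv_eq,
      eta_near_zero.eq_of_nhds]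
    simp
  · have hx' := fR_pos_iff.mpr hx
    rw [eucDiv_smul ((contDiff_eta s).differentiable (by simp) x)
      ((contDiffAt_fY hx').differentiableAt (by simp)), eucDiv_fY hx']

theorem continuous_deta {s : ℝ} {W : E → E} (hW : ∀ x, 0 < fR x → ContinuousAt W x) :
    Continuous (fun x => fderiv ℝ (eta s) x (W x)) := by
  rw [continuous_iff_continuousAt]
  intro x
  rcases eq_or_ne x 0 with rfl | hx
  · have h1 : (fun x => fderiv ℝ (eta s) x (W x)) =ᶠ[𝓝 (0 : E)] fun _ => 0 := by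
      filter_upwards [(eta_near_zero (s := s)).eventuallyEq_nhds] with y hy
      rw [hy.fderiv_eq]; simp
    exact continuousAt_const.congr h1.symm
  · exact ((contDiff_eta s).continuous_fderiv (by simp)).continuousAt.clm_apply
      (hW x (fR_pos_iff.mpr hx))

theorem integrable_deta {s : ℝ} (hs : 0 < s) {W : E → E} (hW : ∀ x, 0 < fR x → ContinuousAt W x) :
    Integrable (fun x => fderiv ℝ (eta s) x (W x)) := by
  apply (continuous_deta hW).integrable_of_hasCompactSupport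
  apply HasCompactSupport.of_support_subset_isCompact (hcs_eta hs)
  intro x hx
  by_contra hn
  apply hx
  have : eta s =ᶠ[𝓝 x] fun _ => 0 := notMem_tsupport_iff_eventuallyEq.mp hn
  show fderiv ℝ (eta s) x (W x) = 0
  rw [this.fderiv_eq]; simp

/-! ### The pointwise inequality -/

theorem eta_mul_le_of_mem {M : ℝ} (hM : Good M) (s : ℝ) {x : E} (hx : x ∈ Om) :
    eta s x * fPhi x - 52 / 5 * (eta s x * ff M x) ≤ 0 := by
  rcases eq_or_ne x 0 with rfl | h0
  · rw [eta_near_zero.eq_of_nhds]; simp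
  · have h := ff_inside hM (fR_pos_iff.mpr h0) (le_of_lt hx)
    have h1 := mul_le_mul_of_nonneg_left h (eta_nonneg s x)
    linarith

theorem eta_mul_ge_of_notMem {M : ℝ} (s : ℝ) {x : E} (hx : x ∉ Om) :
    0 ≤ eta s x * fPhi x - 52 / 5 * (eta s x * ff M x) := by
  rcases eq_or_ne x 0 with rfl | h0
  · rw [eta_near_zero.eq_of_nhds]; simp
  · have hG : 0 ≤ fG x := not_lt.mp hx
    have h := ff_outside (M := M) (fR_pos_iff.mpr h0) hG
    rw [← fPhi_eq (by linarith)] at h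
    have h1 := mul_le_mul_of_nonneg_left h (eta_nonneg s x)
    linarith

end Pool.Agent.W551.Iso
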