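import Pool.Agent.W551.Iso.CalibD

/-!
# The main comparison
-/

set_option autoImplicit false

open Set Filter Topology MeasureTheory
open scoped ContDiff ENNReal

namespace Pool.Agent.W551.Iso

/-- test fields cut off from `Y` -/
theorem isTestField_etaY {M : ℝ} (hM : Good M) {s : ℝ} (hs : 0 < s) :
    IsTestField (gg M) (fun x => (ff M x)⁻¹ • (eta s x • fY x)) := by
  constructor
  · exact ContDiff.smul ((contDiff_ff M).inv (fun x => (ff_pos hM x).ne'))
      (contDiff_eta_smul s (fun x hx => contDiffAt_fY hx))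
  · exact hcs_smul _ (hcs_eta_smul hs _)
  · intro x
    have hf := ff_pos hM x
    have h1 : (ff M x)⁻¹ • (eta s x • fY x) = ((ff M x)⁻¹ * (eta s x * ze (fG x))) • fX x := by
      rw [fY, smul_smul, smul_smul, mul_assoc]
    have h2 : ∀ (a : ℝ) (v : E), inn (gg M) x (a • v) (a • v) = a ^ 2 * inn (gg M) x v v := by
      intro a v
      rw [inn, inn, Matrix.mulVec_smul, smul_dotProduct, dotProduct_smul, smul_eq_mul, smul_eq_mul]
      ring
    rw [h1, h2, inn_fX hM]
    have h3 := fX_dot_le x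
    have h4 := dot_nonneg (fX x)
    have h5 : (eta s x * ze (fG x)) ^ 2 ≤ 1 :=
      pow_le_one₀ (mul_nonneg (eta_nonneg _ _) (ze_mem _).1)
        (mul_le_one₀ (eta_le_one _ _) (ze_mem _).1 (ze_mem _).2)
    have h6 : ((ff M x)⁻¹ * (eta s x * ze (fG x))) ^ 2 * (ff M x ^ 2 * (fX x ⬝ᵥ fX x)) =
        (eta s x * ze (fG x)) ^ 2 * (fX x ⬝ᵥ fX x) := by
      field_simp
    rw [h6]
    exact mul_le_one₀ h5 h4 h3

theorem contDiff_Z {M : ℝ} {X : E → E} (hX : IsTestField (gg M) X) :
    ContDiff ℝ ∞ (fun y => ff M y • X y) := (contDiff_ff M).smul hX.smooth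

/-- flux of a cut off test field is at most the flux of `η Y` -/
theorem flux_le {M : ℝ} (hM : Good M) {X : E → E} (hX : IsTestField (gg M) X) {s : ℝ}
    (hs : 0 < s) :
    ∫ x in Om, eucDiv (fun x => eta s x • (ff M x • X x)) x ≤
      ∫ x in Om, eucDiv (fun x => eta s x • fY x) x := by
  have hZ := contDiff_Z hX
  have hY1 := contDiff_eta_smul s (W := fY) (fun x hx => contDiffAt_fY hx)
  have hZ1 := contDiff_eta_smul s (W := fun y => ff M y • X y) (fun x _ => hZ.contDiffAt)
  have hW := int_Om_nonneg (W := fun x => eta s x • (fY x - ff M x • X x))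
    (contDiff_eta_smul s (fun x hx => (contDiffAt_fY hx).sub hZ.contDiffAt))
    (hcs_eta_smul hs _) (zero_notMem_tsupport s _) (by
      intro x hx h1 h2
      have hP := fP_pos hx (by linarith : -(1 / 20) < fG x)
      have h3 := fderiv_fG_test hM hX hx hP
      have h4 : fY x = fX x := by rw [fY, ze_one h1, one_smul]
      rw [map_smul, map_sub, h4, fderiv_fG_fX hx hP, smul_eq_mul]
      exact mul_nonneg (eta_nonneg _ _) (by linarith))
  have hdiv : ∀ x, eucDiv (fun x => eta s x • (fY x - ff M x • X x)) x =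
      eucDiv (fun x => eta s x • fY x) x - eucDiv (fun x => eta s x • (ff M x • X x)) x := by
    intro x
    rw [← eucDiv_sub (hY1.differentiable (by simp) x) (hZ1.differentiable (by simp) x)]
    congr 1
    funext y
    rw [smul_sub]
  have hi1 : Integrable (eucDiv (fun x => eta s x • fY x)) :=
    integrable_eucDiv (hY1.of_le (by simp)) (hcs_eta_smul hs _)
  have hi2 : Integrable (eucDiv (fun x => eta s x • (ff M x • X x))) :=
    integrable_eucDiv (hZ1.of_le (by simp)) (hcs_eta_smul hs _)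
  have h5 : ∫ x in Om, eucDiv (fun x => eta s x • (fY x - ff M x • X x)) x =
      (∫ x in Om, eucDiv (fun x => eta s x • fY x) x) -
        ∫ x in Om, eucDiv (fun x => eta s x • (ff M x • X x)) x := by
    rw [← integral_sub hi1.integrableOn hi2.integrableOn]
    exact integral_congr_ae (ae_of_all _ hdiv)
  rw [h5] at hW
  linarith

/-- the bulk comparison -/
theorem bulk_le {M : ℝ} (hM : Good M) {s : ℝ} (hs : 0 < s) {A : Set E} (hA : MeasurableSet A) :
    ∫ x in Om, eucDiv (fun x => eta s x • fY x) x ≤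
      (∫ x in A, eucDiv (fun x => eta s x • fY x) x)
      + 52 / 5 * ((∫ x in Om, eta s x * ff M x) - ∫ x in A, eta s x * ff M x)
      + (∫ x in Om, fderiv ℝ (eta s) x (fY x)) - ∫ x in A, fderiv ℝ (eta s) x (fY x) := by
  have hY1 := contDiff_eta_smul s (W := fY) (fun x hx => contDiffAt_fY hx)
  have i1 : Integrable (eucDiv (fun x => eta s x • fY x)) :=
    integrable_eucDiv (hY1.of_le (by simp)) (hcs_eta_smul hs _)
  have i2 : Integrable (fun x => fderiv ℝ (eta s) x (fY x)) :=
    integrable_deta hs (fun x hx => (contDiffAt_fY hx).continuousAt)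
  have i3 : Integrable (fun x => eta s x * ff M x) :=
    ((contDiff_eta s).continuous.mul (contDiff_ff M).continuous).integrable_of_hasCompactSupport
      (hcs_eta hs).mul_right
  have i12 : Integrable (fun x => eucDiv (fun x => eta s x • fY x) x -
      fderiv ℝ (eta s) x (fY x)) := i1.sub i2
  have i4 : Integrable (fun x => eucDiv (fun x => eta s x • fY x) x -
      fderiv ℝ (eta s) x (fY x) - 52 / 5 * (eta s x * ff M x)) :=
    i12.sub (i3.const_mul _)
  have hle : Om.indicator (fun x => eucDiv (fun x => eta s x • fY x) x -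
      fderiv ℝ (eta s) x (fY x) - 52 / 5 * (eta s x * ff M x)) ≤ A.indicator (fun x =>
      eucDiv (fun x => eta s x • fY x) x -
      fderiv ℝ (eta s) x (fY x) - 52 / 5 * (eta s x * ff M x)) := by
    intro x
    have e1 : eucDiv (fun x => eta s x • fY x) x - fderiv ℝ (eta s) x (fY x) -
        52 / 5 * (eta s x * ff M x) = eta s x * fPhi x - 52 / 5 * (eta s x * ff M x) := by
      rw [eucDiv_etaY]; ring
    by_cases hO : x ∈ Om <;> by_cases hxA : x ∈ A
    · rw [indicator_of_mem hO, indicator_of_mem hxA]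
    · rw [indicator_of_mem hO, indicator_of_notMem hxA, e1]
      exact eta_mul_le_of_mem hM s hO
    · rw [indicator_of_notMem hO, indicator_of_mem hxA, e1]
      exact eta_mul_ge_of_notMem s hO
    · rw [indicator_of_notMem hO, indicator_of_notMem hxA]
  have h1 := integral_mono (i4.indicator measurableSet_Om) (i4.indicator hA) hle
  rw [integral_indicator measurableSet_Om, integral_indicator hA] at h1
  have key : ∀ B : Set E, ∫ x in B, (eucDiv (fun x => eta s x • fY x) x -
      fderiv ℝ (eta s) x (fY x) - 52 / 5 * (eta s x * ff M x)) =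
      (∫ x in B, eucDiv (fun x => eta s x • fY x) x) - (∫ x in B, fderiv ℝ (eta s) x (fY x)) -
      52 / 5 * ∫ x in B, eta s x * ff M x := by
    intro B
    rw [integral_sub i12.integrableOn (i3.integrableOn.const_mul _),
      integral_sub i1.integrableOn i2.integrableOn, integral_const_mul]
  rw [key, key] at h1
  linarith

theorem abs_int_deta_le {M : ℝ} {C : ℝ}
    (hC : ∀ s : ℝ, 1 ≤ s → ∀ x v : E,
      |fderiv ℝ (eta s) x v| ≤ C * er M s x * Real.sqrt (v ⬝ᵥ v)) (hM : Good M) (hC0 : 0 < C)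
    {s : ℝ} (hs : 1 ≤ s) {W : E → E} {K : ℝ} (hK : ∀ x, Real.sqrt (W x ⬝ᵥ W x) ≤ K)
    {A : Set E} (hf : IntegrableOn (ff M) A) :
    |∫ x in A, fderiv ℝ (eta s) x (W x)| ≤ C * K * ∫ x in A, er M s x := by
  have hs0 : 0 < s := by linarith
  rw [← integral_const_mul, ← Real.norm_eq_abs]
  apply norm_integral_le_of_norm_le ((integrableOn_er hf hs0).const_mul _)
  refine ae_of_all _ (fun x => ?_)
  rw [Real.norm_eq_abs]
  have h1 := hC s hs x (W x)
  have h2 := er_nonneg hM hs0 x
  calc _ ≤ C * er M s x * Real.sqrt (W x ⬝ᵥ W x) := h1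
    _ ≤ C * er M s x * K := by gcongr; exact hK x
    _ = _ := by ring

theorem exists_bound_Z {M : ℝ} {X : E → E} (hX : IsTestField (gg M) X) :
    ∃ K : ℝ, 0 ≤ K ∧ ∀ x, Real.sqrt ((ff M x • X x) ⬝ᵥ (ff M x • X x)) ≤ K := by
  have hc : HasCompactSupport (fun y => ff M y • X y) := hcs_smul _ hX.compact
  have hcont : Continuous (fun x => Real.sqrt ((ff M x • X x) ⬝ᵥ (ff M x • X x))) := by
    have h1 := (contDiff_Z hX).continuous
    exact (h1.dotProduct h1).sqrt
  have hcs : HasCompactSupport (fun x => Real.sqrt ((ff M x • X x) ⬝ᵥ (ff M x • X x))) := by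
    apply hc.comp_left (g := fun v : E => Real.sqrt (v ⬝ᵥ v))
    simp
  obtain ⟨K, hK⟩ := hcont.bounded_above_of_compact_support hcs
  refine ⟨max K 0, le_max_right _ _, fun x => ?_⟩
  have := hK x
  rw [Real.norm_eq_abs, abs_of_nonneg (Real.sqrt_nonneg _)] at this
  exact this.trans (le_max_left _ _)

/-- the main inequality -/
theorem main_ineq {M : ℝ} (hM : Good M) {X : E → E} (hX : IsTestField (gg M) X) {A : Set E}
    (hA : MeasurableSet A) (hf : IntegrableOn (ff M) A) (hfO : IntegrableOn (ff M) Om)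
    {ε : ℝ} (hε : 0 < ε) :
    ∃ X', IsTestField (gg M) X' ∧
      ∫ x in Om, eucDiv (fun y => ff M y • X y) x ≤
        (∫ x in A, eucDiv (fun y => ff M y • X' y) x)
        + 52 / 5 * ((∫ x in Om, ff M x) - ∫ x in A, ff M x) + ε := by
  obtain ⟨C, hC0, hC⟩ := exists_eta_bound hM
  obtain ⟨K, hK0, hK⟩ := exists_bound_Z hX
  have hZ := contDiff_Z hX
  have hcZ : HasCompactSupport (fun y => ff M y • X y) := hcs_smul _ hX.compact
  have hKY : ∀ x, Real.sqrt (fY x ⬝ᵥ fY x) ≤ 1 := fun x => by
    rw [Real.sqrt_le_one]; exact fY_dot_le x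
  have iZ : Integrable (eucDiv (fun y => ff M y • X y)) :=
    integrable_eucDiv (hZ.of_le (by simp)) hcZ
  -- the inequality for every cutoff
  have hstep : ∀ k : ℕ, ∫ x in Om, eta ((k : ℝ) + 1) x * eucDiv (fun y => ff M y • X y) x ≤
      (∫ x in A, eucDiv (fun x => eta ((k : ℝ) + 1) x • fY x) x)
      + 52 / 5 * ((∫ x in Om, eta ((k : ℝ) + 1) x * ff M x) -
          ∫ x in A, eta ((k : ℝ) + 1) x * ff M x)
      + (C * 1 * (∫ x in Om, er M ((k : ℝ) + 1) x) + C * 1 * (∫ x in A, er M ((k : ℝ) + 1) x)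
        + C * K * ∫ x in Om, er M ((k : ℝ) + 1) x) := by
    intro k
    have hs : (0 : ℝ) < (k : ℝ) + 1 := by positivity
    have hs1 : (1 : ℝ) ≤ (k : ℝ) + 1 := by
      have : (0 : ℝ) ≤ (k : ℝ) := Nat.cast_nonneg k
      linarith
    set s := (k : ℝ) + 1 with hsdef
    have b1 := abs_int_deta_le hC hM hC0 hs1 hKY hfO
    have b2 := abs_int_deta_le hC hM hC0 hs1 hKY hf
    have b3 := abs_int_deta_le (W := fun y => ff M y • X y) hC hM hC0 hs1 hK hfO
    have c1 := flux_le hM hX hs
    have c2 := bulk_le hM hs hA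
    have iZ1 : Integrable (fun x => fderiv ℝ (eta s) x (ff M x • X x)) :=
      integrable_deta hs (fun x _ => hZ.continuous.continuousAt)
    have iZ2 : Integrable (fun x => eta s x * eucDiv (fun y => ff M y • X y) x) :=
      ((contDiff_eta s).continuous.mul
        (continuous_eucDiv (hZ.of_le (by simp)))).integrable_of_hasCompactSupport
        (hcs_eta hs).mul_right
    have c3 : ∫ x in Om, eucDiv (fun x => eta s x • (ff M x • X x)) x =
        (∫ x in Om, eta s x * eucDiv (fun y => ff M y • X y) x) +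
          ∫ x in Om, fderiv ℝ (eta s) x (ff M x • X x) := by
      rw [← integral_add iZ2.integrableOn iZ1.integrableOn]
      apply integral_congr_ae
      refine ae_of_all _ (fun x => ?_)
      exact eucDiv_smul ((contDiff_eta s).differentiable (by simp) x)
        (hZ.differentiable (by simp) x)
    have d1 := abs_le.mp b1
    have d2 := abs_le.mp b2
    have d3 := abs_le.mp b3
    linarith [d1.1, d1.2, d2.1, d2.2, d3.1, d3.2]
  -- the errors tend to zero
  have t1 := tendsto_eta_int (A := Om) iZ.integrableOn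
  have t2 := tendsto_eta_int hfO
  have t3 := tendsto_eta_int hf
  have t4 := tendsto_er hM hfO
  have t5 := tendsto_er hM hf
  have t6 : Tendsto (fun k : ℕ => (∫ x in Om, eucDiv (fun y => ff M y • X y) x) -
      (∫ x in Om, eta ((k : ℝ) + 1) x * eucDiv (fun y => ff M y • X y) x) +
      52 / 5 * ((∫ x in Om, eta ((k : ℝ) + 1) x * ff M x) -
          ∫ x in A, eta ((k : ℝ) + 1) x * ff M x)
      + (C * 1 * (∫ x in Om, er M ((k : ℝ) + 1) x) + C * 1 * (∫ x in A, er M ((k : ℝ) + 1) x)
        + C * K * ∫ x in Om, er M ((k : ℝ) + 1) x)) atTop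
      (𝓝 ((∫ x in Om, eucDiv (fun y => ff M y • X y) x) -
        (∫ x in Om, eucDiv (fun y => ff M y • X y) x) +
        52 / 5 * ((∫ x in Om, ff M x) - ∫ x in A, ff M x) + (C * 1 * 0 + C * 1 * 0 + C * K * 0))) :=
    ((tendsto_const_nhds.sub t1).add ((t2.sub t3).const_mul _)).add
      (((t4.const_mul _).add (t5.const_mul _)).add (t4.const_mul _))
  have t7 : (∫ x in Om, eucDiv (fun y => ff M y • X y) x) -
        (∫ x in Om, eucDiv (fun y => ff M y • X y) x) +
        52 / 5 * ((∫ x in Om, ff M x) - ∫ x in A, ff M x) + (C * 1 * 0 + C * 1 * 0 + C * K * 0) <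
        52 / 5 * ((∫ x in Om, ff M x) - ∫ x in A, ff M x) + ε := by
    linarith
  obtain ⟨k, hk⟩ := (t6.eventually_lt_const t7).exists
  have hs : (0 : ℝ) < (k : ℝ) + 1 := by positivity
  refine ⟨_, isTestField_etaY hM hs, ?_⟩
  have e1 : (fun y => ff M y • ((ff M y)⁻¹ • (eta ((k : ℝ) + 1) y • fY y))) =
      fun y => eta ((k : ℝ) + 1) y • fY y := by
    funext y
    rw [smul_smul, mul_inv_cancel₀ (ff_pos hM y).ne', one_smul]
  rw [e1]
  have := hstep k
  linarith

end Pool.Agent.W551.Iso
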