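import Pool.Agent.W551.Iso.Sing

/-!
# Completeness
-/

set_option autoImplicit false
set_option linter.unusedSectionVars false

open Set Filter Topology MeasureTheory
open scoped ContDiff ENNReal

namespace Pool.Agent.W551.Iso

section

variable {ι : Type} [Fintype ι] [DecidableEq ι]

theorem continuous_speed {g : (ι → ℝ) → Matrix ι ι ℝ} (hg : IsMetric g) {γ : ℝ → (ι → ℝ)}
    (hγ : ContDiff ℝ 1 γ) :
    Continuous (fun t => Real.sqrt (inn g (γ t) (deriv γ t) (deriv γ t))) := by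
  have h1 : Continuous (deriv γ) := hγ.continuous_deriv le_rfl
  have h2 : Continuous g := continuous_matrix (fun i j => (hg.smooth i j).continuous)
  have h3 : Continuous (fun t => g (γ t)) := h2.comp hγ.continuous
  exact (h1.dotProduct (h3.matrix_mulVec h1)).sqrt

end

theorem fld_one (x : E) : fld (fun _ => 1) (fun _ => 1) x = x := by
  funext i
  rcases i with i | i <;> simp [fld]

theorem radial_le {M : ℝ} (hM : Good M) (x w : E) :
    2 * (x ⬝ᵥ w) ≤ 100 * (1 + fR x) * Real.sqrt (inn (gg M) x w w) := by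
  have hf := ff_pos hM x
  have hlow := ff_lower hM x
  have hr := fr_nonneg x
  have hr2 := fr_sq x
  have h1 : ∀ w : E, inn (gg M) x x w = ff M x ^ 2 * (x ⬝ᵥ w) := by
    intro w
    have := inn_fld hM (fun _ => 1) (fun _ => 1) x w
    rwa [fld_one] at this
  have h2 := inn_sq_le (isMetric_gg hM) x x w
  rw [h1, h1, dot_self] at h2
  have h3 : (ff M x * (x ⬝ᵥ w)) ^ 2 ≤ fR x * inn (gg M) x w w := by
    have h5 : (ff M x ^ 2 * (x ⬝ᵥ w)) ^ 2 = ff M x ^ 2 * (ff M x * (x ⬝ᵥ w)) ^ 2 := by ring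
    rw [h5, mul_assoc] at h2
    exact le_of_mul_le_mul_left h2 (by positivity)
  have h4 : |ff M x * (x ⬝ᵥ w)| ≤ fr x * Real.sqrt (inn (gg M) x w w) := by
    rw [fr, ← Real.sqrt_mul (fR_nonneg x)]
    exact Real.abs_le_sqrt h3
  have h6 : ff M x * (x ⬝ᵥ w) ≤ fr x * Real.sqrt (inn (gg M) x w w) := (le_abs_self _).trans h4
  set S := Real.sqrt (inn (gg M) x w w) with hS
  have hS0 : 0 ≤ S := Real.sqrt_nonneg _
  have h7 : 1 ≤ 25 * (1 + fr x) * ff M x := by
    rw [div_le_iff₀ (by positivity)] at hlow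
    linarith
  rcases le_or_gt (x ⬝ᵥ w) 0 with h | h
  · have : 0 ≤ 100 * (1 + fR x) * S := by
      have := fR_nonneg x
      positivity
    linarith
  · have h8 : x ⬝ᵥ w ≤ 25 * (1 + fr x) * (ff M x * (x ⬝ᵥ w)) := by
      have := mul_le_mul_of_nonneg_right h7 h.le
      linarith
    have h9 : 25 * (1 + fr x) * (ff M x * (x ⬝ᵥ w)) ≤ 25 * (1 + fr x) * (fr x * S) :=
      mul_le_mul_of_nonneg_left h6 (by positivity)
    have h10 : 2 * (25 * (1 + fr x) * fr x) ≤ 100 * (1 + fR x) := by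
      rw [← hr2]; nlinarith [sq_nonneg (fr x - 1)]
    calc 2 * (x ⬝ᵥ w) ≤ 2 * (25 * (1 + fr x) * (fr x * S)) := by linarith
      _ = 2 * (25 * (1 + fr x) * fr x) * S := by ring
      _ ≤ 100 * (1 + fR x) * S := mul_le_mul_of_nonneg_right h10 hS0

theorem isComplete_gg {M : ℝ} (hM : Good M) : IsCompleteMetric (gg M) := by
  rintro γ hγ ⟨L, hL⟩
  have hd : ∀ t, HasDerivAt γ (deriv γ t) t := fun t =>
    ((hγ.differentiable (by simp)) t).hasDerivAt
  have hdc : Continuous (deriv γ) := hγ.continuous_deriv le_rfl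
  have hpos : ∀ t, 0 < 1 + fR (γ t) := fun t => by
    have := fR_nonneg (γ t)
    linarith
  have hN : ∀ t, HasDerivAt (fun t => Real.log (1 + fR (γ t)))
      (2 * (γ t ⬝ᵥ deriv γ t) / (1 + fR (γ t))) t := by
    intro t
    have h1 := (hasFDerivAt_fR (γ t)).comp_hasDerivAt t (hd t)
    rw [dUV_apply] at h1
    exact (h1.const_add 1).log (hpos t).ne'
  have hc1 : Continuous (fun t => 2 * (γ t ⬝ᵥ deriv γ t) / (1 + fR (γ t))) :=
    (continuous_const.mul (hγ.continuous.dotProduct hdc)).div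
      (continuous_const.add (continuous_fR.comp hγ.continuous)) (fun t => (hpos t).ne')
  have hc2 := continuous_speed (isMetric_gg hM) hγ
  have hle : ∀ t, 2 * (γ t ⬝ᵥ deriv γ t) / (1 + fR (γ t)) ≤
      100 * Real.sqrt (inn (gg M) (γ t) (deriv γ t) (deriv γ t)) := by
    intro t
    rw [div_le_iff₀ (hpos t)]
    have := radial_le hM (γ t) (deriv γ t)
    linarith
  have key : ∀ T, 0 ≤ T → Real.log (1 + fR (γ T)) ≤ Real.log (1 + fR (γ 0)) + 100 * L := by
    intro T hT
    have h1 : ∫ t in (0 : ℝ)..T, 2 * (γ t ⬝ᵥ deriv γ t) / (1 + fR (γ t)) =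
        Real.log (1 + fR (γ T)) - Real.log (1 + fR (γ 0)) :=
      intervalIntegral.integral_eq_sub_of_hasDerivAt (fun t _ => hN t)
        (hc1.intervalIntegrable _ _)
    have h2 : ∫ t in (0 : ℝ)..T, 2 * (γ t ⬝ᵥ deriv γ t) / (1 + fR (γ t)) ≤
        ∫ t in (0 : ℝ)..T, 100 * Real.sqrt (inn (gg M) (γ t) (deriv γ t) (deriv γ t)) :=
      intervalIntegral.integral_mono_on hT (hc1.intervalIntegrable _ _)
        ((continuous_const.mul hc2).intervalIntegrable _ _) (fun t _ => hle t)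
    rw [intervalIntegral.integral_const_mul] at h2
    have h3 := hL T hT
    rw [curveLength] at h3
    linarith
  apply (isCompact_fR_le (Real.exp (Real.log (1 + fR (γ 0)) + 100 * L))).isBounded.subset
  rintro _ ⟨T, hT, rfl⟩
  have h1 := key T hT
  show fR (γ T) ≤ _
  have h2 := (Real.log_le_iff_le_exp (hpos T)).mp h1
  linarith

end Pool.Agent.W551.Iso
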