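import Pool.Agent.W551.Iso.Defs

/-!
# General facts on the divergence
-/

set_option autoImplicit false

open Set Filter Topology
open scoped ContDiff

namespace Pool.Agent.W551.Iso

variable {ι : Type} [Fintype ι] [DecidableEq ι]

theorem eucDiv_congr {Z W : (ι → ℝ) → (ι → ℝ)} {x : ι → ℝ} (h : Z =ᶠ[𝓝 x] W) :
    eucDiv Z x = eucDiv W x := by
  unfold eucDiv
  refine Finset.sum_congr rfl (fun i _ => ?_)
  have : (fun y => Z y i) =ᶠ[𝓝 x] (fun y => W y i) := h.mono (fun y hy => congrFun hy i)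
  rw [this.fderiv_eq]

theorem eucDiv_zero (x : ι → ℝ) : eucDiv (fun _ : ι → ℝ => (0 : ι → ℝ)) x = 0 := by
  unfold eucDiv
  simp

theorem eucDiv_eq {Z : (ι → ℝ) → (ι → ℝ)} {x : ι → ℝ} (hZ : DifferentiableAt ℝ Z x) :
    eucDiv Z x = ∑ i, fderiv ℝ Z x (Pi.single i 1) i := by
  unfold eucDiv
  refine Finset.sum_congr rfl (fun i _ => ?_)
  have h1 : HasFDerivAt (fun y => Z y i)
      ((ContinuousLinearMap.proj (R := ℝ) (φ := fun _ : ι => ℝ) i).comp (fderiv ℝ Z x)) x :=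
    (ContinuousLinearMap.proj (R := ℝ) (φ := fun _ : ι => ℝ) i).hasFDerivAt.comp x hZ.hasFDerivAt
  rw [h1.fderiv]
  rfl

theorem eucDiv_smul {φ : (ι → ℝ) → ℝ} {Z : (ι → ℝ) → (ι → ℝ)} {x : ι → ℝ}
    (hφ : DifferentiableAt ℝ φ x) (hZ : DifferentiableAt ℝ Z x) :
    eucDiv (fun y => φ y • Z y) x = φ x * eucDiv Z x + fderiv ℝ φ x (Z x) := by
  have h1 : HasFDerivAt (fun y => φ y • Z y)
      (φ x • fderiv ℝ Z x + (fderiv ℝ φ x).smulRight (Z x)) x :=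
    hφ.hasFDerivAt.smul hZ.hasFDerivAt
  rw [eucDiv_eq h1.differentiableAt, h1.fderiv, eucDiv_eq hZ]
  have h2 : Z x = ∑ i, Z x i • (Pi.single i (1 : ℝ) : ι → ℝ) := by
    funext j
    simp [Finset.sum_apply, Pi.single_apply]
  conv_rhs => rw [h2]
  rw [map_sum, Finset.mul_sum, ← Finset.sum_add_distrib]
  refine Finset.sum_congr rfl (fun i _ => ?_)
  simp
  ring

theorem eucDiv_sub {Z W : (ι → ℝ) → (ι → ℝ)} {x : ι → ℝ}
    (hZ : DifferentiableAt ℝ Z x) (hW : DifferentiableAt ℝ W x) :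
    eucDiv (fun y => Z y - W y) x = eucDiv Z x - eucDiv W x := by
  have h1 : HasFDerivAt (fun y => Z y - W y) (fderiv ℝ Z x - fderiv ℝ W x) x :=
    hZ.hasFDerivAt.sub hW.hasFDerivAt
  rw [eucDiv_eq h1.differentiableAt, h1.fderiv, eucDiv_eq hZ, eucDiv_eq hW,
    ← Finset.sum_sub_distrib]
  rfl

theorem eucDiv_add {Z W : (ι → ℝ) → (ι → ℝ)} {x : ι → ℝ}
    (hZ : DifferentiableAt ℝ Z x) (hW : DifferentiableAt ℝ W x) :
    eucDiv (fun y => Z y + W y) x = eucDiv Z x + eucDiv W x := by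
  have h1 : HasFDerivAt (fun y => Z y + W y) (fderiv ℝ Z x + fderiv ℝ W x) x :=
    hZ.hasFDerivAt.add hW.hasFDerivAt
  rw [eucDiv_eq h1.differentiableAt, h1.fderiv, eucDiv_eq hZ, eucDiv_eq hW,
    ← Finset.sum_add_distrib]
  rfl

end Pool.Agent.W551.Iso
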