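import Pool.Agent.W551.Iso.Ineq2
import Pool.Agent.W551.Iso.Div

/-!
# The calibrating field `Y` and the volume density `f`
-/

set_option autoImplicit false

open Set Filter Topology
open scoped ContDiff

namespace Pool.Agent.W551.Iso

/-- cutoff: `0` for `t ≤ 0`, `1` for `t ≥ 1` -/
noncomputable def st (t : ℝ) : ℝ := Real.smoothTransition t

theorem contDiff_st : ContDiff ℝ ∞ st := Real.smoothTransition.contDiff (n := ⊤)
theorem st_nonneg (t : ℝ) : 0 ≤ st t := Real.smoothTransition.nonneg t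
theorem st_le_one (t : ℝ) : st t ≤ 1 := Real.smoothTransition.le_one t
theorem st_zero {t : ℝ} (h : t ≤ 0) : st t = 0 := Real.smoothTransition.zero_of_nonpos h
theorem st_one {t : ℝ} (h : 1 ≤ t) : st t = 1 := Real.smoothTransition.one_of_one_le h

/-- `ζ(t) = 1` for `t ≥ -1/100`, `0` for `t ≤ -1/50` -/
noncomputable def ze (t : ℝ) : ℝ := st (100 * t + 2)
/-- `ζ₂(t) = 1` for `t ≥ -10⁻⁸/2`, `0` for `t ≤ -10⁻⁸` -/
noncomputable def ze2 (t : ℝ) : ℝ := st (2 * 10 ^ 8 * t + 2)
/-- `χ(t) = 1` for `t ≤ 1/400`, `0` for `t ≥ 1/100` -/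
noncomputable def ch (t : ℝ) : ℝ := st ((1 / 100 - t) * (400 / 3))

theorem contDiff_ze : ContDiff ℝ ∞ ze := contDiff_st.comp (by fun_prop)
theorem contDiff_ze2 : ContDiff ℝ ∞ ze2 := contDiff_st.comp (by fun_prop)
theorem contDiff_ch : ContDiff ℝ ∞ ch := contDiff_st.comp (by fun_prop)

theorem ze_one {t : ℝ} (h : -(1 / 100) ≤ t) : ze t = 1 := st_one (by linarith)
theorem ze_zero {t : ℝ} (h : t ≤ -(1 / 50)) : ze t = 0 := st_zero (by linarith)
theorem ze2_one {t : ℝ} (h : -(1 / (2 * 10 ^ 8)) ≤ t) : ze2 t = 1 := st_one (by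
  norm_num at h ⊢; linarith)
theorem ze2_zero {t : ℝ} (h : t ≤ -(1 / 10 ^ 8)) : ze2 t = 0 := st_zero (by
  norm_num at h ⊢; linarith)
theorem ch_one {t : ℝ} (h : t ≤ 1 / 400) : ch t = 1 := st_one (by linarith)
theorem ch_zero {t : ℝ} (h : 1 / 100 ≤ t) : ch t = 0 := st_zero (by linarith)

theorem deriv_ze_one {t : ℝ} (h : -(1 / 100) < t) : deriv ze t = 0 := by
  have : ze =ᶠ[𝓝 t] fun _ => 1 := by
    filter_upwards [Ioi_mem_nhds h] with s hs
    exact ze_one (le_of_lt hs)
  rw [this.deriv_eq]; simp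

theorem deriv_ze_zero {t : ℝ} (h : t < -(1 / 50)) : deriv ze t = 0 := by
  have : ze =ᶠ[𝓝 t] fun _ => 0 := by
    filter_upwards [Iio_mem_nhds h] with s hs
    exact ze_zero (le_of_lt hs)
  rw [this.deriv_eq]; simp

/-! ### Smoothness of `X`, `D` -/

theorem contDiffAt_fQ {x : E} (hx : 0 < fR x) : ContDiffAt ℝ ∞ fQ x :=
  contDiff_fR.contDiffAt.mul (contDiffAt_fP hx)

theorem contDiffAt_cA {x : E} (hx : 0 < fR x) (hP : 0 < fP x) : ContDiffAt ℝ ∞ cA x := by
  have hQ : 0 < fQ x := mul_pos hx hP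
  have h1 : ContDiffAt ℝ ∞ fA x := contDiff_fU.contDiffAt.add ((contDiffAt_fr hx).pow 3)
  exact h1.div ((contDiffAt_fQ hx).sqrt hQ.ne') (Real.sqrt_pos.mpr hQ).ne'

theorem contDiffAt_cB {x : E} (hx : 0 < fR x) (hP : 0 < fP x) : ContDiffAt ℝ ∞ cB x := by
  have hQ : 0 < fQ x := mul_pos hx hP
  have h1 : ContDiffAt ℝ ∞ fB x := ((contDiffAt_fr hx).pow 3).sub contDiff_fV.contDiffAt
  exact h1.div ((contDiffAt_fQ hx).sqrt hQ.ne') (Real.sqrt_pos.mpr hQ).ne'

theorem contDiffAt_fld {α b : E → ℝ} {x : E} (hα : ContDiffAt ℝ ∞ α x) (hb : ContDiffAt ℝ ∞ b x) :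
    ContDiffAt ℝ ∞ (fld α b) x := by
  rw [contDiffAt_pi]
  rintro (a | a)
  · exact hα.mul (contDiff_apply ℝ ℝ (Sum.inl a : I)).contDiffAt
  · exact hb.mul (contDiff_apply ℝ ℝ (Sum.inr a : I)).contDiffAt

theorem contDiffAt_fX {x : E} (hx : 0 < fR x) (hP : 0 < fP x) : ContDiffAt ℝ ∞ fX x :=
  contDiffAt_fld (contDiffAt_cA hx hP) (contDiffAt_cB hx hP)

theorem contDiffAt_fD {x : E} (hx : 0 < fR x) (hP : 0 < fP x) : ContDiffAt ℝ ∞ fD x := by
  have hr := fr_pos hx
  have hs := Real.sqrt_pos.mpr hP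
  have h1 : ContDiffAt ℝ ∞ (fun y => 5 * fr y ^ 3 + fT y + 3 * fT y ^ 3 / fP y) x :=
    ((contDiffAt_const.mul ((contDiffAt_fr hx).pow 3)).add (contDiffAt_fT hx)).add
      ((contDiffAt_const.mul ((contDiffAt_fT hx).pow 3)).div (contDiffAt_fP hx) hP.ne')
  have h2 : ContDiffAt ℝ ∞ (fun y => fr y * Real.sqrt (fP y)) x :=
    (contDiffAt_fr hx).mul ((contDiffAt_fP hx).sqrt hP.ne')
  exact h1.div h2 (by positivity)

/-! ### The field `Y` -/

/-- `Y = ζ(G) X` -/
noncomputable def fY (x : E) : E := ze (fG x) • fX x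

theorem fY_zero_near {x : E} (h : fG x < -(1 / 50)) : fY =ᶠ[𝓝 x] fun _ => 0 := by
  filter_upwards [continuous_fG.continuousAt.eventually_lt continuousAt_const h] with y hy
  rw [fY, ze_zero (le_of_lt hy), zero_smul]

theorem fY_eq_near {x : E} (h : -(1 / 100) < fG x) : fY =ᶠ[𝓝 x] fX := by
  filter_upwards [continuous_fG.continuousAt.eventually_const_lt h] with y hy
  rw [fY, ze_one (le_of_lt hy), one_smul]

theorem contDiffAt_fY {x : E} (hx : 0 < fR x) : ContDiffAt ℝ ∞ fY x := by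
  by_cases h : fG x < -(1 / 50)
  · exact contDiffAt_const.congr_of_eventuallyEq (fY_zero_near h)
  · have hP := fP_pos hx (by linarith : -(1 / 20) < fG x)
    exact (contDiff_ze.contDiffAt.comp x (contDiffAt_fG hx)).smul (contDiffAt_fX hx hP)

theorem dU_fld (α b : E → ℝ) (x : E) : dU x (fld α b x) = 2 * α x * fU x := by
  rw [dU_apply, fU, Finset.mul_sum]
  refine Finset.sum_congr rfl (fun i _ => ?_)
  rw [fld_inl]; ring

theorem dV_fld (α b : E → ℝ) (x : E) : dV x (fld α b x) = 2 * b x * fV x := by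
  rw [dV_apply, fV, Finset.mul_sum]
  refine Finset.sum_congr rfl (fun i _ => ?_)
  rw [fld_inr]; ring

/-- `dG(X) = |∇G|` -/
theorem fderiv_fG_fX {x : E} (hx : 0 < fR x) (hP : 0 < fP x) :
    fderiv ℝ fG x (fX x) = Real.sqrt (fQ x) := by
  have hQ : 0 < fQ x := mul_pos hx hP
  have hs := Real.sqrt_pos.mpr hQ
  rw [(hasFDerivAt_fG hx).fderiv, fX]
  simp only [add_apply, smul_apply, smul_eq_mul, dU_fld, dV_fld]
  have h1 := fQ_eq x
  rw [cA, cB]
  field_simp
  rw [Real.sq_sqrt hQ.le, h1]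

/-- the divergence of `Y` -/
noncomputable def fPhi (x : E) : ℝ := ze (fG x) * fD x + deriv ze (fG x) * Real.sqrt (fQ x)

theorem eucDiv_fY {x : E} (hx : 0 < fR x) : eucDiv fY x = fPhi x := by
  by_cases h : fG x < -(1 / 50)
  · rw [eucDiv_congr (fY_zero_near h), eucDiv_zero, fPhi, ze_zero h.le, deriv_ze_zero h]
    ring
  · have hP := fP_pos hx (by linarith : -(1 / 20) < fG x)
    have h1 : DifferentiableAt ℝ fX x := (contDiffAt_fX hx hP).differentiableAt (by simp)
    have h2 : HasFDerivAt (fun y => ze (fG y)) (deriv ze (fG x) • fderiv ℝ fG x) x := by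
      have h3 : HasDerivAt ze (deriv ze (fG x)) (fG x) :=
        (contDiff_ze.differentiable (by simp) _).hasDerivAt
      exact h3.comp_hasFDerivAt x (hasFDerivAt_fG hx).differentiableAt.hasFDerivAt
    have h4 := eucDiv_smul h2.differentiableAt h1
    have h5 : eucDiv fY x = eucDiv (fun y => ze (fG y) • fX y) x := rfl
    rw [h5, h4, h2.fderiv, eucDiv_fX hx hP, smul_apply, smul_eq_mul, fderiv_fG_fX hx hP, fPhi]

theorem fPhi_eq {x : E} (h : -(1 / 100) < fG x) : fPhi x = fD x := by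
  rw [fPhi, ze_one h.le, deriv_ze_one h]; ring

/-! ### The density -/

/-- the volume density -/
noncomputable def ff (M : ℝ) (x : E) : ℝ :=
  ch (fR x) * f0 (fR x) + (1 - ch (fR x)) * (ze2 (fG x) * (5 / 52 * fD x) + (1 - ze2 (fG x)) * M)

theorem f0_pos {t : ℝ} (ht : t ≤ 1) : 0 < f0 t := by
  rw [f0]
  have : 0 < Real.sqrt (1 - 12 / 25 * t) := Real.sqrt_pos.mpr (by linarith)
  have : 0 < 1 - 6 / 13 * t := by linarith
  positivity

theorem f0_lower {t : ℝ} (h0 : 0 ≤ t) (ht : t ≤ 1 / 100) : 1 / 2 ≤ f0 t := by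
  rw [f0]
  have h1 : 0 < 1 - 12 / 25 * t := by linarith
  have h2 : 0 < Real.sqrt (1 - 12 / 25 * t) := Real.sqrt_pos.mpr h1
  have h3 : Real.sqrt (1 - 12 / 25 * t) ≤ 1 := by
    rw [Real.sqrt_le_one]; linarith
  have h4 : Real.sqrt (1 - 12 / 25 * t) ^ 3 ≤ 1 := pow_le_one₀ h2.le h3
  rw [le_div_iff₀ (by positivity)]
  nlinarith

theorem contDiffAt_f0 {t : ℝ} (ht : t < 1) : ContDiffAt ℝ ∞ f0 t := by
  have h1 : 0 < 1 - 12 / 25 * t := by linarith
  have h2 : 0 < Real.sqrt (1 - 12 / 25 * t) := Real.sqrt_pos.mpr h1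
  have h3 : ContDiffAt ℝ ∞ (fun t : ℝ => 1 - 12 / 25 * t) t := by fun_prop
  have h4 : ContDiffAt ℝ ∞ (fun t : ℝ => 1 - 6 / 13 * t) t := by fun_prop
  exact h4.div ((h3.sqrt h1.ne').pow 3) (by positivity)

theorem ff_near (M : ℝ) {x : E} (h : fR x ≤ 1 / 400) : ff M x = f0 (fR x) := by
  rw [ff, ch_one h]; ring

theorem contDiff_ff (M : ℝ) : ContDiff ℝ ∞ (ff M) := by
  rw [contDiff_iff_contDiffAt]
  intro x
  by_cases h : fR x < 1 / 400
  · have h1 : ff M =ᶠ[𝓝 x] fun y => f0 (fR y) := by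
      filter_upwards [continuous_fR.continuousAt.eventually_lt continuousAt_const h] with y hy
      exact ff_near M (le_of_lt hy)
    exact ((contDiffAt_f0 (by linarith)).comp x contDiff_fR.contDiffAt).congr_of_eventuallyEq h1
  · have hx : 0 < fR x := by linarith
    have hch : ContDiffAt ℝ ∞ (fun y => ch (fR y)) x := (contDiff_ch.comp contDiff_fR).contDiffAt
    have hz2 : ContDiffAt ℝ ∞ (fun y => ze2 (fG y)) x :=
      contDiff_ze2.contDiffAt.comp x (contDiffAt_fG hx)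
    have t1 : ContDiffAt ℝ ∞ (fun y => ch (fR y) * f0 (fR y)) x := by
      by_cases h1 : fR x < 1
      · exact hch.mul ((contDiffAt_f0 h1).comp x contDiff_fR.contDiffAt)
      · have h2 : (fun y => ch (fR y) * f0 (fR y)) =ᶠ[𝓝 x] fun _ => 0 := by
          have h3 : (1 / 100 : ℝ) < fR x := by linarith
          filter_upwards [continuous_fR.continuousAt.eventually_const_lt h3] with y hy
          rw [ch_zero (le_of_lt hy), zero_mul]
        exact contDiffAt_const.congr_of_eventuallyEq h2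
    have t2 : ContDiffAt ℝ ∞ (fun y => ze2 (fG y) * (5 / 52 * fD y)) x := by
      by_cases h1 : fG x < -(1 / 10 ^ 8)
      · have h2 : (fun y => ze2 (fG y) * (5 / 52 * fD y)) =ᶠ[𝓝 x] fun _ => 0 := by
          filter_upwards [continuous_fG.continuousAt.eventually_lt continuousAt_const h1] with y hy
          rw [ze2_zero (le_of_lt hy), zero_mul]
        exact contDiffAt_const.congr_of_eventuallyEq h2
      · have hP := fP_pos hx (by
          have : -(1 / 20 : ℝ) < -(1 / 10 ^ 8) := by norm_num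
          linarith)
        exact hz2.mul (contDiffAt_const.mul (contDiffAt_fD hx hP))
    exact t1.add ((contDiffAt_const.sub hch).mul (t2.add ((contDiffAt_const.sub hz2).mul
      contDiffAt_const)))

/-- bound for the inside value -/
def Good (M : ℝ) : Prop :=
  1 ≤ M ∧ ∀ x : E, 1 / 400 ≤ fR x → -(1 / 50) ≤ fG x → fG x ≤ 0 → 5 / 52 * fPhi x ≤ M

theorem norm_le_fr (x : E) : ‖x‖ ≤ fr x := by
  rw [pi_norm_le_iff_of_nonneg (fr_nonneg x)]
  intro i
  rw [Real.norm_eq_abs, ← Real.sqrt_sq_eq_abs]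
  apply Real.sqrt_le_sqrt
  rw [fR_eq_sum]
  exact Finset.single_le_sum (f := fun j => x j ^ 2) (fun j _ => sq_nonneg _) (Finset.mem_univ i)

theorem continuousAt_fPhi {x : E} (hx : 0 < fR x) (hP : 0 < fP x) : ContinuousAt fPhi x := by
  have h1 : ContinuousAt (fun y => ze (fG y)) x :=
    contDiff_ze.continuous.continuousAt.comp continuous_fG.continuousAt
  have h2 : ContinuousAt (fun y => deriv ze (fG y)) x :=
    (contDiff_ze.continuous_deriv (by simp)).continuousAt.comp continuous_fG.continuousAt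
  exact (h1.mul (contDiffAt_fD hx hP).continuousAt).add
    (h2.mul (contDiffAt_fQ hx).continuousAt.sqrt)

theorem exists_good : ∃ M, Good M := by
  set K : Set E := {x | 1 / 400 ≤ fR x ∧ -(1 / 50) ≤ fG x ∧ fG x ≤ 0} with hK
  have hcl : IsClosed K := by
    refine (isClosed_le continuous_const continuous_fR).inter
      ((isClosed_le continuous_const continuous_fG).inter
        (isClosed_le continuous_fG continuous_const))
  have hbd : K ⊆ Metric.closedBall 0 (5 / 4) := by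
    rintro x ⟨_, _, h3⟩
    rw [mem_closedBall_zero_iff]
    exact (norm_le_fr x).trans (fr_le_of_nonpos h3)
  have hc : IsCompact K := (isCompact_closedBall (0 : E) (5 / 4)).of_isClosed_subset hcl hbd
  have hcont : ContinuousOn fPhi K := by
    rintro x ⟨h1, h2, _⟩
    have hx : 0 < fR x := by linarith
    exact (continuousAt_fPhi hx (fP_pos hx (by linarith))).continuousWithinAt
  obtain ⟨C, hC⟩ := hc.exists_bound_of_continuousOn hcont
  refine ⟨max 1 (5 / 52 * C), le_max_left _ _, fun x h1 h2 h3 => ?_⟩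
  have := hC x ⟨h1, h2, h3⟩
  rw [Real.norm_eq_abs] at this
  have h4 := le_of_abs_le this
  exact (by linarith : 5 / 52 * fPhi x ≤ 5 / 52 * C).trans (le_max_right _ _)

theorem ch_mem (t : ℝ) : 0 ≤ ch t ∧ ch t ≤ 1 := ⟨st_nonneg _, st_le_one _⟩
theorem ze2_mem (t : ℝ) : 0 ≤ ze2 t ∧ ze2 t ≤ 1 := ⟨st_nonneg _, st_le_one _⟩
theorem ze_mem (t : ℝ) : 0 ≤ ze t ∧ ze t ≤ 1 := ⟨st_nonneg _, st_le_one _⟩

theorem fr_ge {x : E} (h : 1 / 400 ≤ fR x) : 1 / 20 ≤ fr x := by
  have h1 := fr_sq x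
  have h2 := fr_nonneg x
  by_contra hc
  nlinarith

/-- lower bound for `f` -/
theorem ff_lower {M : ℝ} (hM : Good M) (x : E) : 1 / (25 * (1 + fr x)) ≤ ff M x := by
  have hr := fr_nonneg x
  have hlow : 1 / (25 * (1 + fr x)) ≤ 1 / 25 := by
    apply one_div_le_one_div_of_le (by norm_num); linarith
  obtain ⟨c0, c1⟩ := ch_mem (fR x)
  obtain ⟨z0, z1⟩ := ze2_mem (fG x)
  have hterm : (1 - ch (fR x)) * (1 / (25 * (1 + fr x))) ≤
      (1 - ch (fR x)) * (ze2 (fG x) * (5 / 52 * fD x) + (1 - ze2 (fG x)) * M) := by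
    by_cases h : fR x ≤ 1 / 400
    · rw [ch_one h]; simp
    · apply mul_le_mul_of_nonneg_left _ (by linarith)
      have hx : 0 < fR x := by linarith
      have hr' := fr_ge (not_le.mp h).le
      have hM1 := hM.1
      have a2 : (1 - ze2 (fG x)) * (1 / (25 * (1 + fr x))) ≤ (1 - ze2 (fG x)) * M :=
        mul_le_mul_of_nonneg_left (by linarith) (by linarith)
      have a1 : ze2 (fG x) * (1 / (25 * (1 + fr x))) ≤ ze2 (fG x) * (5 / 52 * fD x) := by
        by_cases h1 : fG x ≤ -(1 / 10 ^ 8)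
        · rw [ze2_zero h1]; simp
        · apply mul_le_mul_of_nonneg_left _ z0
          have hG : -(1 / 10 ^ 8) ≤ fG x := (not_le.mp h1).le
          have hT := fT_nonneg_of (not_le.mp h).le hG
          have hP := fP_pos hx (by
            have : -(1 / 20 : ℝ) < -(1 / 10 ^ 8) := by norm_num
            linarith)
          have h3 := fD_lower hr' hP hT
          have h4 : 1 / (25 * (1 + fr x)) ≤ 5 / 52 * (1 / (2 * fr x)) := by
            rw [show (5 : ℝ) / 52 * (1 / (2 * fr x)) = 5 / (104 * fr x) by field_simp; norm_num]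
            rw [div_le_div_iff₀ (by positivity) (by positivity)]
            nlinarith
          linarith
      nlinarith
  have hterm2 : ch (fR x) * (1 / (25 * (1 + fr x))) ≤ ch (fR x) * f0 (fR x) := by
    by_cases h : 1 / 100 ≤ fR x
    · rw [ch_zero h]; simp
    · apply mul_le_mul_of_nonneg_left _ c0
      have := f0_lower (fR_nonneg x) (not_le.mp h).le
      linarith
  rw [ff]
  nlinarith

theorem ff_pos {M : ℝ} (hM : Good M) (x : E) : 0 < ff M x := by
  have hr := fr_nonneg x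
  exact lt_of_lt_of_le (by positivity) (ff_lower hM x)

/-- outside `Ω`: `H f ≤ D` -/
theorem ff_outside {M : ℝ} {x : E} (hx : 0 < fR x) (hG : 0 ≤ fG x) :
    52 / 5 * ff M x ≤ fD x := by
  have hz : ze2 (fG x) = 1 := ze2_one (by
    have : -(1 / (2 * 10 ^ 8)) ≤ (0 : ℝ) := by norm_num
    linarith)
  rw [ff, hz]
  obtain ⟨c0, c1⟩ := ch_mem (fR x)
  by_cases h : 1 / 100 ≤ fR x
  · rw [ch_zero h]; linarith
  · have := near_nonneg hx (not_le.mp h).le hG
    nlinarith

/-- inside `Ω`: `div Y ≤ H f` -/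
theorem ff_inside {M : ℝ} (hM : Good M) {x : E} (hx : 0 < fR x) (hG : fG x ≤ 0) :
    fPhi x ≤ 52 / 5 * ff M x := by
  obtain ⟨c0, c1⟩ := ch_mem (fR x)
  obtain ⟨z0, z1⟩ := ze2_mem (fG x)
  -- the second bracket is at least `div Y` away from the origin
  have hB : 1 / 400 ≤ fR x →
      fPhi x ≤ 52 / 5 * (ze2 (fG x) * (5 / 52 * fD x) + (1 - ze2 (fG x)) * M) := by
    intro h
    by_cases h1 : fG x ≤ -(1 / 10 ^ 8)
    · rw [ze2_zero h1]
      by_cases h2 : -(1 / 50) ≤ fG x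
      · have := hM.2 x h h2 hG
        linarith
      · have h3 : fPhi x = 0 := by
          rw [fPhi, ze_zero (not_le.mp h2).le, deriv_ze_zero (not_le.mp h2)]; ring
        have := hM.1
        rw [h3]; linarith
    · have h2 : -(1 / 100) < fG x := by
        have : -(1 / 100 : ℝ) < -(1 / 10 ^ 8) := by norm_num
        linarith [not_le.mp h1]
      have h3 := hM.2 x h (by linarith) hG
      rw [fPhi_eq h2] at h3 ⊢
      have h5 : (1 - ze2 (fG x)) * (5 / 52 * fD x) ≤ (1 - ze2 (fG x)) * M :=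
        mul_le_mul_of_nonneg_left h3 (by linarith)
      linarith
  rw [ff]
  by_cases h : fR x ≤ 1 / 100
  · have h1 : fPhi x = fD x := fPhi_eq (by
      have := fG_near h
      linarith)
    have h2 := near_nonpos hx h hG
    by_cases h3 : fR x ≤ 1 / 400
    · rw [ch_one h3, h1]; linarith
    · have h4 := hB (not_le.mp h3).le
      have h5 : ch (fR x) * fPhi x ≤ ch (fR x) * (52 / 5 * f0 (fR x)) :=
        mul_le_mul_of_nonneg_left (by rw [h1]; exact h2) c0
      have h6 := mul_le_mul_of_nonneg_left h4 (by linarith : 0 ≤ 1 - ch (fR x))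
      linarith
  · have h3 : ch (fR x) = 0 := ch_zero (not_le.mp h).le
    have h4 := hB (by linarith)
    rw [h3]
    linarith

/-- on the surface `H f = D` -/
theorem ff_surface {M : ℝ} (hM : Good M) {x : E} (hx : 0 < fR x) (hG : fG x = 0) :
    52 / 5 * ff M x = fD x := by
  apply le_antisymm (ff_outside hx hG.ge)
  rw [← fPhi_eq (by rw [hG]; norm_num)]
  exact ff_inside hM hx hG.le

end Pool.Agent.W551.Iso
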