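import Mathlib

/-!
# The model functions on `ℝ⁵ × ℝ⁵`
-/

set_option autoImplicit false

open Set
open scoped ContDiff

namespace Pool.Agent.W551.Iso

/-- coordinates of `ℝ⁵ × ℝ⁵` -/
abbrev I := Fin 5 ⊕ Fin 5

/-- `ℝ⁵ × ℝ⁵` -/
abbrev E := I → ℝ

/-- `|x|²` -/
def fU (x : E) : ℝ := ∑ i : Fin 5, x (Sum.inl i) ^ 2
/-- `|y|²` -/
def fV (x : E) : ℝ := ∑ i : Fin 5, x (Sum.inr i) ^ 2
/-- `|x|² + |y|²` -/
def fR (x : E) : ℝ := fU x + fV x
/-- the Euclidean norm -/
noncomputable def fr (x : E) : ℝ := Real.sqrt (fR x)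
/-- `T = r³ + U - V` -/
noncomputable def fT (x : E) : ℝ := fr x ^ 3 + fU x - fV x
/-- `P = T² + U V` -/
noncomputable def fP (x : E) : ℝ := fT x ^ 2 + fU x * fV x
/-- `G = R (T - r³/5) / 4 = (U² - V²)/4 + r⁵/5` -/
noncomputable def fG (x : E) : ℝ := (fU x ^ 2 - fV x ^ 2) / 4 + fr x ^ 5 / 5

theorem fU_nonneg (x : E) : 0 ≤ fU x := Finset.sum_nonneg (fun _ _ => sq_nonneg _)
theorem fV_nonneg (x : E) : 0 ≤ fV x := Finset.sum_nonneg (fun _ _ => sq_nonneg _)
theorem fR_nonneg (x : E) : 0 ≤ fR x := add_nonneg (fU_nonneg x) (fV_nonneg x)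
theorem fr_nonneg (x : E) : 0 ≤ fr x := Real.sqrt_nonneg _
theorem fr_sq (x : E) : fr x ^ 2 = fR x := Real.sq_sqrt (fR_nonneg x)
theorem fr_pos {x : E} (h : 0 < fR x) : 0 < fr x := Real.sqrt_pos.mpr h
theorem fr_pos_iff {x : E} : 0 < fr x ↔ 0 < fR x := Real.sqrt_pos
theorem fP_nonneg (x : E) : 0 ≤ fP x :=
  add_nonneg (sq_nonneg _) (mul_nonneg (fU_nonneg x) (fV_nonneg x))

theorem fR_eq_sum (x : E) : fR x = ∑ i : I, x i ^ 2 := by
  rw [fR, fU, fV, Fintype.sum_sum_type]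

theorem pow_pos_of_ne_zero_aux {a : ℝ} (h : a ≠ 0) : 0 < a ^ 2 := by positivity

/-- change of the function and of the derivative -/
theorem hfd_congr {X : Type*} [NormedAddCommGroup X] [NormedSpace ℝ X] {f g : X → ℝ}
    {f' g' : X →L[ℝ] ℝ} {x : X} (h : HasFDerivAt f f' x)
    (hf : ∀ y, f y = g y) (hd : ∀ v, f' v = g' v) : HasFDerivAt g g' x := by
  have e1 : f = g := funext hf
  have e2 : f' = g' := ContinuousLinearMap.ext hd
  rw [← e1, ← e2]; exact h

theorem fR_pos_iff {x : E} : 0 < fR x ↔ x ≠ 0 := by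
  rw [fR_eq_sum]
  constructor
  · rintro h rfl
    simp at h
  · intro h
    obtain ⟨i, hi⟩ := Function.ne_iff.mp h
    have hi' : 0 < x i ^ 2 := pow_pos_of_ne_zero_aux hi
    exact lt_of_lt_of_le hi'
      (Finset.single_le_sum (f := fun j => x j ^ 2) (fun j _ => sq_nonneg _) (Finset.mem_univ i))

theorem fR_zero : fR 0 = 0 := by simp [fR, fU, fV]

theorem fG_eq (x : E) : fG x = fR x * (fT x - fr x ^ 3 / 5) / 4 := by
  have h := fr_sq x
  have h5 : fr x ^ 5 = fr x ^ 3 * fR x := by rw [← h]; ring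
  rw [fG, h5, fT, fR]
  ring

/-! ### Smoothness -/

theorem contDiff_fU : ContDiff ℝ ∞ fU := by
  unfold fU
  fun_prop

theorem contDiff_fV : ContDiff ℝ ∞ fV := by
  unfold fV
  fun_prop

theorem contDiff_fR : ContDiff ℝ ∞ fR := contDiff_fU.add contDiff_fV

theorem continuous_fR : Continuous fR := contDiff_fR.continuous
theorem continuous_fr : Continuous fr := continuous_fR.sqrt
theorem continuous_fG : Continuous fG :=
  (((contDiff_fU.continuous.pow 2).sub (contDiff_fV.continuous.pow 2)).div_const 4).add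
    ((continuous_fr.pow 5).div_const 5)
theorem continuous_fT : Continuous fT :=
  ((continuous_fr.pow 3).add contDiff_fU.continuous).sub contDiff_fV.continuous
theorem continuous_fP : Continuous fP :=
  (continuous_fT.pow 2).add (contDiff_fU.continuous.mul contDiff_fV.continuous)

/-- `dU_x(v) = 2 ∑ xᵢ vᵢ` -/
noncomputable def dU (x : E) : E →L[ℝ] ℝ :=
  ∑ i : Fin 5, (2 * x (Sum.inl i)) • (ContinuousLinearMap.proj (R := ℝ) (φ := fun _ : I => ℝ) (Sum.inl i))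

/-- `dV_x(v) = 2 ∑ yᵢ vᵢ` -/
noncomputable def dV (x : E) : E →L[ℝ] ℝ :=
  ∑ i : Fin 5, (2 * x (Sum.inr i)) • (ContinuousLinearMap.proj (R := ℝ) (φ := fun _ : I => ℝ) (Sum.inr i))

theorem dU_apply (x v : E) : dU x v = ∑ i : Fin 5, 2 * x (Sum.inl i) * v (Sum.inl i) := by
  simp [dU]

theorem dV_apply (x v : E) : dV x v = ∑ i : Fin 5, 2 * x (Sum.inr i) * v (Sum.inr i) := by
  simp [dV]

theorem hasFDerivAt_fU (x : E) : HasFDerivAt fU (dU x) x := by
  unfold fU dU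
  apply HasFDerivAt.fun_sum
  intro i _
  have h1 : HasFDerivAt (fun y : E => y (Sum.inl i))
    (ContinuousLinearMap.proj (R := ℝ) (φ := fun _ : I => ℝ) (Sum.inl i)) x :=
    (ContinuousLinearMap.proj (R := ℝ) (φ := fun _ : I => ℝ) (Sum.inl i)).hasFDerivAt
  have h2 := h1.pow 2
  simpa using h2

theorem hasFDerivAt_fV (x : E) : HasFDerivAt fV (dV x) x := by
  unfold fV dV
  apply HasFDerivAt.fun_sum
  intro i _
  have h1 : HasFDerivAt (fun y : E => y (Sum.inr i))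
    (ContinuousLinearMap.proj (R := ℝ) (φ := fun _ : I => ℝ) (Sum.inr i)) x :=
    (ContinuousLinearMap.proj (R := ℝ) (φ := fun _ : I => ℝ) (Sum.inr i)).hasFDerivAt
  have h2 := h1.pow 2
  simpa using h2

/-- `dr = (dU + dV) / (2r)` -/
theorem hasFDerivAt_fr {x : E} (hx : 0 < fR x) :
    HasFDerivAt fr ((1 / (2 * fr x)) • (dU x + dV x)) x :=
  ((hasFDerivAt_fU x).add (hasFDerivAt_fV x)).sqrt hx.ne'

theorem contDiffAt_fr {x : E} (hx : 0 < fR x) : ContDiffAt ℝ ∞ fr x :=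
  contDiff_fR.contDiffAt.sqrt hx.ne'

theorem contDiffAt_fT {x : E} (hx : 0 < fR x) : ContDiffAt ℝ ∞ fT x :=
  (((contDiffAt_fr hx).pow 3).add contDiff_fU.contDiffAt).sub contDiff_fV.contDiffAt

theorem contDiffAt_fP {x : E} (hx : 0 < fR x) : ContDiffAt ℝ ∞ fP x :=
  ((contDiffAt_fT hx).pow 2).add (contDiff_fU.contDiffAt.mul contDiff_fV.contDiffAt)

theorem contDiffAt_fG {x : E} (hx : 0 < fR x) : ContDiffAt ℝ ∞ fG x :=
  (((contDiff_fU.contDiffAt.pow 2).sub (contDiff_fV.contDiffAt.pow 2)).div_const 4).add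
    (((contDiffAt_fr hx).pow 5).div_const 5)

/-- The coefficient `A = U + r³` -/
noncomputable def fA (x : E) : ℝ := fU x + fr x ^ 3
/-- The coefficient `B = r³ - V` -/
noncomputable def fB (x : E) : ℝ := fr x ^ 3 - fV x
/-- The squared norm of the gradient of `G`, `Q = R P` -/
noncomputable def fQ (x : E) : ℝ := fR x * fP x

theorem fQ_eq (x : E) : fQ x = fA x ^ 2 * fU x + fB x ^ 2 * fV x := by
  have h := fr_sq x
  have h6 : fr x ^ 6 = fR x ^ 3 := by rw [← h]; ring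
  simp only [fQ, fP, fT, fA, fB]
  have h7 : fR x = fU x + fV x := rfl
  rw [h7]
  have h8 : (fr x ^ 3) ^ 2 = (fU x + fV x) ^ 3 := by rw [← h7, ← h]; ring
  ring

theorem hasFDerivAt_fG {x : E} (hx : 0 < fR x) :
    HasFDerivAt fG ((fA x / 2) • dU x + (fB x / 2) • dV x) x := by
  have h1 := (((hasFDerivAt_fU x).pow 2).sub ((hasFDerivAt_fV x).pow 2)).mul_const (1 / 4 : ℝ)
  have h2 := ((hasFDerivAt_fr hx).pow 5).mul_const (1 / 5 : ℝ)
  have hr := fr_pos hx
  refine hfd_congr (h1.add h2) (fun y => ?_) (fun v => ?_)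
  · simp only [fG, Pi.add_apply, Pi.sub_apply]
    ring
  · simp only [fA, fB]
    simp
    field_simp
    ring

end Pool.Agent.W551.Iso
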