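import Pool.Agent.W551.Iso.Defs
import Pool.Agent.W551.Iso.Model

/-!
# The unit field and its divergence
-/

set_option autoImplicit false

open Set
open scoped ContDiff

namespace Pool.Agent.W551.Iso

/-- The projection to `ℝ⁵ × 0`. -/
def px (x : E) : E := Sum.elim (fun a => x (Sum.inl a)) (fun _ => 0)
/-- The projection to `0 × ℝ⁵`. -/
def py (x : E) : E := Sum.elim (fun _ => 0) (fun a => x (Sum.inr a))

/-- The vector field `(α x, b y)`. -/
def fld (α b : E → ℝ) (x : E) : E :=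
  Sum.elim (fun a => α x * x (Sum.inl a)) (fun a => b x * x (Sum.inr a))

theorem fld_inl (α b : E → ℝ) (x : E) (a : Fin 5) : fld α b x (Sum.inl a) = α x * x (Sum.inl a) :=
  rfl
theorem fld_inr (α b : E → ℝ) (x : E) (a : Fin 5) : fld α b x (Sum.inr a) = b x * x (Sum.inr a) :=
  rfl

theorem px_eq (x : E) : px x = ∑ a : Fin 5, x (Sum.inl a) • (Pi.single (Sum.inl a) (1 : ℝ) : E) := by
  funext i
  rcases i with i | i
  · simp [px, Finset.sum_apply, Pi.single_apply]
  · simp [px, Finset.sum_apply]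

theorem py_eq (x : E) : py x = ∑ a : Fin 5, x (Sum.inr a) • (Pi.single (Sum.inr a) (1 : ℝ) : E) := by
  funext i
  rcases i with i | i
  · simp [py, Finset.sum_apply]
  · simp [py, Finset.sum_apply, Pi.single_apply]

theorem dU_px (x : E) : dU x (px x) = 2 * fU x := by
  rw [dU_apply, fU, Finset.mul_sum]
  refine Finset.sum_congr rfl (fun i _ => ?_)
  simp [px]; ring

theorem dU_py (x : E) : dU x (py x) = 0 := by
  rw [dU_apply]; simp [py]

theorem dV_px (x : E) : dV x (px x) = 0 := by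
  rw [dV_apply]; simp [px]

theorem dV_py (x : E) : dV x (py x) = 2 * fV x := by
  rw [dV_apply, fV, Finset.mul_sum]
  refine Finset.sum_congr rfl (fun i _ => ?_)
  simp [py]; ring

theorem hasFDerivAt_coord (x : E) (i : I) :
    HasFDerivAt (fun y : E => y i) (ContinuousLinearMap.proj (R := ℝ) (φ := fun _ : I => ℝ) i) x :=
  (ContinuousLinearMap.proj (R := ℝ) (φ := fun _ : I => ℝ) i).hasFDerivAt

/-- divergence of `(α x, b y)` -/
theorem eucDiv_fld {α b : E → ℝ} {α' b' : E →L[ℝ] ℝ} {x : E} (hα : HasFDerivAt α α' x)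
    (hb : HasFDerivAt b b' x) :
    eucDiv (fld α b) x = 5 * α x + α' (px x) + (5 * b x + b' (py x)) := by
  unfold eucDiv
  rw [Fintype.sum_sum_type]
  congr 1
  · have h1 : ∀ a : Fin 5, fderiv ℝ (fun y => fld α b y (Sum.inl a)) x
        (Pi.single (Sum.inl a) 1) = α x + x (Sum.inl a) * α' (Pi.single (Sum.inl a) 1) := by
      intro a
      have h2 := (hα.mul (hasFDerivAt_coord x (Sum.inl a))).fderiv
      have h3 : (fun y => fld α b y (Sum.inl a)) = α * fun y => y (Sum.inl a) := rfl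
      rw [h3, h2]
      simp
    rw [Finset.sum_congr rfl (fun a _ => h1 a), Finset.sum_add_distrib, px_eq, map_sum]
    simp
  · have h1 : ∀ a : Fin 5, fderiv ℝ (fun y => fld α b y (Sum.inr a)) x
        (Pi.single (Sum.inr a) 1) = b x + x (Sum.inr a) * b' (Pi.single (Sum.inr a) 1) := by
      intro a
      have h2 := (hb.mul (hasFDerivAt_coord x (Sum.inr a))).fderiv
      have h3 : (fun y => fld α b y (Sum.inr a)) = b * fun y => y (Sum.inr a) := rfl
      rw [h3, h2]
      simp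
    rw [Finset.sum_congr rfl (fun a _ => h1 a), Finset.sum_add_distrib, py_eq, map_sum]
    simp

/-! ### The unit field `X = ∇G / |∇G|` -/

/-- coefficient of `x` in `X` -/
noncomputable def cA (x : E) : ℝ := fA x / Real.sqrt (fQ x)
/-- coefficient of `y` in `X` -/
noncomputable def cB (x : E) : ℝ := fB x / Real.sqrt (fQ x)

/-- the unit field `X = ∇G / |∇G|` -/
noncomputable def fX : E → E := fld cA cB

/-- `D = div X` -/
noncomputable def fD (x : E) : ℝ :=
  (5 * fr x ^ 3 + fT x + 3 * fT x ^ 3 / fP x) / (fr x * Real.sqrt (fP x))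

theorem hasFDerivAt_fr3 {x : E} (hx : 0 < fR x) :
    HasFDerivAt (fun y => fr y ^ 3) ((3 * fr x / 2) • (dU x + dV x)) x := by
  have hr := fr_pos hx
  refine hfd_congr ((hasFDerivAt_fr hx).pow 3) (fun y => rfl) (fun v => ?_)
  simp
  field_simp

theorem hasFDerivAt_fA {x : E} (hx : 0 < fR x) :
    HasFDerivAt fA ((1 + 3 * fr x / 2) • dU x + (3 * fr x / 2) • dV x) x := by
  refine hfd_congr ((hasFDerivAt_fU x).add (hasFDerivAt_fr3 hx)) (fun y => rfl) (fun v => ?_)
  simp
  ring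

theorem hasFDerivAt_fB {x : E} (hx : 0 < fR x) :
    HasFDerivAt fB ((3 * fr x / 2) • dU x + (3 * fr x / 2 - 1) • dV x) x := by
  refine hfd_congr ((hasFDerivAt_fr3 hx).sub (hasFDerivAt_fV x)) (fun y => rfl) (fun v => ?_)
  simp
  ring

theorem hasFDerivAt_fT {x : E} (hx : 0 < fR x) :
    HasFDerivAt fT ((3 * fr x / 2 + 1) • dU x + (3 * fr x / 2 - 1) • dV x) x := by
  refine hfd_congr (((hasFDerivAt_fr3 hx).add (hasFDerivAt_fU x)).sub (hasFDerivAt_fV x))
    (fun y => rfl) (fun v => ?_)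
  simp
  ring

theorem hasFDerivAt_fP {x : E} (hx : 0 < fR x) :
    HasFDerivAt fP ((2 * fT x * (3 * fr x / 2 + 1) + fV x) • dU x +
      (2 * fT x * (3 * fr x / 2 - 1) + fU x) • dV x) x := by
  refine hfd_congr (((hasFDerivAt_fT hx).pow 2).add ((hasFDerivAt_fU x).mul (hasFDerivAt_fV x)))
    (fun y => rfl) (fun v => ?_)
  simp
  ring

theorem hasFDerivAt_fQ {x : E} (hx : 0 < fR x) :
    HasFDerivAt fQ ((fP x + fR x * (2 * fT x * (3 * fr x / 2 + 1) + fV x)) • dU x +
      (fP x + fR x * (2 * fT x * (3 * fr x / 2 - 1) + fU x)) • dV x) x := by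
  refine hfd_congr (((hasFDerivAt_fU x).add (hasFDerivAt_fV x)).mul (hasFDerivAt_fP hx))
    (fun y => rfl) (fun v => ?_)
  simp [fR]
  ring

/-- derivative of `a / √Q` -/
theorem hasFDerivAt_div_sqrt {a q : E → ℝ} {a' q' : E →L[ℝ] ℝ} {x : E} (ha : HasFDerivAt a a' x)
    (hq : HasFDerivAt q q' x) (hpos : 0 < q x) :
    HasFDerivAt (fun y => a y / Real.sqrt (q y))
      ((1 / Real.sqrt (q x)) • a' - (a x / (2 * q x * Real.sqrt (q x))) • q') x := by
  have h1 := hq.sqrt hpos.ne'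
  have hs : 0 < Real.sqrt (q x) := Real.sqrt_pos.mpr hpos
  have h2 := ha.mul ((hasDerivAt_inv hs.ne').comp_hasFDerivAt x h1)
  refine hfd_congr h2 (fun y => rfl) (fun v => ?_)
  have hsq : Real.sqrt (q x) ^ 2 = q x := Real.sq_sqrt hpos.le
  simp
  set S := Real.sqrt (q x)
  rw [← hsq]
  field_simp
  ring

theorem eucDiv_fX {x : E} (hx : 0 < fR x) (hP : 0 < fP x) : eucDiv fX x = fD x := by
  have hQ : 0 < fQ x := mul_pos hx hP
  have h1 := hasFDerivAt_div_sqrt (hasFDerivAt_fA hx) (hasFDerivAt_fQ hx) hQ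
  have h2 := hasFDerivAt_div_sqrt (hasFDerivAt_fB hx) (hasFDerivAt_fQ hx) hQ
  have h3 := eucDiv_fld (α := cA) (b := cB) h1 h2
  have hr := fr_pos hx
  show eucDiv (fld cA cB) x = _
  rw [h3]
  simp only [sub_apply, smul_apply,
    add_apply, dU_px, dU_py, dV_px, dV_py, smul_eq_mul, mul_zero, add_zero,
    zero_add]
  have hsQ : Real.sqrt (fQ x) = fr x * Real.sqrt (fP x) := by
    rw [fQ, Real.sqrt_mul hx.le]; rfl
  have hsP : 0 < Real.sqrt (fP x) := Real.sqrt_pos.mpr hP
  have hsq : Real.sqrt (fP x) ^ 2 = fP x := Real.sq_sqrt hP.le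
  simp only [cA, cB]
  rw [hsQ, fD]
  have hRr : fR x = fr x ^ 2 := (fr_sq x).symm
  have hV : fV x = fr x ^ 2 - fU x := by rw [fr_sq, fR]; ring
  have hQ' : fQ x = fr x ^ 2 * fP x := by rw [fQ, hRr]
  rw [hQ']
  have hPne := hP.ne'
  have hrne := hr.ne'
  have hsPne := hsP.ne'
  field_simp
  simp only [fA, fB]
  have hTdef : fT x = fr x ^ 3 + fU x - fV x := rfl
  have hPdef : fP x = fT x ^ 2 + fU x * fV x := rfl
  rw [hRr]
  rw [hPdef, hTdef, hV]
  ring

end Pool.Agent.W551.Iso
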