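import Pool.Agent.W551.Iso.Field

/-!
# Inequalities for `D`
-/

set_option autoImplicit false

open Set
open scoped ContDiff

namespace Pool.Agent.W551.Iso

/-- `P` as a function of `r` and `T` -/
noncomputable def pF (r T : ℝ) : ℝ := 3 / 4 * T ^ 2 + r ^ 3 * T / 2 + (r ^ 4 - r ^ 6) / 4

/-- `D` as a function of `r` and `T` -/
noncomputable def dF (r T : ℝ) : ℝ :=
  (5 * r ^ 3 + T + 3 * T ^ 3 / pF r T) / (r * Real.sqrt (pF r T))

theorem fP_eq (x : E) : fP x = pF (fr x) (fT x) := by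
  have h := fr_sq x
  have h2 : fV x = fr x ^ 2 - fU x := by rw [h, fR]; ring
  simp only [fP, pF, fT]
  rw [h2]
  ring

theorem fD_eq (x : E) : fD x = dF (fr x) (fT x) := by
  rw [fD, dF, fP_eq]

theorem fT_mem (x : E) : fT x ∈ Icc (fr x ^ 3 - fr x ^ 2) (fr x ^ 3 + fr x ^ 2) := by
  have h := fr_sq x
  have h1 := fU_nonneg x
  have h2 := fV_nonneg x
  have h3 : fR x = fU x + fV x := rfl
  constructor
  · rw [h, fT]; linarith
  · rw [h, fT]; linarith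

theorem pF_pos {r T : ℝ} (hr : 0 < r) (hr1 : r ≤ 1 / 10) : 0 < pF r T := by
  unfold pF
  have h1 : 0 < r ^ 4 := by positivity
  have h2 : r ^ 6 ≤ r ^ 4 / 100 := by
    have : r ^ 6 = r ^ 4 * r ^ 2 := by ring
    rw [this]
    have : r ^ 2 ≤ 1 / 100 := by nlinarith
    nlinarith
  have h3 : 0 ≤ 3 / 4 * (T + r ^ 3 / 3) ^ 2 := by positivity
  have h4 : 3 / 4 * (T + r ^ 3 / 3) ^ 2 = 3 / 4 * T ^ 2 + r ^ 3 * T / 2 + r ^ 6 / 12 := by ring
  nlinarith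

/-- the numerator of `∂D/∂T` -/
noncomputable def jF (r T : ℝ) : ℝ :=
  pF r T ^ 2 + 9 * T ^ 2 * pF r T - 1 / 4 * (3 * T + r ^ 3) * (5 * r ^ 3 + T) * pF r T
    - 9 / 4 * (3 * T + r ^ 3) * T ^ 3

theorem jF_pos {r T : ℝ} (hr : 0 < r) (hr1 : r ≤ 1 / 10)
    (hT : T ∈ Icc (r ^ 3 - r ^ 2) (r ^ 3 + r ^ 2)) : 0 < jF r T := by
  have hr2 : 0 < r ^ 2 := by positivity
  obtain ⟨τ, hτ⟩ : ∃ τ, T = r ^ 2 * τ := ⟨T / r ^ 2, by field_simp⟩
  have h1 : τ ≤ 11 / 10 := by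
    have h := hT.2
    rw [hτ] at h
    have : r ^ 2 * τ ≤ r ^ 2 * (11 / 10) := by nlinarith
    exact le_of_mul_le_mul_left this hr2
  have h2 : -(11 / 10) ≤ τ := by
    have h := hT.1
    rw [hτ] at h
    have : r ^ 2 * (-(11 / 10)) ≤ r ^ 2 * τ := by nlinarith
    exact le_of_mul_le_mul_left this hr2
  have key : jF r T = r ^ 8 * (-(3 / 8) * r * τ ^ 3 + (39 - 82 * r ^ 2) / 16 * τ ^ 2
      - (3 / 4 * r - 1 / 8 * r ^ 3) * τ + (1 - r ^ 2) * (1 - 6 * r ^ 2) / 16) := by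
    rw [jF, pF, hτ]; ring
  rw [key]
  apply mul_pos (by positivity)
  have hr3 : r ^ 2 ≤ 1 / 100 := by nlinarith
  have hr4 : 0 ≤ r ^ 3 := by positivity
  have hr5 : r ^ 3 ≤ 1 / 1000 := by nlinarith
  -- cubic term
  have c1 : -(3 / 8) * r * τ ^ 3 ≥ -(33 / 800) * τ ^ 2 := by
    have : r * τ ≤ 11 / 100 := by nlinarith
    have h0 : 0 ≤ τ ^ 2 := sq_nonneg _
    nlinarith
  have c2 : (39 - 82 * r ^ 2) / 16 * τ ^ 2 ≥ 2 * τ ^ 2 := by
    have h0 : 0 ≤ τ ^ 2 := sq_nonneg _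
    nlinarith
  have c3 : (3 / 4 * r - 1 / 8 * r ^ 3) * τ ≤ τ ^ 2 + 1 / 500 := by
    have a1 : 0 ≤ 3 / 4 * r - 1 / 8 * r ^ 3 := by nlinarith
    have a2 : 3 / 4 * r - 1 / 8 * r ^ 3 ≤ 3 / 40 := by nlinarith
    nlinarith [sq_nonneg (τ - (3 / 4 * r - 1 / 8 * r ^ 3) / 2)]
  have c4 : (1 - r ^ 2) * (1 - 6 * r ^ 2) / 16 ≥ 1 / 20 := by nlinarith
  nlinarith [sq_nonneg τ]

theorem hd_congr {f g : ℝ → ℝ} {a b x : ℝ} (h : HasDerivAt f a x) (hf : ∀ y, f y = g y)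
    (hab : a = b) : HasDerivAt g b x := by
  have e1 : f = g := funext hf
  rw [← e1, ← hab]; exact h

theorem hasDerivAt_pF (r T : ℝ) : HasDerivAt (pF r) ((3 * T + r ^ 3) / 2) T := by
  have h1 : HasDerivAt (fun T : ℝ => 3 / 4 * T ^ 2) (3 / 4 * (2 * T)) T := by
    simpa using (hasDerivAt_pow 2 T).const_mul (3 / 4 : ℝ)
  have h2 : HasDerivAt (fun T : ℝ => r ^ 3 * T / 2) (r ^ 3 / 2) T := by
    have := ((hasDerivAt_id T).const_mul (r ^ 3)).div_const 2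
    simpa using this
  exact hd_congr ((h1.add h2).add_const ((r ^ 4 - r ^ 6) / 4)) (fun y => rfl) (by ring)

theorem hasDerivAt_dF {r T : ℝ} (hr : 0 < r) (hP : 0 < pF r T) :
    HasDerivAt (dF r) (jF r T / (r * pF r T ^ 2 * Real.sqrt (pF r T))) T := by
  have h1 := hasDerivAt_pF r T
  have hs : 0 < Real.sqrt (pF r T) := Real.sqrt_pos.mpr hP
  have h2 := h1.sqrt hP.ne'
  have h3 : HasDerivAt (fun T : ℝ => 3 * T ^ 3) (9 * T ^ 2) T := by
    exact hd_congr ((hasDerivAt_pow 3 T).const_mul (3 : ℝ)) (fun y => rfl) (by norm_num; ring)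
  have h4 := h3.fun_div h1 hP.ne'
  have h5 : HasDerivAt (fun T : ℝ => 5 * r ^ 3 + T) 1 T := by
    simpa using (hasDerivAt_id T).const_add (5 * r ^ 3)
  have h6 := h5.fun_add h4
  have h7 := h6.fun_div (h2.const_mul r) (by positivity)
  refine hd_congr h7 (fun y => rfl) ?_
  have hsq : Real.sqrt (pF r T) ^ 2 = pF r T := Real.sq_sqrt hP.le
  have hsne := hs.ne'
  have hrne := hr.ne'
  simp only [jF]
  clear h7 h6 h5 h4 h3 h2 h1
  generalize Real.sqrt (pF r T) = S at *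
  generalize pF r T = p at *
  subst hsq
  field_simp
  ring

theorem dF_mono {r T₁ T₂ : ℝ} (hr : 0 < r) (hr1 : r ≤ 1 / 10)
    (h1 : T₁ ∈ Icc (r ^ 3 - r ^ 2) (r ^ 3 + r ^ 2)) (h2 : T₂ ∈ Icc (r ^ 3 - r ^ 2) (r ^ 3 + r ^ 2))
    (h : T₁ ≤ T₂) : dF r T₁ ≤ dF r T₂ := by
  have hm : MonotoneOn (dF r) (Icc (r ^ 3 - r ^ 2) (r ^ 3 + r ^ 2)) := by
    apply monotoneOn_of_deriv_nonneg (convex_Icc _ _)
    · intro T _
      exact (hasDerivAt_dF hr (pF_pos hr hr1)).continuousAt.continuousWithinAt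
    · intro T _
      exact (hasDerivAt_dF hr (pF_pos hr hr1)).differentiableAt.differentiableWithinAt
    · intro T hT
      rw [(hasDerivAt_dF hr (pF_pos hr hr1)).deriv]
      have hT' := interior_subset hT
      have := jF_pos hr hr1 hT'
      have hP := pF_pos (T := T) hr hr1
      positivity
  exact hm h1 h2 h

/-- the volume density near the origin, as a function of `R` -/
noncomputable def f0 (t : ℝ) : ℝ := (1 - 6 / 13 * t) / Real.sqrt (1 - 12 / 25 * t) ^ 3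

theorem dF_surface {r : ℝ} (hr : 0 < r) (hr1 : r ^ 2 < 25 / 12) :
    dF r (r ^ 3 / 5) = 52 / 5 * f0 (r ^ 2) := by
  have he : 0 < 1 - 12 / 25 * r ^ 2 := by linarith
  have hp : pF r (r ^ 3 / 5) = (r ^ 2 / 2) ^ 2 * (1 - 12 / 25 * r ^ 2) := by
    rw [pF]; ring
  have hs : Real.sqrt (pF r (r ^ 3 / 5)) = r ^ 2 / 2 * Real.sqrt (1 - 12 / 25 * r ^ 2) := by
    rw [hp, Real.sqrt_mul (by positivity), Real.sqrt_sq (by positivity)]
  rw [dF, hs, hp, f0]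
  have hsq : Real.sqrt (1 - 12 / 25 * r ^ 2) ^ 2 = 1 - 12 / 25 * r ^ 2 := Real.sq_sqrt he.le
  have hspos : 0 < Real.sqrt (1 - 12 / 25 * r ^ 2) := Real.sqrt_pos.mpr he
  generalize Real.sqrt (1 - 12 / 25 * r ^ 2) = S at *
  rw [← hsq]
  have hr2 : r ^ 2 = 25 / 12 * (1 - S ^ 2) := by linarith
  field_simp
  have h3 : r ^ 4 = (25 / 12 * (1 - S ^ 2)) ^ 2 := by rw [← hr2]; ring
  ring_nf
  nlinarith

end Pool.Agent.W551.Iso
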