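import Pool.Agent.W551.Iso.Ineq

/-!
# Inequalities for `D` on `ℝ⁵ × ℝ⁵`
-/

set_option autoImplicit false

open Set
open scoped ContDiff

namespace Pool.Agent.W551.Iso

theorem fG_nonneg_iff {x : E} (hx : 0 < fR x) : 0 ≤ fG x ↔ fr x ^ 3 / 5 ≤ fT x := by
  rw [fG_eq]
  constructor
  · intro h
    by_contra hc
    have : fR x * (fT x - fr x ^ 3 / 5) < 0 := mul_neg_of_pos_of_neg hx (by linarith)
    linarith
  · intro h
    have : 0 ≤ fR x * (fT x - fr x ^ 3 / 5) := mul_nonneg hx.le (by linarith)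
    linarith

theorem fG_nonpos_iff {x : E} (hx : 0 < fR x) : fG x ≤ 0 ↔ fT x ≤ fr x ^ 3 / 5 := by
  rw [fG_eq]
  constructor
  · intro h
    by_contra hc
    have : 0 < fR x * (fT x - fr x ^ 3 / 5) := mul_pos hx (by linarith)
    linarith
  · intro h
    have : fR x * (fT x - fr x ^ 3 / 5) ≤ 0 := mul_nonpos_of_nonneg_of_nonpos hx.le (by linarith)
    linarith

theorem surf_mem {r : ℝ} (hr : 0 < r) (hr1 : r ≤ 1 / 10) :
    r ^ 3 / 5 ∈ Icc (r ^ 3 - r ^ 2) (r ^ 3 + r ^ 2) := by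
  have h2 : 0 < r ^ 2 := by positivity
  have h3 : r ^ 3 = r ^ 2 * r := by ring
  constructor <;> nlinarith

theorem fr_le_of_fR_le {x : E} (h : fR x ≤ 1 / 100) : fr x ≤ 1 / 10 := by
  have h1 := fr_sq x
  have h2 := fr_nonneg x
  nlinarith

theorem near_nonneg {x : E} (hx : 0 < fR x) (h : fR x ≤ 1 / 100) (hG : 0 ≤ fG x) :
    52 / 5 * f0 (fR x) ≤ fD x := by
  have hr := fr_pos hx
  have hr1 := fr_le_of_fR_le h
  rw [fD_eq, ← fr_sq x, ← dF_surface hr (by rw [fr_sq]; linarith)]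
  exact dF_mono hr hr1 (surf_mem hr hr1) (fT_mem x) ((fG_nonneg_iff hx).mp hG)

theorem near_nonpos {x : E} (hx : 0 < fR x) (h : fR x ≤ 1 / 100) (hG : fG x ≤ 0) :
    fD x ≤ 52 / 5 * f0 (fR x) := by
  have hr := fr_pos hx
  have hr1 := fr_le_of_fR_le h
  rw [fD_eq, ← fr_sq x, ← dF_surface hr (by rw [fr_sq]; linarith)]
  exact dF_mono hr hr1 (fT_mem x) (surf_mem hr hr1) ((fG_nonpos_iff hx).mp hG)

theorem fP_pos {x : E} (hx : 0 < fR x) (hG : -(1 / 20) < fG x) : 0 < fP x := by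
  rcases (fP_nonneg x).lt_or_eq with h | h
  · exact h
  exfalso
  have hr := fr_pos hx
  have hU := fU_nonneg x
  have hV := fV_nonneg x
  have h1 : fT x ^ 2 + fU x * fV x = 0 := h.symm
  have hT : fT x = 0 := by
    have : fT x ^ 2 = 0 := le_antisymm (by nlinarith [mul_nonneg hU hV]) (sq_nonneg _)
    simpa using this
  have hUV : fU x * fV x = 0 := by rw [hT] at h1; simpa using h1
  have hT2 : fr x ^ 3 + fU x - fV x = 0 := hT
  have hr3 : 0 < fr x ^ 3 := by positivity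
  have hU0 : fU x = 0 := by
    rcases mul_eq_zero.mp hUV with h2 | h2
    · exact h2
    · rw [h2] at hT2; linarith
  have hRV : fR x = fV x := by rw [fR, hU0, zero_add]
  have hrV : fr x ^ 2 = fV x := by rw [fr_sq, hRV]
  have h3 : fr x ^ 3 = fr x ^ 2 := by rw [hrV]; linarith
  have h4 : fr x = 1 := by
    have : fr x ^ 2 * (fr x - 1) = 0 := by ring_nf; ring_nf at h3; linarith
    rcases mul_eq_zero.mp this with h5 | h5
    · have := pow_pos hr 2; linarith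
    · linarith
  have h5 : fG x = -(1 / 20) := by
    rw [fG_eq, hT, ← fr_sq, h4]; norm_num
  linarith

theorem fD_pos {x : E} (hx : 0 < fR x) (hP : 0 < fP x) (hT : 0 ≤ fT x) : 0 < fD x := by
  have hr := fr_pos hx
  rw [fD]
  have hs := Real.sqrt_pos.mpr hP
  positivity

theorem sqrt_fP_le {x : E} (hT : 0 ≤ fT x) : Real.sqrt (fP x) ≤ fT x + fr x ^ 2 / 2 := by
  have hU := fU_nonneg x
  have hV := fV_nonneg x
  have h := fr_sq x
  have h3 : fR x = fU x + fV x := rfl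
  rw [Real.sqrt_le_left (by positivity), h, h3, fP]
  nlinarith [sq_nonneg (fU x - fV x), mul_nonneg hT hU, mul_nonneg hT hV]

theorem fD_lower {x : E} (hx : 1 / 20 ≤ fr x) (hP : 0 < fP x) (hT : 0 ≤ fT x) :
    1 / (2 * fr x) ≤ fD x := by
  have hr : 0 < fr x := by linarith
  have hs := Real.sqrt_pos.mpr hP
  have h1 := sqrt_fP_le hT
  rw [fD, div_le_div_iff₀ (by positivity) (by positivity)]
  have h2 : 0 ≤ 3 * fT x ^ 3 / fP x := by positivity
  have h3 : fr x ^ 2 / 2 ≤ 10 * fr x ^ 3 := by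
    have : 10 * fr x ^ 3 - fr x ^ 2 / 2 = 10 * fr x ^ 2 * (fr x - 1 / 20) := by ring
    have h4 : 0 ≤ 10 * fr x ^ 2 * (fr x - 1 / 20) := mul_nonneg (by positivity) (by linarith)
    linarith
  have h5 : Real.sqrt (fP x) ≤ 2 * (5 * fr x ^ 3 + fT x + 3 * fT x ^ 3 / fP x) := by linarith
  calc 1 * (fr x * Real.sqrt (fP x)) = fr x * Real.sqrt (fP x) := one_mul _
    _ ≤ fr x * (2 * (5 * fr x ^ 3 + fT x + 3 * fT x ^ 3 / fP x)) :=
        mul_le_mul_of_nonneg_left h5 hr.le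
    _ = _ := by ring

/-- `Ω` is bounded -/
theorem fr_le_of_nonpos {x : E} (hG : fG x ≤ 0) : fr x ≤ 5 / 4 := by
  rcases (fR_nonneg x).eq_or_lt with h | hx
  · have : fr x = 0 := by rw [fr, ← h, Real.sqrt_zero]
    rw [this]; norm_num
  have hr := fr_pos hx
  have h1 := (fG_nonpos_iff hx).mp hG
  have h2 := (fT_mem x).1
  have h3 : 4 / 5 * fr x ^ 3 ≤ fr x ^ 2 := by linarith
  by_contra hc
  have h4 : 4 / 5 * fr x ^ 3 - fr x ^ 2 = fr x ^ 2 * (4 / 5 * fr x - 1) := by ring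
  have h5 : 0 < fr x ^ 2 * (4 / 5 * fr x - 1) := mul_pos (by positivity) (by linarith)
  linarith

/-- small `G` near the origin -/
theorem fG_near {x : E} (h : fR x ≤ 1 / 100) : -(1 / 200) ≤ fG x := by
  rcases (fR_nonneg x).eq_or_lt with h0 | hx
  · rw [fG_eq, ← h0]; norm_num
  have h2 := (fT_mem x).1
  have h3 := fr_sq x
  have hr := fr_pos hx
  rw [fG_eq]
  have h4 : -fr x ^ 2 ≤ fT x - fr x ^ 3 / 5 := by
    have : 0 < fr x ^ 3 := by positivity
    linarith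
  rw [h3] at h4
  nlinarith

/-- near `{G = 0}` and away from the origin `T` is nonnegative -/
theorem fT_nonneg_of {x : E} (hx : 1 / 400 ≤ fR x) (hG : -(1 / 10 ^ 8) ≤ fG x) : 0 ≤ fT x := by
  have hx0 : 0 < fR x := by linarith
  have hr := fr_pos hx0
  have h3 := fr_sq x
  have hr1 : 1 / 20 ≤ fr x := by
    by_contra hc
    nlinarith
  rw [fG_eq] at hG
  by_contra hc
  have hc' : fT x < 0 := not_le.mp hc
  have h5 : (1 / 20 : ℝ) ^ 3 ≤ fr x ^ 3 := pow_le_pow_left₀ (by norm_num) hr1 3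
  have h6 : fT x - fr x ^ 3 / 5 ≤ -((1 / 20) ^ 3 / 5) := by linarith
  have h7 : fR x * (fT x - fr x ^ 3 / 5) ≤ 1 / 400 * (-((1 / 20) ^ 3 / 5)) := by
    nlinarith
  norm_num at h7 hG
  linarith

end Pool.Agent.W551.Iso
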