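import Pool.Agent.W551.Iso.Density

/-!
# The metric
-/

set_option autoImplicit false

open Set Filter Topology
open scoped ContDiff Matrix

namespace Pool.Agent.W551.Iso

/-! ### The function `β` -/

/-- `K(t) = f₀(t)^{-9/2} - 1` -/
noncomputable def fK (t : ℝ) : ℝ := ((Real.sqrt (f0 t))⁻¹) ^ 9 - 1

theorem f0_zero : f0 0 = 1 := by simp [f0]

theorem fK_zero : fK 0 = 0 := by simp [fK, f0_zero]

theorem contDiffAt_omega_fK : ContDiffAt ℝ ω fK 0 := by
  have h1 : (0 : ℝ) < 1 - 12 / 25 * 0 := by norm_num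
  have h2 : 0 < Real.sqrt (1 - 12 / 25 * (0 : ℝ)) := Real.sqrt_pos.mpr h1
  have h3 : ContDiffAt ℝ ω (fun t : ℝ => 1 - 12 / 25 * t) 0 := by fun_prop
  have h4 : ContDiffAt ℝ ω (fun t : ℝ => 1 - 6 / 13 * t) 0 := by fun_prop
  have h5 : ContDiffAt ℝ ω f0 0 := h4.div ((h3.sqrt h1.ne').pow 3) (by positivity)
  have h6 : f0 0 ≠ 0 := by rw [f0_zero]; norm_num
  have h7 : Real.sqrt (f0 0) ≠ 0 := by rw [f0_zero]; norm_num
  exact (((h5.sqrt h6).inv h7).pow 9).sub contDiffAt_const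

theorem contDiffAt_dslope_fK : ContDiffAt ℝ ∞ (dslope fK 0) 0 := by
  have h1 : AnalyticAt ℝ fK 0 := contDiffAt_omega_fK.analyticAt
  obtain ⟨p, hp⟩ := h1
  exact (HasFPowerSeriesAt.has_fpower_series_dslope_fslope hp).analyticAt.contDiffAt

/-- `δ = f^{-9/2}` -/
noncomputable def de (M : ℝ) (x : E) : ℝ := ((Real.sqrt (ff M x))⁻¹) ^ 9

/-- `β = (δ - 1) / R` -/
noncomputable def be (M : ℝ) (x : E) : ℝ :=
  if fR x = 0 then deriv fK 0 else (de M x - 1) / fR x

theorem de_pos {M : ℝ} (hM : Good M) (x : E) : 0 < de M x := by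
  have h := Real.sqrt_pos.mpr (ff_pos hM x)
  unfold de
  positivity

theorem contDiff_de {M : ℝ} (hM : Good M) : ContDiff ℝ ∞ (de M) := by
  rw [contDiff_iff_contDiffAt]
  intro x
  have h := Real.sqrt_pos.mpr (ff_pos hM x)
  exact (((contDiff_ff M).contDiffAt.sqrt (ff_pos hM x).ne').inv h.ne').pow 9

theorem be_mul (M : ℝ) (x : E) : 1 + be M x * fR x = de M x := by
  unfold be
  by_cases h : fR x = 0
  · rw [h, mul_zero, de, ff_near M (by rw [h]; norm_num), h, f0_zero]; simp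
  · rw [if_neg h]
    field_simp
    ring

theorem be_near (M : ℝ) {x : E} (h : fR x ≤ 1 / 400) : be M x = dslope fK 0 (fR x) := by
  unfold be
  by_cases h0 : fR x = 0
  · rw [if_pos h0, h0, dslope_same]
  · rw [if_neg h0, dslope_of_ne _ h0, slope_def_field, fK_zero, sub_zero, sub_zero, de,
      ff_near M h, fK]

theorem contDiff_be {M : ℝ} (hM : Good M) : ContDiff ℝ ∞ (be M) := by
  rw [contDiff_iff_contDiffAt]
  intro x
  by_cases h0 : fR x = 0
  · have h1 : be M =ᶠ[𝓝 x] fun y => dslope fK 0 (fR y) := by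
      have h2 : fR x < 1 / 400 := by rw [h0]; norm_num
      filter_upwards [continuous_fR.continuousAt.eventually_lt continuousAt_const h2] with y hy
      exact be_near M (le_of_lt hy)
    have h3 : ContDiffAt ℝ ∞ (dslope fK 0) (fR x) := by rw [h0]; exact contDiffAt_dslope_fK
    exact (h3.comp x contDiff_fR.contDiffAt).congr_of_eventuallyEq h1
  · have h1 : be M =ᶠ[𝓝 x] fun y => (de M y - 1) / fR y := by
      filter_upwards [continuous_fR.continuousAt.eventually_ne h0] with y hy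
      rw [be, if_neg hy]
    exact (((contDiff_de hM).contDiffAt.sub contDiffAt_const).div
      contDiff_fR.contDiffAt h0).congr_of_eventuallyEq h1

theorem one_add_beU_pos {M : ℝ} (hM : Good M) (x : E) : 0 < 1 + be M x * fU x := by
  have h1 := be_mul M x
  have h2 := de_pos hM x
  have hU := fU_nonneg x
  have hV := fV_nonneg x
  have hR : fR x = fU x + fV x := rfl
  rcases le_or_gt 0 (be M x) with h | h
  · positivity
  · have : be M x * fV x ≤ 0 := mul_nonpos_of_nonpos_of_nonneg h.le hV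
    rw [← h1, hR] at h2
    linarith [mul_add (be M x) (fU x) (fV x)]

/-! ### The blocks -/

/-- The matrix `a I - b z zᵀ` -/
noncomputable def blk (a b : ℝ) (z : Fin 5 → ℝ) : Matrix (Fin 5) (Fin 5) ℝ :=
  a • (1 : Matrix (Fin 5) (Fin 5) ℝ) - b • Matrix.vecMulVec z z

theorem blk_apply (a b : ℝ) (z : Fin 5 → ℝ) (i j : Fin 5) :
    blk a b z i j = a * (if i = j then 1 else 0) - b * (z i * z j) := by
  simp [blk, Matrix.vecMulVec_apply, Matrix.one_apply]

theorem blk_quad (a b : ℝ) (z v w : Fin 5 → ℝ) :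
    v ⬝ᵥ (blk a b z *ᵥ w) = a * (v ⬝ᵥ w) - b * (z ⬝ᵥ v) * (z ⬝ᵥ w) := by
  rw [blk, Matrix.sub_mulVec, Matrix.smul_mulVec, Matrix.one_mulVec, Matrix.smul_mulVec,
    Matrix.vecMulVec_mulVec, dotProduct_sub, dotProduct_smul, dotProduct_smul]
  simp only [smul_eq_mul, MulOpposite.smul_eq_mul_unop, MulOpposite.unop_op,
    dotProduct_smul]
  rw [dotProduct_comm v z]
  ring

theorem blk_det {a : ℝ} (ha : a ≠ 0) (b : ℝ) (z : Fin 5 → ℝ) :
    (blk a b z).det = a ^ 4 * (a - b * (z ⬝ᵥ z)) := by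
  have h1 : blk a b z =
      a • (1 + Matrix.replicateCol Unit ((-(b / a)) • z) * Matrix.replicateRow Unit z) := by
    rw [← Matrix.vecMulVec_eq]
    ext i j
    simp [blk, Matrix.vecMulVec_apply, Matrix.one_apply]
    split_ifs <;> field_simp <;> ring
  rw [h1, Matrix.det_smul, Matrix.det_one_add_replicateCol_mul_replicateRow, Fintype.card_fin,
    dotProduct_smul, smul_eq_mul]
  field_simp
  ring

theorem blk_pos {a b : ℝ} {z : Fin 5 → ℝ} (ha : 0 < a) (hb : 0 < a - b * (z ⬝ᵥ z))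
    {v : Fin 5 → ℝ} (hv : v ≠ 0) : 0 < v ⬝ᵥ (blk a b z *ᵥ v) := by
  rw [blk_quad]
  have hvv : 0 < v ⬝ᵥ v := by
    have h0 : 0 ≤ v ⬝ᵥ v := Finset.sum_nonneg (fun i _ => mul_self_nonneg _)
    rcases h0.lt_or_eq with h | h
    · exact h
    · exact absurd (dotProduct_self_eq_zero.mp h.symm) hv
  have hcs : (z ⬝ᵥ v) ^ 2 ≤ (z ⬝ᵥ z) * (v ⬝ᵥ v) := by
    have := Finset.sum_mul_sq_le_sq_mul_sq Finset.univ z v
    simpa [dotProduct, sq] using this
  rcases le_or_gt b 0 with h | h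
  · have : b * (z ⬝ᵥ v) * (z ⬝ᵥ v) ≤ 0 := by
      rw [mul_assoc]; exact mul_nonpos_of_nonpos_of_nonneg h (mul_self_nonneg _)
    nlinarith
  · have h1 : b * (z ⬝ᵥ v) * (z ⬝ᵥ v) ≤ b * ((z ⬝ᵥ z) * (v ⬝ᵥ v)) := by
      rw [mul_assoc, ← sq]; exact mul_le_mul_of_nonneg_left hcs h.le
    have h2 : 0 < (a - b * (z ⬝ᵥ z)) * (v ⬝ᵥ v) := mul_pos hb hvv
    nlinarith

theorem blk_nonneg {a b : ℝ} {z : Fin 5 → ℝ} (ha : 0 < a) (hb : 0 < a - b * (z ⬝ᵥ z))
    (v : Fin 5 → ℝ) : 0 ≤ v ⬝ᵥ (blk a b z *ᵥ v) := by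
  rcases eq_or_ne v 0 with h | h
  · rw [h]; simp
  · exact (blk_pos ha hb h).le

theorem blk_symm (a b : ℝ) (z : Fin 5 → ℝ) (i j : Fin 5) : blk a b z i j = blk a b z j i := by
  rw [blk_apply, blk_apply, mul_comm (z i)]
  simp only [eq_comm]

/-! ### The metric -/

/-- the `x` part -/
def pl (x : E) : Fin 5 → ℝ := fun a => x (Sum.inl a)
/-- the `y` part -/
def pr (x : E) : Fin 5 → ℝ := fun a => x (Sum.inr a)

/-- `a₁` -/
noncomputable def a1 (M : ℝ) (x : E) : ℝ := ff M x ^ 2 * (1 + be M x * fU x)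
/-- `b₁` -/
noncomputable def b1 (M : ℝ) (x : E) : ℝ := ff M x ^ 2 * be M x
/-- `a₂` -/
noncomputable def a2 (M : ℝ) (x : E) : ℝ := ff M x ^ 2 * de M x / (1 + be M x * fU x)
/-- `b₂` -/
noncomputable def b2 (M : ℝ) (x : E) : ℝ := ff M x ^ 2 * be M x / (1 + be M x * fU x)

/-- the metric -/
noncomputable def gg (M : ℝ) (x : E) : Matrix I I ℝ :=
  Matrix.fromBlocks (blk (a1 M x) (b1 M x) (pl x)) 0 0 (blk (a2 M x) (b2 M x) (pr x))

theorem pl_dot (x : E) : pl x ⬝ᵥ pl x = fU x := by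
  simp [pl, fU, dotProduct, sq]
theorem pr_dot (x : E) : pr x ⬝ᵥ pr x = fV x := by
  simp [pr, fV, dotProduct, sq]

theorem a1_pos {M : ℝ} (hM : Good M) (x : E) : 0 < a1 M x :=
  mul_pos (pow_pos (ff_pos hM x) 2) (one_add_beU_pos hM x)
theorem a2_pos {M : ℝ} (hM : Good M) (x : E) : 0 < a2 M x :=
  div_pos (mul_pos (pow_pos (ff_pos hM x) 2) (de_pos hM x)) (one_add_beU_pos hM x)
theorem a1_sub (M : ℝ) (x : E) : a1 M x - b1 M x * (pl x ⬝ᵥ pl x) = ff M x ^ 2 := by
  rw [pl_dot, a1, b1]; ring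
theorem a2_sub {M : ℝ} (hM : Good M) (x : E) :
    a2 M x - b2 M x * (pr x ⬝ᵥ pr x) = ff M x ^ 2 := by
  have h := one_add_beU_pos hM x
  rw [pr_dot, a2, b2, ← be_mul M x, fR]
  field_simp
  ring

theorem inn_gg (M : ℝ) (x v w : E) : inn (gg M) x v w =
    pl v ⬝ᵥ (blk (a1 M x) (b1 M x) (pl x) *ᵥ pl w) +
      pr v ⬝ᵥ (blk (a2 M x) (b2 M x) (pr x) *ᵥ pr w) := by
  have hv : v = Sum.elim (pl v) (pr v) := by
    funext i; rcases i with i | i <;> rfl
  have hw : w = Sum.elim (pl w) (pr w) := by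
    funext i; rcases i with i | i <;> rfl
  rw [inn, gg]
  conv_lhs => rw [hv, hw]
  rw [Matrix.fromBlocks_mulVec]
  simp only [Sum.elim_comp_inl, Sum.elim_comp_inr, Matrix.zero_mulVec, add_zero, zero_add]
  simp [dotProduct, Fintype.sum_sum_type]

theorem isMetric_gg {M : ℝ} (hM : Good M) : IsMetric (gg M) := by
  constructor
  · have hff := contDiff_ff M
    have hbe := contDiff_be hM
    have hde := contDiff_de hM
    have hden : ContDiff ℝ ∞ (fun x => 1 + be M x * fU x) :=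
      contDiff_const.add (hbe.mul contDiff_fU)
    have ha1 : ContDiff ℝ ∞ (a1 M) := (hff.pow 2).mul hden
    have hb1 : ContDiff ℝ ∞ (b1 M) := (hff.pow 2).mul hbe
    have ha2 : ContDiff ℝ ∞ (a2 M) := ((hff.pow 2).mul hde).div hden
      (fun x => (one_add_beU_pos hM x).ne')
    have hb2 : ContDiff ℝ ∞ (b2 M) := ((hff.pow 2).mul hbe).div hden
      (fun x => (one_add_beU_pos hM x).ne')
    rintro (i | i) (j | j)
    · have : (fun x => gg M x (Sum.inl i) (Sum.inl j)) = fun x : E =>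
        a1 M x * (if i = j then 1 else 0) - b1 M x * (x (Sum.inl i) * x (Sum.inl j)) := by
        funext x
        rw [gg, Matrix.fromBlocks_apply₁₁, blk_apply]; rfl
      rw [this]
      exact (ha1.mul contDiff_const).sub (hb1.mul ((contDiff_apply ℝ ℝ (Sum.inl i : I)).mul
        (contDiff_apply ℝ ℝ (Sum.inl j : I))))
    · exact contDiff_const
    · exact contDiff_const
    · have : (fun x => gg M x (Sum.inr i) (Sum.inr j)) = fun x : E =>
        a2 M x * (if i = j then 1 else 0) - b2 M x * (x (Sum.inr i) * x (Sum.inr j)) := by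
        funext x
        rw [gg, Matrix.fromBlocks_apply₂₂, blk_apply]; rfl
      rw [this]
      exact (ha2.mul contDiff_const).sub (hb2.mul ((contDiff_apply ℝ ℝ (Sum.inr i : I)).mul
        (contDiff_apply ℝ ℝ (Sum.inr j : I))))
  · intro x
    have hf2 : 0 < ff M x ^ 2 := pow_pos (ff_pos hM x) 2
    have p1 : 0 < a1 M x - b1 M x * (pl x ⬝ᵥ pl x) := by rw [a1_sub]; exact hf2
    have p2 : 0 < a2 M x - b2 M x * (pr x ⬝ᵥ pr x) := by rw [a2_sub hM]; exact hf2
    apply Matrix.PosDef.of_dotProduct_mulVec_pos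
    · apply Matrix.IsHermitian.ext
      rintro (i | i) (j | j)
      · simp only [gg, Matrix.fromBlocks_apply₁₁, star_trivial]; exact blk_symm _ _ _ _ _
      · simp [gg]
      · simp [gg]
      · simp only [gg, Matrix.fromBlocks_apply₂₂, star_trivial]; exact blk_symm _ _ _ _ _
    · intro v hv
      have h1 := inn_gg M x v v
      rw [inn] at h1
      rw [star_trivial, h1]
      by_cases hl : pl v = 0
      · have hr : pr v ≠ 0 := by
          intro hr
          apply hv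
          funext i
          rcases i with i | i
          · exact congrFun hl i
          · exact congrFun hr i
        exact add_pos_of_nonneg_of_pos (blk_nonneg (a1_pos hM x) p1 _)
          (blk_pos (a2_pos hM x) p2 hr)
      · exact add_pos_of_pos_of_nonneg (blk_pos (a1_pos hM x) p1 hl)
          (blk_nonneg (a2_pos hM x) p2 _)

theorem det_gg {M : ℝ} (hM : Good M) (x : E) : (gg M x).det = ff M x ^ 2 := by
  have hf := ff_pos hM x
  have hu := one_add_beU_pos hM x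
  have hs := Real.sqrt_pos.mpr hf
  have hsq : Real.sqrt (ff M x) ^ 2 = ff M x := Real.sq_sqrt hf.le
  rw [gg, Matrix.det_fromBlocks_zero₂₁, blk_det (a1_pos hM x).ne', blk_det (a2_pos hM x).ne',
    a1_sub, a2_sub hM, a1, a2, de]
  set s := Real.sqrt (ff M x)
  rw [← hsq]
  field_simp

theorem dens_gg {M : ℝ} (hM : Good M) (x : E) : dens (gg M) x = ff M x := by
  rw [dens, det_gg hM, Real.sqrt_sq (ff_pos hM x).le]

/-- `(αx, by)` is an eigenvector of the metric with eigenvalue `f²` -/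
theorem inn_fld {M : ℝ} (hM : Good M) (α b : E → ℝ) (x w : E) :
    inn (gg M) x (fld α b x) w = ff M x ^ 2 * (fld α b x ⬝ᵥ w) := by
  have h1 : pl (fld α b x) = α x • pl x := rfl
  have h2 : pr (fld α b x) = b x • pr x := rfl
  rw [inn_gg, h1, h2, blk_quad, blk_quad]
  have h3 : fld α b x ⬝ᵥ w = (α x • pl x) ⬝ᵥ pl w + (b x • pr x) ⬝ᵥ pr w := by
    simp [dotProduct, Fintype.sum_sum_type, fld, pl, pr]
  rw [h3]
  simp only [smul_dotProduct, dotProduct_smul, smul_eq_mul]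
  have e1 := a1_sub M x
  have e2 := a2_sub hM x
  rw [← e1]
  have e3 : ff M x ^ 2 * (b x * (pr x ⬝ᵥ pr w)) =
    (a2 M x - b2 M x * (pr x ⬝ᵥ pr x)) * (b x * (pr x ⬝ᵥ pr w)) := by rw [e2]
  rw [mul_add, e1, e3, ← e1]
  ring

end Pool.Agent.W551.Iso
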