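import Pool.Agent.W551.Iso.CalibE

/-!
# The region `Ω = {G < 0}` is isoperimetric
-/

set_option autoImplicit false

open Set Filter Topology MeasureTheory
open scoped ContDiff ENNReal

namespace Pool.Agent.W551.Iso

/-! ### Two points -/

/-- the point `(a e₀, b e₀)` -/
noncomputable def pt (a b : ℝ) : E := Sum.elim (Pi.single 0 a) (Pi.single 0 b)

theorem fU_pt (a b : ℝ) : fU (pt a b) = a ^ 2 := by
  simp [fU, pt, Pi.single_apply]
theorem fV_pt (a b : ℝ) : fV (pt a b) = b ^ 2 := by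
  simp [fV, pt, Pi.single_apply]

theorem fr_pt_zero_left (b : ℝ) (hb : 0 ≤ b) : fr (pt 0 b) = b := by
  rw [fr, fR, fU_pt, fV_pt]
  simp [Real.sqrt_sq hb]

theorem fr_pt_zero_right (a : ℝ) (ha : 0 ≤ a) : fr (pt a 0) = a := by
  rw [fr, fR, fU_pt, fV_pt]
  simp [Real.sqrt_sq ha]

theorem fG_pt_neg {b : ℝ} (hb : 0 < b) (hb1 : b ≤ 1) : fG (pt 0 b) < 0 := by
  rw [fG, fr_pt_zero_left b hb.le, fU_pt, fV_pt]
  have h4 : 0 < b ^ 4 := by positivity
  have h5 : b ^ 5 ≤ b ^ 4 := by
    have : b ^ 5 = b ^ 4 * b := by ring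
    rw [this]
    nlinarith
  have : ((0 : ℝ) ^ 2) ^ 2 - (b ^ 2) ^ 2 = - b ^ 4 := by ring
  rw [this]
  linarith

theorem fG_pt_pos {a : ℝ} (ha : 0 < a) : 0 < fG (pt a 0) := by
  rw [fG, fr_pt_zero_right a ha.le, fU_pt, fV_pt]
  have : (a ^ 2) ^ 2 - ((0 : ℝ) ^ 2) ^ 2 = a ^ 4 := by ring
  rw [this]
  positivity

/-! ### Volumes -/

theorem Om_subset : Om ⊆ Metric.closedBall 0 (5 / 4) := by
  intro x hx
  rw [mem_closedBall_zero_iff]
  exact (norm_le_fr x).trans (fr_le_of_nonpos (le_of_lt hx))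

theorem isBounded_Om : Bornology.IsBounded Om :=
  (Metric.isBounded_closedBall).subset Om_subset

theorem integrableOn_ff_Om (M : ℝ) : IntegrableOn (ff M) Om :=
  (((contDiff_ff M).continuous.continuousOn).integrableOn_compact
    (isCompact_closedBall (0 : E) (5 / 4))).mono_set Om_subset

theorem vol_pos_of_isOpen {M : ℝ} (hM : Good M) {V : Set E} (hV : IsOpen V) (hne : V.Nonempty) :
    0 < vol (gg M) V := by
  rw [vol_apply _ hV.measurableSet]
  rw [setLIntegral_pos_iff (continuous_dens (isMetric_gg hM)).measurable.ennreal_ofReal]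
  have : Function.support (fun x => ENNReal.ofReal (dens (gg M) x)) ∩ V = V := by
    apply inter_eq_right.mpr
    intro x _
    rw [Function.mem_support]
    exact (ENNReal.ofReal_pos.mpr (dens_pos (isMetric_gg hM) x)).ne'
  rw [this]
  exact hV.measure_pos _ hne

theorem dens_gg_eq {M : ℝ} (hM : Good M) : dens (gg M) = ff M := funext (dens_gg hM)

theorem vol_Om_lt_top {M : ℝ} (hM : Good M) : vol (gg M) Om < ⊤ := by
  rw [vol_apply _ measurableSet_Om]
  have h := (integrableOn_ff_Om M).2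
  rw [hasFiniteIntegral_iff_ofReal (ae_of_all _ (fun x => (ff_pos hM x).le))] at h
  rw [dens_gg_eq hM]
  exact h

theorem vol_Om_lt {M : ℝ} (hM : Good M) : vol (gg M) Om < vol (gg M) univ := by
  have h1 : IsOpen {x : E | 0 < fG x} := isOpen_lt continuous_const continuous_fG
  have h2 : 0 < vol (gg M) {x : E | 0 < fG x} :=
    vol_pos_of_isOpen hM h1 ⟨pt 1 0, fG_pt_pos one_pos⟩
  have h3 : Disjoint Om {x : E | 0 < fG x} := by
    rw [Set.disjoint_left]
    intro x hx hx'
    have h4 : fG x < 0 := hx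
    have h5 : 0 < fG x := hx'
    exact lt_asymm h4 h5
  calc vol (gg M) Om < vol (gg M) Om + vol (gg M) {x : E | 0 < fG x} :=
        ENNReal.lt_add_right (vol_Om_lt_top hM).ne h2.ne'
    _ = vol (gg M) (Om ∪ {x : E | 0 < fG x}) := (measure_union h3 h1.measurableSet).symm
    _ ≤ _ := measure_mono (subset_univ _)

/-! ### The isoperimetric property -/

theorem setIntegral_riemDiv_gg {M : ℝ} (hM : Good M) {A : Set E} (hA : MeasurableSet A)
    (X : E → E) : ∫ x in A, riemDiv (gg M) X x ∂(vol (gg M)) =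
      ∫ x in A, eucDiv (fun y => ff M y • X y) x := by
  rw [setIntegral_riemDiv (isMetric_gg hM) hA, dens_gg_eq hM]

theorem perimeter_Om_lt_top {M : ℝ} (hM : Good M) : perimeter (gg M) Om < ⊤ := by
  have h : perimeter (gg M) Om ≤ ENNReal.ofReal (52 / 5 * (∫ x in Om, ff M x) + 1) := by
    refine iSup₂_le (fun X hX => ?_)
    rw [setIntegral_riemDiv_gg hM measurableSet_Om]
    apply ENNReal.ofReal_le_ofReal
    obtain ⟨X', _, h2⟩ := main_ineq hM hX MeasurableSet.empty integrableOn_empty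
      (integrableOn_ff_Om M) one_pos
    simpa using h2
  exact lt_of_le_of_lt h ENNReal.ofReal_lt_top

theorem isIsoperimetricRegion_Om {M : ℝ} (hM : Good M) : IsIsoperimetricRegion (gg M) Om := by
  refine ⟨measurableSet_Om, vol_pos_of_isOpen hM isOpen_Om ⟨pt 0 1, fG_pt_neg one_pos le_rfl⟩,
    vol_Om_lt hM, perimeter_Om_lt_top hM, ?_⟩
  intro A hA hPA hvol
  have hg := isMetric_gg hM
  have hfin : vol (gg M) A ≠ ⊤ := by rw [hvol]; exact (vol_Om_lt_top hM).ne
  have hfA : IntegrableOn (ff M) A := by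
    have := integrableOn_of_vol_lt hg hA hfin
    rwa [dens_gg_eq hM] at this
  have hfO := integrableOn_ff_Om M
  have heq : ∫ x in Om, ff M x = ∫ x in A, ff M x := by
    have h1 := vol_eq_ofReal hg hA hfin
    have h2 := vol_eq_ofReal hg measurableSet_Om (vol_Om_lt_top hM).ne
    rw [hvol, h2, dens_gg_eq hM] at h1
    rwa [ENNReal.ofReal_eq_ofReal_iff] at h1
    · exact setIntegral_nonneg measurableSet_Om (fun x _ => (ff_pos hM x).le)
    · exact setIntegral_nonneg hA (fun x _ => (ff_pos hM x).le)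
  refine iSup₂_le (fun X hX => ?_)
  rw [setIntegral_riemDiv_gg hM measurableSet_Om]
  apply ENNReal.ofReal_le_of_le_toReal
  apply le_of_forall_pos_le_add
  intro ε hε
  obtain ⟨X', hX', h2⟩ := main_ineq hM hX hA hfA hfO hε
  rw [heq, sub_self, mul_zero, add_zero] at h2
  have h3 : ENNReal.ofReal (∫ x in A, eucDiv (fun y => ff M y • X' y) x) ≤
      perimeter (gg M) A := by
    rw [← setIntegral_riemDiv_gg hM hA]
    exact le_iSup₂ (f := fun (X : E → E) (_ : IsTestField (gg M) X) =>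
      ENNReal.ofReal (∫ x in A, riemDiv (gg M) X x ∂(vol (gg M)))) X' hX'
  have h4 := (ENNReal.ofReal_le_iff_le_toReal hPA.ne).mp h3
  linarith

end Pool.Agent.W551.Iso
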