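import Pool.Agent.W551.Iso.Region

/-!
# The boundary of `Ω`: its singular point and its mean curvature
-/

set_option autoImplicit false

open Set Filter Topology MeasureTheory
open scoped ContDiff ENNReal

namespace Pool.Agent.W551.Iso

/-! ### Points near a zero of `G` -/

theorem exists_sign_near {x : E} (hx : 0 < fR x) (hG : fG x = 0) {σ : ℝ} (hσ : σ = 1 ∨ σ = -1)
    {V : Set E} (hV : V ∈ 𝓝 x) : ∃ y ∈ V, 0 < σ * fG y := by
  have hP := fP_pos hx (by rw [hG]; norm_num)
  have hQ : 0 < fQ x := mul_pos hx hP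
  have hs := Real.sqrt_pos.mpr hQ
  have h1 : HasFDerivAt fG (fderiv ℝ fG x) x := (hasFDerivAt_fG hx).differentiableAt.hasFDerivAt
  have hc : HasDerivAt (fun t : ℝ => x + t • (σ • fX x)) (σ • fX x) 0 := by
    have := ((hasDerivAt_id (0 : ℝ)).smul_const (σ • fX x)).const_add x
    simpa using this
  have h1' : HasFDerivAt fG (fderiv ℝ fG x) (x + (0 : ℝ) • (σ • fX x)) := by simpa using h1
  have h2a : HasDerivAt (fun t : ℝ => fG (x + t • (σ • fX x)))
      (fderiv ℝ fG x (σ • fX x)) 0 := by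
    have h := HasFDerivAt.comp_hasDerivAt (0 : ℝ) h1' hc
    exact h
  have h2 : HasDerivAt (fun t : ℝ => σ * fG (x + t • (σ • fX x)))
      (σ * fderiv ℝ fG x (σ • fX x)) 0 := h2a.const_mul σ
  have h3 : σ * fderiv ℝ fG x (σ • fX x) = Real.sqrt (fQ x) := by
    rw [map_smul, fderiv_fG_fX hx hP, smul_eq_mul, ← mul_assoc]
    rcases hσ with h | h <;> rw [h] <;> norm_num
  rw [h3] at h2
  -- positivity for small positive `t`
  have h4 : ∀ᶠ t in 𝓝[>] (0 : ℝ), 0 < σ * fG (x + t • (σ • fX x)) := by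
    have h5 := h2.tendsto_slope_zero_right
    have h6 := h5.eventually (lt_mem_nhds hs)
    filter_upwards [h6, self_mem_nhdsWithin] with t ht ht0
    have ht0' : 0 < t := ht0
    simp only [zero_add, zero_smul, add_zero, hG, mul_zero, sub_zero, smul_eq_mul] at ht
    exact (mul_pos_iff_of_pos_left (inv_pos.mpr ht0')).mp ht
  have h7 : ∀ᶠ t in 𝓝[>] (0 : ℝ), x + t • (σ • fX x) ∈ V := by
    have : Tendsto (fun t : ℝ => x + t • (σ • fX x)) (𝓝[>] 0) (𝓝 x) := by
      have h8 := hc.continuousAt.tendsto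
      simp only [zero_smul, add_zero] at h8
      exact h8.mono_left nhdsWithin_le_nhds
    exact this.eventually hV
  obtain ⟨t, ht1, ht2⟩ := (h4.and h7).exists
  exact ⟨_, ht2, ht1⟩

theorem tendsto_pt {V : Set E} (hV : V ∈ 𝓝 (0 : E)) (α β : ℝ) :
    ∃ t : ℝ, 0 < t ∧ t ≤ 1 ∧ pt (t * α) (t * β) ∈ V := by
  have h1 : Tendsto (fun t : ℝ => t • pt α β) (𝓝[>] 0) (𝓝 (0 : E)) := by
    have h8 : ContinuousAt (fun t : ℝ => t • pt α β) 0 :=
      (continuous_id.smul continuous_const).continuousAt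
    have h9 := h8.tendsto
    rw [zero_smul] at h9
    exact h9.mono_left nhdsWithin_le_nhds
  have h2 : ∀ᶠ t in 𝓝[>] (0 : ℝ), t • pt α β ∈ V := h1.eventually hV
  have h3 : ∀ᶠ t in 𝓝[>] (0 : ℝ), t ≤ 1 := by
    apply nhdsWithin_le_nhds
    exact Iic_mem_nhds one_pos
  obtain ⟨t, ht⟩ := ((h2.and h3).and self_mem_nhdsWithin).exists
  refine ⟨t, ht.2, ht.1.2, ?_⟩
  have : pt (t * α) (t * β) = t • pt α β := by
    funext i
    rcases i with i | i
    · by_cases h : i = 0
      · subst h; simp [pt]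
      · simp [pt, h]
    · by_cases h : i = 0
      · subst h; simp [pt]
      · simp [pt, h]
  rw [this]
  exact ht.1.1

theorem exists_neg_near {x : E} (hG : fG x = 0) {V : Set E} (hV : V ∈ 𝓝 x) :
    ∃ y ∈ V, fG y < 0 := by
  rcases eq_or_ne x 0 with rfl | hx
  · obtain ⟨t, h0, h1, h2⟩ := tendsto_pt hV 0 1
    refine ⟨_, h2, ?_⟩
    rw [mul_zero, mul_one]
    exact fG_pt_neg h0 h1
  · obtain ⟨y, h1, h2⟩ := exists_sign_near (fR_pos_iff.mpr hx) hG (Or.inr rfl) hV
    exact ⟨y, h1, by linarith⟩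

theorem exists_pos_near {x : E} (hG : fG x = 0) {V : Set E} (hV : V ∈ 𝓝 x) :
    ∃ y ∈ V, 0 < fG y := by
  rcases eq_or_ne x 0 with rfl | hx
  · obtain ⟨t, h0, h1, h2⟩ := tendsto_pt hV 1 0
    refine ⟨_, h2, ?_⟩
    rw [mul_zero, mul_one]
    exact fG_pt_pos h0
  · obtain ⟨y, h1, h2⟩ := exists_sign_near (fR_pos_iff.mpr hx) hG (Or.inl rfl) hV
    exact ⟨y, h1, by linarith⟩

theorem closure_Om : closure Om = {x | fG x ≤ 0} := by
  apply subset_antisymm
  · exact closure_minimal (fun x hx => show fG x ≤ 0 from le_of_lt hx)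
      (isClosed_le continuous_fG continuous_const)
  · intro x hx
    have hx' : fG x ≤ 0 := hx
    rcases hx'.lt_or_eq with h | h
    · exact subset_closure h
    · rw [mem_closure_iff_nhds]
      intro V hV
      obtain ⟨y, h1, h2⟩ := exists_neg_near h hV
      exact ⟨y, h1, h2⟩

theorem frontier_Om : frontier Om = {x | fG x = 0} := by
  rw [isOpen_Om.frontier_eq, closure_Om]
  ext x
  constructor
  · rintro ⟨h1, h2⟩
    have h1' : fG x ≤ 0 := h1
    have h2' : 0 ≤ fG x := not_lt.mp h2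
    exact le_antisymm h1' h2'
  · intro h
    have h' : fG x = 0 := h
    refine ⟨le_of_eq h', fun h3 => ?_⟩
    have h4 : fG x < 0 := h3
    rw [h'] at h4
    exact lt_irrefl _ h4

theorem interior_closure_Om : interior (closure Om) = Om := by
  apply subset_antisymm
  · intro x hx
    have h1 : closure Om ∈ 𝓝 x := mem_interior_iff_mem_nhds.mp hx
    have h2 : x ∈ closure Om := interior_subset hx
    rw [closure_Om] at h1 h2
    have h2' : fG x ≤ 0 := h2
    rcases h2'.lt_or_eq with h | h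
    · exact h
    · obtain ⟨y, h3, h4⟩ := exists_pos_near h h1
      have h3' : fG y ≤ 0 := h3
      exact absurd h4 (not_lt.mpr h3')
  · exact interior_maximal subset_closure isOpen_Om

/-- every neighbourhood of a boundary point meets `Ω` and its complement in positive volume -/
theorem vol_pos_both {M : ℝ} (hM : Good M) {p : E} (hp : p ∈ frontier Om) {V : Set E}
    (hV : IsOpen V) (hpV : p ∈ V) : 0 < vol (gg M) (Om ∩ V) ∧ 0 < vol (gg M) (V \ Om) := by
  rw [frontier_Om] at hp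
  have hp' : fG p = 0 := hp
  have hVn := hV.mem_nhds hpV
  constructor
  · obtain ⟨y, h1, h2⟩ := exists_neg_near hp' hVn
    exact vol_pos_of_isOpen hM (isOpen_Om.inter hV) ⟨y, h2, h1⟩
  · obtain ⟨y, h1, h2⟩ := exists_pos_near hp' hVn
    have hO : IsOpen {x : E | 0 < fG x} := isOpen_lt continuous_const continuous_fG
    have h3 := vol_pos_of_isOpen hM (hV.inter hO) ⟨y, h1, h2⟩
    refine lt_of_lt_of_le h3 (measure_mono ?_)
    rintro z ⟨hz1, hz2⟩
    refine ⟨hz1, fun hz3 => ?_⟩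
    have a1 : 0 < fG z := hz2
    have a2 : fG z < 0 := hz3
    exact lt_asymm a1 a2

/-! ### The mean curvature -/

theorem hasMeanCurvature_Om {M : ℝ} (hM : Good M) {p : E} (hp : p ∈ frontier Om) (h0 : p ≠ 0) :
    HasMeanCurvature (gg M) Om p (52 / 5) := by
  have hp' : fG p = 0 := by rw [frontier_Om] at hp; exact hp
  have hg := isMetric_gg hM
  refine ⟨{x | 0 < fR x ∧ -(1 / 100) < fG x}, fG, fun x => (ff M x)⁻¹ • fX x, ?_, ?_, ?_, ?_, ?_,
    ?_, ?_, ?_, ?_, ?_⟩
  · exact (isOpen_lt continuous_const continuous_fR).inter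
      (isOpen_lt continuous_const continuous_fG)
  · exact ⟨fR_pos_iff.mpr h0, by rw [hp']; norm_num⟩
  · rintro q ⟨hq, _⟩
    exact (contDiffAt_fG hq).contDiffWithinAt
  · rintro q ⟨hq, hq2⟩ hz
    have hP := fP_pos hq (by linarith : -(1 / 20) < fG q)
    have h1 := fderiv_fG_fX hq hP
    rw [hz, zero_apply] at h1
    have h2 : 0 < Real.sqrt (fQ q) := Real.sqrt_pos.mpr (mul_pos hq hP)
    linarith
  · ext q
    constructor
    · rintro ⟨h1, h2⟩
      exact ⟨h2, h1⟩
    · rintro ⟨h1, h2⟩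
      exact ⟨h2, h1⟩
  · rw [frontier_Om]
    ext q
    constructor
    · rintro ⟨h1, h2⟩
      exact ⟨h2, h1⟩
    · rintro ⟨h1, h2⟩
      exact ⟨h2, h1⟩
  · rintro q ⟨hq, hq2⟩
    have hP := fP_pos hq (by linarith : -(1 / 20) < fG q)
    have h1 : ContDiffAt ℝ ∞ (fun x => (ff M x)⁻¹) q :=
      (contDiff_ff M).contDiffAt.inv (ff_pos hM q).ne'
    exact (h1.smul (contDiffAt_fX hq hP)).contDiffWithinAt
  · rintro q ⟨hq, hq2⟩
    have hP := fP_pos hq (by linarith : -(1 / 20) < fG q)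
    have hf := ff_pos hM q
    have h2 : ∀ (a : ℝ) (v : E), inn (gg M) q (a • v) (a • v) = a ^ 2 * inn (gg M) q v v := by
      intro a v
      rw [inn, inn, Matrix.mulVec_smul, smul_dotProduct, dotProduct_smul, smul_eq_mul, smul_eq_mul]
      ring
    rw [h2, inn_fX hM, fX_dot hq hP]
    field_simp
  · rintro q ⟨hq, hq2⟩
    have hP := fP_pos hq (by linarith : -(1 / 20) < fG q)
    have hf := ff_pos hM q
    have hs : 0 < Real.sqrt (fQ q) := Real.sqrt_pos.mpr (mul_pos hq hP)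
    refine ⟨ff M q / Real.sqrt (fQ q), by positivity, fun w => ?_⟩
    have h2 : inn (gg M) q ((ff M q)⁻¹ • fX q) w = (ff M q)⁻¹ * inn (gg M) q (fX q) w := by
      rw [inn, inn, smul_dotProduct, smul_eq_mul]
    rw [h2, inn_fX hM, fderiv_fG_eq hq hP]
    field_simp
  · rintro q ⟨hq1, hq, hq2⟩
    have hP := fP_pos hq (by linarith : -(1 / 20) < fG q)
    have hf := ff_pos hM q
    rw [frontier_Om] at hq1
    have e1 : (fun y => dens (gg M) y • ((ff M y)⁻¹ • fX y)) = fX := by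
      funext y
      rw [dens_gg hM, smul_smul, mul_inv_cancel₀ (ff_pos hM y).ne', one_smul]
    rw [riemDiv, e1, eucDiv_fX hq hP, dens_gg hM, ← ff_surface hM hq hq1]
    field_simp

/-! ### The singular point -/

/-- the curve on the boundary of `Ω` -/
noncomputable def cur (u v : Fin 5 → ℝ) (r : ℝ) : E :=
  Sum.elim (fun a => r * Real.sqrt ((1 - 4 / 5 * r) / 2) * u a)
    (fun a => r * Real.sqrt ((1 + 4 / 5 * r) / 2) * v a)

theorem fG_cur {u v : Fin 5 → ℝ} (hu : ∑ a, u a ^ 2 = 1) (hv : ∑ a, v a ^ 2 = 1) {r : ℝ}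
    (hr : 0 ≤ r) (hr1 : r ≤ 1) : fG (cur u v r) = 0 := by
  have hU : fU (cur u v r) = r ^ 2 * ((1 - 4 / 5 * r) / 2) := by
    have : fU (cur u v r) = (r ^ 2 * Real.sqrt ((1 - 4 / 5 * r) / 2) ^ 2) * ∑ a, u a ^ 2 := by
      rw [fU, Finset.mul_sum]
      refine Finset.sum_congr rfl (fun i _ => ?_)
      simp only [cur, Sum.elim_inl]
      ring
    rw [this, hu, Real.sq_sqrt (by linarith), mul_one]
  have hV : fV (cur u v r) = r ^ 2 * ((1 + 4 / 5 * r) / 2) := by
    have : fV (cur u v r) = (r ^ 2 * Real.sqrt ((1 + 4 / 5 * r) / 2) ^ 2) * ∑ a, v a ^ 2 := by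
      rw [fV, Finset.mul_sum]
      refine Finset.sum_congr rfl (fun i _ => ?_)
      simp only [cur, Sum.elim_inr]
      ring
    rw [this, hv, Real.sq_sqrt (by linarith), mul_one]
  have hR : fR (cur u v r) = r ^ 2 := by rw [fR, hU, hV]; ring
  have hfr : fr (cur u v r) = r := by rw [fr, hR, Real.sqrt_sq hr]
  rw [fG, hfr, hU, hV]
  ring

theorem hasDerivAt_cur (u v : Fin 5 → ℝ) :
    HasDerivAt (cur u v) (Real.sqrt (1 / 2) • (Sum.elim u v : E)) 0 := by
  rw [hasDerivAt_pi]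
  have hs1 : HasDerivAt (fun r : ℝ => Real.sqrt ((1 - 4 / 5 * r) / 2))
      ((-(4 / 5) / 2) / (2 * Real.sqrt ((1 - 4 / 5 * 0) / 2))) 0 := by
    have h1 : HasDerivAt (fun r : ℝ => (1 - 4 / 5 * r) / 2) (-(4 / 5) / 2) 0 := by
      have := (((hasDerivAt_id (0 : ℝ)).const_mul (4 / 5)).const_sub 1).div_const 2
      simpa using this
    exact h1.sqrt (by norm_num)
  have hs2 : HasDerivAt (fun r : ℝ => Real.sqrt ((1 + 4 / 5 * r) / 2))
      (((4 / 5) / 2) / (2 * Real.sqrt ((1 + 4 / 5 * 0) / 2))) 0 := by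
    have h1 : HasDerivAt (fun r : ℝ => (1 + 4 / 5 * r) / 2) ((4 / 5) / 2) 0 := by
      have := (((hasDerivAt_id (0 : ℝ)).const_mul (4 / 5)).const_add 1).div_const 2
      simpa using this
    exact h1.sqrt (by norm_num)
  rintro (a | a)
  · have h := (((hasDerivAt_id (0 : ℝ)).mul hs1).mul_const (u a))
    have e : Real.sqrt ((1 - 4 / 5 * 0) / 2) = Real.sqrt (1 / 2) := by norm_num
    simp only [id, one_mul, zero_mul, add_zero, e] at h
    exact h
  · have h := (((hasDerivAt_id (0 : ℝ)).mul hs2).mul_const (v a))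
    have e : Real.sqrt ((1 + 4 / 5 * 0) / 2) = Real.sqrt (1 / 2) := by norm_num
    simp only [id, one_mul, zero_mul, add_zero, e] at h
    exact h

theorem cur_zero (u v : Fin 5 → ℝ) : cur u v 0 = 0 := by
  funext i
  rcases i with i | i <;> simp [cur]

theorem not_isRegularPoint_zero : ¬ IsRegularPoint Om (0 : E) := by
  rintro ⟨_, V, F, hV, h0V, hF, hdF, hfr⟩
  rw [frontier_Om] at hfr
  have hdiff : DifferentiableAt ℝ F 0 :=
    ((hF.contDiffAt (hV.mem_nhds h0V)).differentiableAt (by simp))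
  apply hdF 0 h0V
  -- derivative along the curves vanishes
  have key : ∀ u v : Fin 5 → ℝ, ∑ a, u a ^ 2 = 1 → ∑ a, v a ^ 2 = 1 →
      fderiv ℝ F 0 (Sum.elim u v : E) = 0 := by
    intro u v hu hv
    have h1 : HasDerivAt (fun r => F (cur u v r))
        (fderiv ℝ F 0 (Real.sqrt (1 / 2) • (Sum.elim u v : E))) 0 := by
      have h2 : HasFDerivAt F (fderiv ℝ F 0) (cur u v 0) := by
        rw [cur_zero]; exact hdiff.hasFDerivAt
      exact h2.comp_hasDerivAt 0 (hasDerivAt_cur u v)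
    have h3 : ∀ᶠ r in 𝓝[≥] (0 : ℝ), F (cur u v r) = 0 := by
      have h4 : ∀ᶠ r in 𝓝[≥] (0 : ℝ), cur u v r ∈ V := by
        have h5 : Tendsto (cur u v) (𝓝[≥] 0) (𝓝 (0 : E)) := by
          have h6 := (hasDerivAt_cur u v).continuousAt.tendsto
          rw [cur_zero] at h6
          exact h6.mono_left nhdsWithin_le_nhds
        exact h5.eventually (hV.mem_nhds h0V)
      have h7 : ∀ᶠ r in 𝓝[≥] (0 : ℝ), r ≤ 1 := by
        apply nhdsWithin_le_nhds
        exact Iic_mem_nhds one_pos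
      filter_upwards [h4, h7, self_mem_nhdsWithin] with r hr1 hr2 hr3
      have hmem : cur u v r ∈ {x | fG x = 0} ∩ V := ⟨fG_cur hu hv hr3 hr2, hr1⟩
      rw [hfr] at hmem
      exact hmem.2
    have h8 : HasDerivWithinAt (fun r => F (cur u v r)) 0 (Ici 0) 0 := by
      have h9 : HasDerivWithinAt (fun _ : ℝ => (0 : ℝ)) 0 (Ici 0) 0 :=
        hasDerivWithinAt_const _ _ _
      refine h9.congr_of_eventuallyEq h3 ?_
      exact h3.self_of_nhdsWithin self_mem_Ici
    have h10 := (uniqueDiffOn_Ici (0 : ℝ) 0 self_mem_Ici).eq_deriv _ h8 h1.hasDerivWithinAt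
    rw [map_smul, smul_eq_mul] at h10
    have h11 : 0 < Real.sqrt (1 / 2) := Real.sqrt_pos.mpr (by norm_num)
    rcases mul_eq_zero.mp h10.symm with h | h
    · exact absurd h h11.ne'
    · exact h
  have hunit : ∀ a : Fin 5, ∑ b, (Pi.single a (1 : ℝ) : Fin 5 → ℝ) b ^ 2 = 1 := by
    intro a
    simp [Pi.single_apply]
  have hunit' : ∀ a : Fin 5, ∑ b, (-(Pi.single a (1 : ℝ) : Fin 5 → ℝ)) b ^ 2 = 1 := by
    intro a
    simp [Pi.single_apply]
  ext w
  have hw : w = ∑ i, w i • (Pi.single i (1 : ℝ) : E) := by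
    funext j
    simp [Finset.sum_apply, Pi.single_apply]
  rw [hw, map_sum, zero_apply]
  refine Finset.sum_eq_zero (fun i _ => ?_)
  rw [map_smul]
  rcases i with i | i
  · have k1 := key (Pi.single i 1) (Pi.single 0 1) (hunit i) (hunit 0)
    have k2 := key (Pi.single i 1) (-(Pi.single 0 1)) (hunit i) (hunit' 0)
    have e : (2 : ℝ) • (Pi.single (Sum.inl i) (1 : ℝ) : E) =
        (Sum.elim (Pi.single i 1) (Pi.single 0 1) : E) +
          (Sum.elim (Pi.single i 1) (-(Pi.single 0 1)) : E) := by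
      funext j
      rcases j with j | j
      · simp [Pi.single_apply]
        split_ifs <;> norm_num
      · simp
    have h2 : (2 : ℝ) • fderiv ℝ F 0 (Pi.single (Sum.inl i) (1 : ℝ) : E) = 0 := by
      rw [← map_smul, e, map_add, k1, k2, add_zero]
    have h3 : fderiv ℝ F 0 (Pi.single (Sum.inl i) (1 : ℝ) : E) = 0 := by
      rcases smul_eq_zero.mp h2 with h | h
      · norm_num at h
      · exact h
    rw [h3, smul_zero]
  · have k1 := key (Pi.single 0 1) (Pi.single i 1) (hunit 0) (hunit i)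
    have k2 := key (-(Pi.single 0 1)) (Pi.single i 1) (hunit' 0) (hunit i)
    have e : (2 : ℝ) • (Pi.single (Sum.inr i) (1 : ℝ) : E) =
        (Sum.elim (Pi.single 0 1) (Pi.single i 1) : E) +
          (Sum.elim (-(Pi.single 0 1)) (Pi.single i 1) : E) := by
      funext j
      rcases j with j | j
      · simp
      · simp [Pi.single_apply]
        split_ifs <;> norm_num
    have h2 : (2 : ℝ) • fderiv ℝ F 0 (Pi.single (Sum.inr i) (1 : ℝ) : E) = 0 := by
      rw [← map_smul, e, map_add, k1, k2, add_zero]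
    have h3 : fderiv ℝ F 0 (Pi.single (Sum.inr i) (1 : ℝ) : E) = 0 := by
      rcases smul_eq_zero.mp h2 with h | h
      · norm_num at h
      · exact h
    rw [h3, smul_zero]

theorem fG_zero : fG (0 : E) = 0 := by
  simp [fG, fU, fV, fr, fR]

/-- the singular set is the origin -/
theorem isSingularPoint_iff (p : E) : IsSingularPoint Om p ↔ p = 0 := by
  constructor
  · rintro ⟨hp, hn⟩
    by_contra h0
    apply hn
    obtain ⟨M, hM⟩ := exists_good
    obtain ⟨V, F, ν, h1, h2, h3, h4, _, h6, _⟩ := hasMeanCurvature_Om hM hp h0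
    exact ⟨hp, V, F, h1, h2, h3, h4, h6⟩
  · rintro rfl
    refine ⟨?_, not_isRegularPoint_zero⟩
    rw [frontier_Om]
    exact fG_zero

end Pool.Agent.W551.Iso
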